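import Pool.Agent.Helper9.RS.Defs

/-!
# Transcendence degree and dimension
-/

set_option autoImplicit false

namespace Pool.Agent.Helper9.RS

open Cardinal

theorem small_iff_trdeg (n : ℕ) (R A : Type) [CommRing R] [Nontrivial R] [CommRing A]
    [Algebra R A] : Small n R A ↔ Algebra.trdeg R A ≤ n := by
  constructor
  · intro h
    unfold Algebra.trdeg
    apply ciSup_le'
    rintro ⟨s, hs⟩
    by_contra hlt
    have h1 : ((n + 1 : ℕ) : Cardinal) ≤ #s := by
      rw [not_le] at hlt
      have := Order.succ_le_of_lt hlt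
      rwa [Cardinal.succ_natCast, ← Nat.cast_succ] at this
    rw [← Cardinal.mk_fin] at h1
    obtain ⟨f⟩ := h1
    exact h (fun i => (f i : A)) (hs.comp f f.injective)
  · intro h a ha
    have h1 := ha.lift_cardinalMk_le_trdeg
    rw [Cardinal.mk_fin] at h1
    have h2 : ((n + 1 : ℕ) : Cardinal.{0}) ≤ (n : Cardinal.{0}) := by
      simpa using h1.trans (Cardinal.lift_le.2 h)
    have h3 := Nat.cast_le.1 h2
    omega

theorem small_of_injective {R B C : Type} [CommRing R] [CommRing B] [CommRing C] [Algebra R B]
    [Algebra R C] (φ : B →ₐ[R] C) (hφ : Function.Injective φ) {n : ℕ} (h : Small n R C) :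
    Small n R B := fun a ha => h (φ ∘ a) ((φ.algebraicIndependent_iff hφ).2 ha)

section

variable {K A : Type} [Field K] [CommRing A] [Algebra K A]

theorem ringKrullDim_le_of_integral {B C : Type} [CommRing B] [CommRing C] [Algebra B C]
    (h : Algebra.IsIntegral B C) : ringKrullDim C ≤ ringKrullDim B := by
  apply Order.krullDim_le_of_strictMono (PrimeSpectrum.comap (algebraMap B C))
  intro P Q hPQ
  rw [← PrimeSpectrum.asIdeal_lt_asIdeal] at hPQ ⊢
  obtain ⟨x, hx, hx'⟩ := SetLike.exists_of_lt hPQ
  exact Ideal.comap_lt_comap_of_integral_mem_sdiff hPQ.le ⟨hx, hx'⟩ (h.isIntegral x)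

theorem ringKrullDim_le_of_small {n : ℕ} (hA : Algebra.FiniteType K A) (h : Small n K A) :
    ringKrullDim A ≤ n := by
  rcases subsingleton_or_nontrivial A with hs | hs
  · rw [ringKrullDim_eq_bot_of_subsingleton]
    exact bot_le
  obtain ⟨s, g, hg, hint⟩ := exists_integral_inj_algHom_of_fg K A
  algebraize [g.toRingHom]
  have h1 := ringKrullDim_le_of_integral (B := MvPolynomial (Fin s) K) (C := A) ⟨hint⟩
  rw [MvPolynomial.ringKrullDim_of_isNoetherianRing, ringKrullDim_eq_zero_of_field, zero_add,
    Nat.card_eq_fintype_card, Fintype.card_fin] at h1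
  refine h1.trans ?_
  have h2 : s ≤ n := by
    by_contra hlt
    have h3 := small_of_injective g hg h
    apply h3 (fun i => MvPolynomial.X ⟨i, by omega⟩)
    exact (MvPolynomial.algebraicIndependent_X (Fin s) K).comp
      (fun i : Fin (n + 1) => (⟨i, by omega⟩ : Fin s)) fun i j hij => by
        simpa [Fin.ext_iff] using hij
  exact_mod_cast h2

theorem small_fractionRing {n : ℕ} [IsDomain A] {L : Type} [Field L] [Algebra A L] [Algebra K L]
    [IsScalarTower K A L] [IsFractionRing A L] (h : Small n K A) : Small n K L := by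
  rw [small_iff_trdeg] at h ⊢
  have h1 : FaithfulSMul A L := inferInstance
  have h2 : Algebra.IsAlgebraic A L := IsFractionRing.isAlgebraic_iff' A A L |>.1 inferInstance
  have h3 := trdeg_add_eq K A (A := L)
  rw [trdeg_eq_zero (R := A) (A := L), add_zero] at h3
  rw [← h3]
  exact h

theorem small_mvPolynomial (n : ℕ) : Small n K (FractionRing (MvPolynomial (Fin n) K)) := by
  apply small_fractionRing (A := MvPolynomial (Fin n) K)
  rw [small_iff_trdeg, MvPolynomial.trdeg_of_isDomain]
  simp

theorem small_ratFunc {k : Type} [Field k] [Algebra K k] {n : ℕ} (h : Small n K k) :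
    Small (n + 1) K (RatFunc k) := by
  rw [small_iff_trdeg] at h ⊢
  have h1 : Small 1 k (RatFunc k) := by
    apply small_fractionRing (A := Polynomial k)
    rw [small_iff_trdeg, Polynomial.trdeg_of_isDomain]
    simp
  rw [small_iff_trdeg] at h1
  have h3 := trdeg_add_eq K k (A := RatFunc k)
  rw [← h3]
  push_cast
  exact add_le_add h h1

theorem small_int_iff {k : Type} [Field k] [CharZero k] [Algebra ℚ k] {n : ℕ} :
    Small n ℤ k ↔ Small n ℚ k := by
  rw [small_iff_trdeg, small_iff_trdeg]
  have h2 : Algebra.IsAlgebraic ℤ ℚ := IsFractionRing.isAlgebraic_iff' ℤ ℤ ℚ |>.1 inferInstance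
  have h3 := trdeg_add_eq ℤ ℚ (A := k)
  rw [trdeg_eq_zero (R := ℤ) (A := ℚ), zero_add] at h3
  rw [h3]

end

theorem isAlgebraic_int {K : Type} [Field K] [Algebra ℚ K] (h : Algebra.IsAlgebraic ℚ K) :
    Algebra.IsAlgebraic ℤ K := by
  have h2 : Algebra.IsAlgebraic ℤ ℚ := IsFractionRing.isAlgebraic_iff' ℤ ℤ ℚ |>.1 inferInstance
  exact Algebra.IsAlgebraic.trans ℤ ℚ K

theorem big_aux (K L E : Type) [Field K] [CharZero K] [Field L] [Field E] [CharZero E]
    [Algebra K L] [Algebra L E] [Algebra K E] [IsScalarTower K L E]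
    (hK : Algebra.IsAlgebraic ℤ K) (hL : Small 1 K L) (hE : Algebra.IsAlgebraic L E) :
    Small 1 ℤ E := by
  rw [small_iff_trdeg] at hL ⊢
  have h4 := trdeg_add_eq K L (A := E)
  rw [trdeg_eq_zero (R := L) (A := E), add_zero] at h4
  have h5 := trdeg_add_eq ℤ K (A := E)
  rw [trdeg_eq_zero (R := ℤ) (A := K), zero_add, ← h4] at h5
  rw [← h5]
  exact hL

/-- an algebraically closed field of transcendence degree one -/
theorem exists_big_field : ∃ (E : Type) (_ : Field E) (_ : CharZero E), IsAlgClosed E ∧
    Small 1 ℤ E ∧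
    Nonempty (FractionRing (MvPolynomial (Fin 2) (AlgebraicClosure ℚ)) →+* RatFunc E) := by
  let K := AlgebraicClosure ℚ
  let E := AlgebraicClosure (RatFunc K)
  have h0 : CharZero E := charZero_of_injective_algebraMap (algebraMap K E).injective
  refine ⟨E, inferInstance, h0, inferInstance, ?_, ?_⟩
  · have hK : Algebra.IsAlgebraic ℤ K := by
      let _ : Algebra ℚ K := AlgebraicClosure.instAlgebra ℚ
      have h1 : Algebra.IsAlgebraic ℚ K := AlgebraicClosure.isAlgebraic ℚ
      exact isAlgebraic_int h1
    refine big_aux K (RatFunc K) E hK ?_ inferInstance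
    apply small_fractionRing (A := Polynomial K)
    rw [small_iff_trdeg, Polynomial.trdeg_of_isDomain]
    simp
  · let x : E := algebraMap (RatFunc K) E RatFunc.X
    let j : MvPolynomial (Fin 1) K →ₐ[K] E := MvPolynomial.aeval fun _ => x
    have hj : Function.Injective j := by
      have h1 : AlgebraicIndependent K (fun _ : Fin 1 => x) := by
        rw [algebraicIndependent_unique_type_iff]
        have h2 : Transcendental K (RatFunc.X : RatFunc K) := RatFunc.transcendental_X
        exact (transcendental_algebraMap_iff (algebraMap (RatFunc K) E).injective).2 h2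
      exact h1
    let φ : MvPolynomial (Fin 2) K →+* RatFunc E :=
      (algebraMap (Polynomial E) (RatFunc E)).comp
        ((Polynomial.mapRingHom (j : MvPolynomial (Fin 1) K →+* E)).comp
          (MvPolynomial.finSuccEquiv K 1 : MvPolynomial (Fin 2) K →+* _))
    have hφ : Function.Injective φ := by
      refine (IsFractionRing.injective (Polynomial E) (RatFunc E)).comp ?_
      refine (Polynomial.map_injective _ hj).comp ?_
      exact (MvPolynomial.finSuccEquiv K 1).injective
    exact ⟨IsFractionRing.lift hφ⟩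

end Pool.Agent.Helper9.RS
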