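import Pool.Agent.Helper9.RS.Defs2
import Pool.Agent.Helper9.RS.N
import Pool.Agent.Helper16.ReductionModP

/-!
# Kronecker dimension of the fraction fields of arithmetic curves
-/

set_option autoImplicit false

namespace Pool.Agent.Helper9.RS

open Cardinal

/-- lifting chains of primes in integral extensions -/
theorem exists_lift_chain {B C : Type} [CommRing B] [CommRing C] [Algebra B C]
    (hinj : Function.Injective (algebraMap B C)) [Algebra.IsIntegral B C] (n : ℕ) :
    ∀ f : Fin (n + 1) → PrimeSpectrum B, StrictMono f → ∃ g : Fin (n + 1) → PrimeSpectrum C,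
      StrictMono g ∧ ∀ i, (g i).comap (algebraMap B C) = f i := by
  induction n with
  | zero =>
    intro f _
    obtain ⟨Q, -, hQ, hQ'⟩ := Ideal.exists_ideal_over_prime_of_isIntegral (S := C)
      (f 0).asIdeal ⊥ (by
        rw [← RingHom.ker_eq_comap_bot, (RingHom.injective_iff_ker_eq_bot _).1 hinj]
        exact bot_le)
    refine ⟨fun _ => ⟨Q, hQ⟩, fun i j hij => ?_, fun i => ?_⟩
    · omega
    · have : i = 0 := by omega
      rw [this]
      exact PrimeSpectrum.ext hQ'
  | succ n ih =>
    intro f hf
    obtain ⟨g, hg, hgf⟩ := ih (fun i => f i.castSucc) (hf.comp Fin.strictMono_castSucc)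
    have hlt : f (Fin.last n).castSucc < f (Fin.last (n + 1)) := hf (Fin.castSucc_lt_last _)
    obtain ⟨Q, hQle, hQ, hQ'⟩ := Ideal.exists_ideal_over_prime_of_isIntegral (S := C)
      (f (Fin.last (n + 1))).asIdeal (g (Fin.last n)).asIdeal (by
        have := congrArg PrimeSpectrum.asIdeal (hgf (Fin.last n))
        rw [PrimeSpectrum.comap_asIdeal] at this
        rw [this]
        exact hlt.le)
    have hlt2 : g (Fin.last n) < ⟨Q, hQ⟩ := by
      refine lt_of_le_of_ne hQle fun h => hlt.ne ?_
      rw [← hgf (Fin.last n), h]
      exact PrimeSpectrum.ext hQ'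
    refine ⟨Fin.snoc g ⟨Q, hQ⟩, ?_, ?_⟩
    · rw [Fin.strictMono_iff_lt_succ]
      intro i
      induction i using Fin.lastCases with
      | last =>
        rw [Fin.snoc_castSucc, Fin.succ_last, Fin.snoc_last]
        exact hlt2
      | cast j =>
        rw [Fin.snoc_castSucc, Fin.succ_castSucc, Fin.snoc_castSucc]
        exact hg (Fin.castSucc_lt_succ)
    · intro i
      induction i using Fin.lastCases with
      | last =>
        rw [Fin.snoc_last]
        exact PrimeSpectrum.ext hQ'
      | cast j =>
        rw [Fin.snoc_castSucc]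
        exact hgf j

theorem ringKrullDim_le_of_injective {B C : Type} [CommRing B] [CommRing C] [Algebra B C]
    (hinj : Function.Injective (algebraMap B C)) (h : Algebra.IsIntegral B C) :
    ringKrullDim B ≤ ringKrullDim C := by
  apply iSup_le
  intro l
  obtain ⟨g, hg, -⟩ := exists_lift_chain hinj (C := C) l.length l.toFun l.strictMono
  exact Order.LTSeries.length_le_krullDim (LTSeries.mk l.length g hg)

/-- finitely generated domains of dimension at most `n` over a field -/
theorem small_of_dim {k A : Type} [Field k] [CommRing A] [IsDomain A] [Algebra k A]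
    (hA : Algebra.FiniteType k A) {n : ℕ} (h : ringKrullDim A ≤ n) : Small n k A := by
  obtain ⟨s, g, hg, hint⟩ := exists_integral_inj_algHom_of_fg k A
  algebraize [g.toRingHom]
  have hI : Algebra.IsIntegral (MvPolynomial (Fin s) k) A := ⟨hint⟩
  have h1 := ringKrullDim_le_of_injective (B := MvPolynomial (Fin s) k) (C := A) hg hI
  rw [MvPolynomial.ringKrullDim_of_isNoetherianRing, ringKrullDim_eq_zero_of_field, zero_add,
    Nat.card_eq_fintype_card, Fintype.card_fin] at h1
  have h2 : s ≤ n := by exact_mod_cast h1.trans h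
  have : IsScalarTower k (MvPolynomial (Fin s) k) A := IsScalarTower.of_algHom g
  have : FaithfulSMul (MvPolynomial (Fin s) k) A :=
    (faithfulSMul_iff_algebraMap_injective _ _).2 hg
  rw [small_iff_trdeg]
  have h3 := trdeg_add_eq k (MvPolynomial (Fin s) k) (A := A)
  rw [trdeg_eq_zero (R := MvPolynomial (Fin s) k) (A := A), add_zero,
    MvPolynomial.trdeg_of_isDomain] at h3
  rw [← h3]
  simpa using h2

/-- a finitely generated ring which is a field has positive characteristic -/
theorem not_isField_of_finiteType {F : Type} [Field F] [CharZero F] (h : Algebra.FiniteType ℤ F) :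
    False := by
  have hJ := Pool.Agent.Helper16.isJacobsonRing_int
  have h1 := finite_of_finite_type_of_isJacobsonRing ℤ F
  have h2 : Algebra.IsIntegral ℤ F := inferInstance
  have h3 := isField_of_isIntegral_of_isField (R := ℤ) (S := F) (by
    exact (algebraMap ℤ F).injective_int) (Field.toIsField F)
  exact Int.not_isField h3

theorem exists_mul_eq_int {R : Type} [CommRing R] [IsDomain R] [CharZero R]
    (hR : Algebra.FiniteType ℤ R) (hdim : ringKrullDim R ≤ 1) (x : R) (hx : x ≠ 0) :
    ∃ y : R, ∃ n : ℤ, n ≠ 0 ∧ x * y = n := by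
  by_contra hcon
  push Not at hcon
  obtain ⟨P, hP, hxP, hdis⟩ := Ideal.exists_le_prime_disjoint (Ideal.span {x})
    ((nonZeroDivisors ℤ).map (Int.castRingHom R)) (by
      rw [Set.disjoint_left]
      rintro _ hz ⟨n, hn, rfl⟩
      rw [SetLike.mem_coe, Ideal.mem_span_singleton] at hz
      obtain ⟨y, hy⟩ := hz
      exact hcon y n (nonZeroDivisors.ne_zero hn) hy.symm)
  have hP0 : P ≠ ⊥ := by
    rintro rfl
    exact hx (by simpa using hxP (Ideal.mem_span_singleton_self x))
  have hmax : ¬ P.IsMaximal := by
    intro hm
    let _ : Field (R ⧸ P) := Ideal.Quotient.field P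
    have hc : CharZero (R ⧸ P) := by
      apply charZero_of_inj_zero
      intro n hn
      by_contra hn0
      have h1 : (n : R) ∈ P := by
        rw [← Ideal.Quotient.eq_zero_iff_mem, map_natCast]
        exact hn
      exact Set.disjoint_left.1 hdis h1 ⟨(n : ℤ), mem_nonZeroDivisors_of_ne_zero
        (by exact_mod_cast hn0), by simp⟩
    have : Algebra.FiniteType ℤ (R ⧸ P) :=
      hR.of_surjective (Ideal.Quotient.mkₐ ℤ P) (Ideal.Quotient.mkₐ_surjective ℤ P)
    exact not_isField_of_finiteType (F := R ⧸ P) this
  obtain ⟨M, hM, hle⟩ := Ideal.exists_le_maximal P hP.ne_top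
  have hlt : P < M := lt_of_le_of_ne hle fun h => hmax (h ▸ hM)
  have h1 := (Ideal.height_add_one_le_of_lt_of_isPrime hlt)
  have h2 : (M.height : WithBot ℕ∞) ≤ 1 :=
    (Ideal.height_le_ringKrullDim_of_ne_top hM.ne_top).trans hdim
  have h3 : M.height ≤ 0 + 1 := WithBot.coe_le_coe.1 h2
  have h4 : P.height ≤ 0 := (ENat.add_le_add_iff_right (by simp)).1 (h1.trans h3)
  exact hP0 (Ideal.height_eq_zero_iff_eq_bot.1 (le_antisymm h4 bot_le))

theorem kron_of_dim {R : Type} [CommRing R] [IsDomain R] (hR : Algebra.FiniteType ℤ R)
    (hdim : ringKrullDim R ≤ 1) {K : Type} [Field K] [Algebra R K] [IsFractionRing R K] :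
    Kron 0 K := by
  rcases CharP.exists R with ⟨p, hp⟩
  rcases CharP.char_is_prime_or_zero R p with hpr | hp0
  · right
    have : Fact p.Prime := ⟨hpr⟩
    let _ : Algebra (ZMod p) R := ZMod.algebra R p
    let _ : Algebra (ZMod p) K := ((algebraMap R K).comp (algebraMap (ZMod p) R)).toAlgebra
    have : IsScalarTower (ZMod p) R K := IsScalarTower.of_algebraMap_eq fun _ => rfl
    refine ⟨p, inferInstance, inferInstance, ?_⟩
    have h1 : Algebra.FiniteType (ZMod p) R := by
      have : IsScalarTower ℤ (ZMod p) R := IsScalarTower.of_algebraMap_eq' (RingHom.ext_int _ _)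
      exact Algebra.FiniteType.of_restrictScalars_finiteType ℤ (ZMod p) R
    exact small_fractionRing (A := R) (small_of_dim h1 (by simpa using hdim))
  · left
    subst hp0
    have hR0 : CharZero R := CharP.charP_to_charZero R
    have hK0 : CharZero K := charZero_of_injective_algebraMap (IsFractionRing.injective R K)
    refine ⟨hK0, ?_⟩
    have key := exists_mul_eq_int hR hdim
    rw [small_int_iff, small_iff_trdeg]
    have hft : Algebra.FiniteType ℚ K := by
      obtain ⟨s, hs⟩ := hR
      classical
      refine ⟨⟨s.image (algebraMap R K), ?_⟩⟩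
      rw [eq_top_iff]
      rintro z -
      obtain ⟨a, b, hb, rfl⟩ := IsFractionRing.div_surjective (A := R) z
      have hmem : ∀ r : R, algebraMap R K r ∈ Algebra.adjoin ℚ
          ((s.image (algebraMap R K) : Finset K) : Set K) := by
        intro r
        have hr : r ∈ Algebra.adjoin ℤ (s : Set R) := hs ▸ Algebra.mem_top
        induction hr using Algebra.adjoin_induction with
        | mem x hx =>
          apply Algebra.subset_adjoin
          rw [Finset.coe_image]
          exact ⟨x, hx, rfl⟩
        | algebraMap n =>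
          have : algebraMap R K (algebraMap ℤ R n) = algebraMap ℚ K n := by simp
          rw [this]
          exact Subalgebra.algebraMap_mem _ _
        | add x y _ _ h1 h2 => rw [map_add]; exact add_mem h1 h2
        | mul x y _ _ h1 h2 => rw [map_mul]; exact mul_mem h1 h2
      obtain ⟨y, n, hn, hy⟩ := key b (nonZeroDivisors.ne_zero hb)
      have hb' : algebraMap R K b ≠ 0 := by
        intro h0
        exact nonZeroDivisors.ne_zero hb (IsFractionRing.injective R K (by rw [h0, map_zero]))
      have hn' : (n : K) ≠ 0 := by exact_mod_cast hn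
      have e : algebraMap R K a / algebraMap R K b =
          algebraMap ℚ K ((n : ℚ)⁻¹) * (algebraMap R K (a * y)) := by
        have h5 : algebraMap R K b * algebraMap R K y = n := by
          rw [← map_mul, hy]; simp
        rw [map_inv₀, map_intCast, map_mul, div_eq_iff hb', mul_assoc, mul_assoc,
          mul_comm (algebraMap R K y), h5, mul_comm, mul_assoc, mul_inv_cancel₀ hn', mul_one]
      rw [e]
      exact mul_mem (Subalgebra.algebraMap_mem _ _) (hmem _)
    have hfin := finite_of_finite_type_of_isJacobsonRing ℚ K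
    have : Algebra.IsAlgebraic ℚ K := inferInstance
    rw [trdeg_eq_zero]
    simp

end Pool.Agent.Helper9.RS
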