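import Pool.Agent.Helper9.RS.Defs2
import Pool.Agent.Helper9.RS.N

/-!
# Kronecker dimension: algebraic extensions, rational functions, dimension of rings
-/

set_option autoImplicit false

namespace Pool.Agent.Helper9.RS

theorem small_algebraic {n : ℕ} {R K L : Type} [CommRing R] [Nontrivial R] [Field K] [Field L]
    [Algebra R K] [FaithfulSMul R K] [Algebra K L] [Algebra R L] [IsScalarTower R K L]
    (hL : Algebra.IsAlgebraic K L) (h : Small n R K) : Small n R L := by
  rw [small_iff_trdeg] at h ⊢
  have h1 := trdeg_add_eq R K (A := L)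
  rw [trdeg_eq_zero (R := K) (A := L), add_zero] at h1
  rwa [← h1]

theorem kron_algebraic {d : ℕ} {K L : Type} [Field K] [Field L] [Algebra K L]
    (hL : Algebra.IsAlgebraic K L) (h : Kron d K) : Kron d L := by
  rcases h with ⟨h0, h1⟩ | ⟨p, hp, hA, h1⟩
  · exact Or.inl ⟨charZero_of_injective_algebraMap (algebraMap K L).injective,
      small_algebraic hL h1⟩
  · let _ : Algebra (ZMod p) L := ((algebraMap K L).comp (algebraMap (ZMod p) K)).toAlgebra
    have h2 : IsScalarTower (ZMod p) K L := IsScalarTower.of_algebraMap_eq fun _ => rfl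
    exact Or.inr ⟨p, hp, inferInstance, small_algebraic hL h1⟩

theorem small_one_ratFunc (K : Type) [Field K] : Small 1 K (RatFunc K) := by
  apply small_fractionRing (A := Polynomial K)
  rw [small_iff_trdeg, Polynomial.trdeg_of_isDomain]
  simp

theorem small_int_add {d : ℕ} {K L : Type} [Field K] [Field L] [CharZero K] [CharZero L]
    [Algebra K L] (h : Small d ℤ K) (h1 : Small 1 K L) : Small (d + 1) ℤ L := by
  rw [small_iff_trdeg] at h h1 ⊢
  have h3 := trdeg_add_eq ℤ K (A := L)
  rw [← h3]
  push_cast
  exact add_le_add h h1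

theorem kron_ratFunc {d : ℕ} {K : Type} [Field K] (h : Kron d K) : Kron (d + 1) (RatFunc K) := by
  rcases h with ⟨h0, h1⟩ | ⟨p, hp, hA, h1⟩
  · have h2 : CharZero (RatFunc K) :=
      charZero_of_injective_algebraMap (algebraMap K (RatFunc K)).injective
    exact Or.inl ⟨h2, small_int_add h1 (small_one_ratFunc K)⟩
  · exact Or.inr ⟨p, hp, inferInstance, small_ratFunc h1⟩

/-- an algebraic relation over `ℤ` with content one -/
theorem exists_isPrimitive {B : Type} [CommRing B] [IsDomain B] [CharZero B] {b : B}
    (hb : IsAlgebraic ℤ b) : ∃ q : Polynomial ℤ, q.IsPrimitive ∧ Polynomial.aeval b q = 0 := by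
  obtain ⟨q, hq, hq0⟩ := hb
  refine ⟨q.primPart, q.isPrimitive_primPart, ?_⟩
  have h1 : q = Polynomial.C q.content * q.primPart := q.eq_C_content_mul_primPart
  rw [h1, map_mul, Polynomial.aeval_C] at hq0
  rcases mul_eq_zero.1 hq0 with h2 | h2
  · exfalso
    have h3 : (q.content : B) = 0 := by simpa using h2
    have h4 : q.content = 0 := by exact_mod_cast h3
    exact hq (Polynomial.content_eq_zero_iff.1 h4)
  · exact h2

theorem dim_le_of_algebraic {B : Type} [CommRing B] [IsDomain B] [CharZero B]
    (h : ∀ b : B, IsAlgebraic ℤ b) : ringKrullDim B ≤ 1 := by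
  have h0 : Ring.DimensionLEOne B := by
    refine ⟨fun {P} hP hPp => ?_⟩
    obtain ⟨x, hx, hx0⟩ := Submodule.exists_mem_ne_zero_of_ne_bot hP
    have h1 : P.comap (algebraMap ℤ B) ≠ ⊥ :=
      Ideal.comap_ne_bot_of_algebraic_mem hx0 hx (h x)
    have h1p : (P.comap (algebraMap ℤ B)).IsPrime := Ideal.comap_isPrime _ _
    have h2 : (P.comap (algebraMap ℤ B)).IsMaximal := IsPrime.to_maximal_ideal h1
    let F := ℤ ⧸ P.comap (algebraMap ℤ B)
    let _ : Field F := Ideal.Quotient.field _
    have h3 : Algebra.IsAlgebraic F (B ⧸ P) := by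
      refine ⟨fun y => ?_⟩
      obtain ⟨b, rfl⟩ := Ideal.Quotient.mk_surjective y
      obtain ⟨q, hq, hq0⟩ := exists_isPrimitive (h b)
      refine ⟨q.map (Ideal.Quotient.mk (P.comap (algebraMap ℤ B))), ?_, ?_⟩
      · intro h4
        have h5 : Polynomial.C (Submodule.IsPrincipal.generator
            (P.comap (algebraMap ℤ B))) ∣ q := by
          rw [Polynomial.C_dvd_iff_dvd_coeff]
          intro i
          have h6 : Ideal.Quotient.mk (P.comap (algebraMap ℤ B)) (q.coeff i) = 0 := by
            rw [← Polynomial.coeff_map, h4, Polynomial.coeff_zero]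
          rw [Ideal.Quotient.eq_zero_iff_mem] at h6
          exact (Submodule.IsPrincipal.mem_iff_generator_dvd _).1 h6
        have h7 := hq _ h5
        exact h2.ne_top ((Ideal.eq_top_iff_one _).2 (by
          rw [Submodule.IsPrincipal.mem_iff_generator_dvd]
          exact h7.dvd))
      · rw [Polynomial.aeval_def, Polynomial.eval₂_map]
        have h8 : Ideal.Quotient.mk P (Polynomial.aeval b q) = 0 := by rw [hq0, map_zero]
        rw [Polynomial.aeval_def, Polynomial.hom_eval₂] at h8
        exact h8
    have h4 : IsField (B ⧸ P) := isField_of_isIntegral_of_isField' (R := F) (Field.toIsField F)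
    exact Ideal.Quotient.maximal_of_isField _ h4
  exact Ring.krullDimLE_iff.1 inferInstance

theorem dim_le_of_kron {B K : Type} [CommRing B] [Field K] (hB : Algebra.FiniteType ℤ B)
    (φ : B →+* K) (hφ : Function.Injective φ) (hK : Kron 0 K) : ringKrullDim B ≤ 1 := by
  rcases hK with ⟨h0, h1⟩ | ⟨p, hp, hA, h1⟩
  · have h2 : IsDomain B := hφ.isDomain φ
    have h3 : CharZero B := by
      refine ⟨fun a b hab => ?_⟩
      have := congrArg φ hab
      simpa using this
    refine dim_le_of_algebraic fun b => ?_
    have h4 : Small 0 ℤ B := small_of_injective (φ.toIntAlgHom) hφ h1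
    by_contra h5
    have h6 : Transcendental ℤ b := h5
    have h7 : AlgebraicIndependent ℤ (fun _ : Fin 1 => b) := by
      rw [algebraicIndependent_unique_type_iff]
      exact h6
    exact h4 _ h7
  · have h2 : CharP K p := charP_of_injective_algebraMap (algebraMap (ZMod p) K).injective p
    have h3 : CharP B p := RingHom.charP φ hφ p
    let _ : Algebra (ZMod p) B := ZMod.algebra B p
    have h4 : Algebra.FiniteType (ZMod p) B :=
      Algebra.FiniteType.of_restrictScalars_finiteType ℤ (ZMod p) B
    let ψ : B →ₐ[ZMod p] K := { φ with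
      commutes' := fun c => by
        have h5 : φ.comp (algebraMap (ZMod p) B) = algebraMap (ZMod p) K :=
          Subsingleton.elim _ _
        exact congrArg (fun f => f c) h5 }
    exact ringKrullDim_le_of_small h4 (small_of_injective ψ hφ h1)

/-- `K(x, y)` embeds in `E(t)` -/
theorem exists_ruling {K : Type} [Field K] (hK : Kron 0 K) :
    ∃ (E : Type) (_ : Field E), IsAlgClosed E ∧ Kron 1 E ∧
      ∃ φ : FractionRing (MvPolynomial (Fin 2) K) →+* RatFunc E,
        ∀ c : K, ∃ e : E, φ (algebraMap K _ c) = RatFunc.C e := by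
  let E := AlgebraicClosure (RatFunc K)
  have h0 : Algebra.IsAlgebraic (RatFunc K) E := AlgebraicClosure.isAlgebraic (RatFunc K)
  refine ⟨E, inferInstance, inferInstance, kron_algebraic h0 (kron_ratFunc hK), ?_⟩
  let x : E := algebraMap (RatFunc K) E RatFunc.X
  have hx : Transcendental K x :=
    (transcendental_algebraMap_iff (FaithfulSMul.algebraMap_injective (RatFunc K) E)).mpr
      RatFunc.transcendental_X
  have h1 : AlgebraicIndependent K (fun _ : Fin 1 => x) := by
    rw [algebraicIndependent_unique_type_iff]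
    exact hx
  let f : MvPolynomial (Fin 1) K →+* E := (MvPolynomial.aeval fun _ : Fin 1 => x).toRingHom
  have hf : Function.Injective f := h1
  let g : MvPolynomial (Fin 2) K →+* RatFunc E :=
    ((algebraMap (Polynomial E) (RatFunc E)).comp (Polynomial.mapRingHom f)).comp
      (MvPolynomial.finSuccEquiv K 1).toRingEquiv.toRingHom
  have hg : Function.Injective g :=
    ((IsFractionRing.injective (Polynomial E) (RatFunc E)).comp
      (Polynomial.map_injective f hf)).comp (MvPolynomial.finSuccEquiv K 1).injective
  refine ⟨IsFractionRing.lift hg, fun c => ⟨f (MvPolynomial.C c), ?_⟩⟩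
  have h2 : algebraMap K (FractionRing (MvPolynomial (Fin 2) K)) c =
      algebraMap (MvPolynomial (Fin 2) K) _ (MvPolynomial.C c) := rfl
  rw [h2, IsFractionRing.lift_algebraMap]
  change algebraMap (Polynomial E) (RatFunc E) (Polynomial.map f
    (MvPolynomial.finSuccEquiv K 1 (MvPolynomial.C c))) = _
  have h3 : MvPolynomial.finSuccEquiv K 1 (MvPolynomial.C c) =
      Polynomial.C (MvPolynomial.C c) := by
    simp [MvPolynomial.finSuccEquiv_apply]
  rw [h3, Polynomial.map_C]
  rfl

end Pool.Agent.Helper9.RS
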