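import Pool.Agent.Helper9.RS.Defs
import Pool.Agent.Helper45.LS.Over

/-!
# Classes of arithmetic schemes with transfer for flat base changes; arithmetic curves as bases
-/

set_option autoImplicit false

namespace Pool.Agent.Helper9.RS

open AlgebraicGeometry CategoryTheory Limits Pool.Agent.Helper45.LG Pool.Agent.Helper45.LS

/-- `FlatClosed P`: besides the rules of `MorinClosed`, the class `P` contains the spectra of all
finitely generated rings of dimension at most `1`, and the arithmetic scheme `X` over `Spec A`
belongs to `P` if its base change to some nonzero finite free `A`-algebra `B` belongs to `P`. -/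
structure FlatClosed (P : Scheme.{0} → Prop) : Prop extends MorinClosed P where
  dimOne : ∀ (A : Type) [CommRing A], Algebra.FiniteType ℤ A → ringKrullDim A ≤ 1 →
    P (Spec (CommRingCat.of A))
  transfer : ∀ (A B : Type) [CommRing A] [CommRing B] [Nontrivial B] [Algebra A B]
    [Module.Free A B] [Module.Finite A B] (X : Scheme.{0}) (s : X ⟶ Spec (CommRingCat.of A)),
    Arithmetic X → P (ofib s (algebraMap A B)) → P X

/-- The Kronecker dimension of the field `K` is at most `d + 1`: its transcendence degree is at
most `d` over `ℚ`, or at most `d + 1` over the prime field with `p` elements. -/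
def Kron (d : ℕ) (K : Type) [Field K] : Prop :=
  (CharZero K ∧ Small d ℤ K) ∨ ∃ (p : ℕ) (_ : Fact p.Prime) (_ : Algebra (ZMod p) K),
    Small (d + 1) (ZMod p) K

/-- The map from the base ring to the local ring at a point. -/
noncomputable def baseToStalk {R : Type} [CommRing R] {X : Scheme.{0}}
    (s : X ⟶ Spec (CommRingCat.of R)) (x : X) : R →+* X.presheaf.stalk x :=
  (Spec.preimage (X.fromSpecStalk x ≫ s)).hom

/-- The map from the base ring to the residue field at a point. -/
noncomputable def baseToRes {R : Type} [CommRing R] {X : Scheme.{0}}
    (s : X ⟶ Spec (CommRingCat.of R)) (x : X) : R →+* X.residueField x :=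
  (X.residue x).hom.comp (baseToStalk s x)

/-- The `R`-scheme `X` is *ruled at* its generic point `x`: the residue field at `x` embeds in
`E(t)` for an algebraically closed field `E` of Kronecker dimension at most two, such that `R` is
mapped to `E`. -/
def RuledAt {R : Type} [CommRing R] {X : Scheme.{0}} (s : X ⟶ Spec (CommRingCat.of R))
    (x : X) : Prop :=
  ∃ (E : Type) (_ : Field E), IsAlgClosed E ∧ Kron 1 E ∧
    ∃ φ : X.residueField x →+* RatFunc E, ∀ r : R, ∃ e : E, φ (baseToRes s x r) = RatFunc.C e

end Pool.Agent.Helper9.RS
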