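import Mathlib

/-!
# Quadratic transforms: divisorial valuations with closed centre on a surface have ruled residue
-/

set_option autoImplicit false
set_option linter.unusedSectionVars false

namespace Pool.Agent.Helper9.RS

open IsLocalRing

/-- a simple transcendental extension -/
theorem equiv_of_transcendental {k F : Type} [Field k] [Field F] [Algebra k F] (t : F)
    (ht : Transcendental k t) (h : IntermediateField.adjoin k {t} = ⊤) :
    Nonempty (FractionRing (MvPolynomial (Fin 1) k) ≃ₐ[k] F) := by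
  let φ : MvPolynomial (Fin 1) k →ₐ[k] F := MvPolynomial.aeval fun _ => t
  have hφ : Function.Injective φ := by
    have h1 : AlgebraicIndependent k (fun _ : Fin 1 => t) := by
      rw [algebraicIndependent_unique_type_iff]
      exact ht
    exact h1
  let ψ : FractionRing (MvPolynomial (Fin 1) k) →ₐ[k] F := IsFractionRing.liftAlgHom hφ
  have hψ : ∀ p, ψ (algebraMap _ _ p) = φ p := fun p => IsFractionRing.lift_algebraMap hφ p
  have hs : ψ.fieldRange = ⊤ := by
    rw [eq_top_iff, ← h, IntermediateField.adjoin_le_iff, Set.singleton_subset_iff]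
    refine ⟨algebraMap (MvPolynomial (Fin 1) k) _ (MvPolynomial.X 0), ?_⟩
    have := hψ (MvPolynomial.X 0)
    rw [MvPolynomial.aeval_X] at this
    exact this
  refine ⟨AlgEquiv.ofBijective ψ ⟨ψ.injective, fun y => ?_⟩⟩
  have hy : y ∈ ψ.fieldRange := hs ▸ IntermediateField.mem_top
  exact hy

section

variable {k W : Type} [Field k] [IsAlgClosed k] [CommRing W] [IsDomain W]
  [IsDiscreteValuationRing W] [Algebra k W]

/-- an element of the residue field which is not transcendental is a constant -/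
theorem exists_const {w : W} (h : ¬ Transcendental k (residue W w)) :
    ∃ c : k, ¬ IsUnit (w - algebraMap k W c) := by
  have h1 : IsAlgebraic k (residue W w) := not_not.1 h
  obtain ⟨c, hc⟩ : ∃ c : k, algebraMap k (ResidueField W) c = residue W w := by
    have h2 := minpoly.irreducible h1.isIntegral
    exact minpoly.mem_range_of_degree_eq_one k _ (IsAlgClosed.degree_eq_one_of_irreducible k h2)
  refine ⟨c, fun hu => ?_⟩
  have h2 : residue W (w - algebraMap k W c) = 0 := by
    rw [map_sub, ← hc, sub_eq_zero]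
    rfl
  exact (residue_ne_zero_iff_isUnit _).2 hu h2

/-- the properties of the local rings in the sequence of quadratic transforms -/
structure Dom (R : Subalgebra k W) : Prop where
  frac : ∀ w : W, ∃ a ∈ R, ∃ b ∈ R, b ≠ 0 ∧ w * b = a
  unit : ∀ r ∈ R, IsUnit r → ∃ s ∈ R, r * s = 1
  res : ∀ r ∈ R, ∃ c : k, ¬ IsUnit (r - algebraMap k W c)
  gen : ∃ u ∈ R, ∃ v ∈ R, ¬ IsUnit u ∧ ¬ IsUnit v ∧
    ∀ r ∈ R, ¬ IsUnit r → ∃ a ∈ R, ∃ b ∈ R, r = a * u + b * v

section step

variable {R : Subalgebra k W} (u t : W)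

/-- the ring `R[t]` -/
def adj (R : Subalgebra k W) (t : W) : Subalgebra k W := Algebra.adjoin k ((R : Set W) ∪ {t})

theorem le_adj : R ≤ adj R t := fun _ hx => Algebra.subset_adjoin (Or.inl hx)

theorem mem_adj : t ∈ adj R t := Algebra.subset_adjoin (Or.inr rfl)

theorem aeval_mem_sub {A : Type} [CommRing A] [Algebra k A] (S : Subalgebra k A) {x : A}
    (hx : x ∈ S) (f : Polynomial k) : Polynomial.aeval x f ∈ S := by
  have h1 := Polynomial.aeval_subalgebra_coe f S ⟨x, hx⟩
  rw [← h1]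
  exact Subtype.property _

theorem aeval_mem_adj (f : Polynomial k) : Polynomial.aeval t f ∈ adj R t :=
  aeval_mem_sub _ (mem_adj t) f

theorem adj_dec (hres : ∀ r ∈ R, ∃ c : k, ¬ IsUnit (r - algebraMap k W c)) (hu : u ∈ R)
    (hgen : ∀ r ∈ R, ¬ IsUnit r → ∃ a ∈ R, ∃ b ∈ R, r = a * u + b * (u * t)) :
    ∀ s ∈ adj R t, ∃ f : Polynomial k, ∃ g ∈ adj R t, s = Polynomial.aeval t f + u * g := by
  intro s hs
  induction hs using Algebra.adjoin_induction with
  | mem x hx =>
    rcases hx with hx | hx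
    · obtain ⟨c, hc⟩ := hres x hx
      obtain ⟨a, ha, b, hb, hab⟩ := hgen _ (sub_mem hx (algebraMap_mem R c)) hc
      refine ⟨Polynomial.C c, a + b * t, add_mem (le_adj t ha) (mul_mem (le_adj t hb)
        (mem_adj t)), ?_⟩
      rw [Polynomial.aeval_C]
      linear_combination hab
    · rw [Set.mem_singleton_iff.1 hx]
      exact ⟨Polynomial.X, 0, zero_mem _, by simp⟩
  | algebraMap c => exact ⟨Polynomial.C c, 0, zero_mem _, by simp⟩
  | add x y _ _ hx hy =>
    obtain ⟨f, g, hg, hx⟩ := hx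
    obtain ⟨f', g', hg', hy⟩ := hy
    refine ⟨f + f', g + g', add_mem hg hg', ?_⟩
    rw [hx, hy, map_add]
    ring
  | mul x y _ _ hx hy =>
    obtain ⟨f, g, hg, hx⟩ := hx
    obtain ⟨f', g', hg', hy⟩ := hy
    refine ⟨f * f', Polynomial.aeval t f * g' + g * Polynomial.aeval t f' + u * g * g', ?_, ?_⟩
    · exact add_mem (add_mem (mul_mem (aeval_mem_adj t f) hg')
        (mul_mem hg (aeval_mem_adj t f'))) (mul_mem (mul_mem (le_adj t hu) hg) hg')
    · rw [hx, hy, map_mul]
      ring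

/-- the local ring of `R[t]` at the centre of `W` -/
def loc (R : Subalgebra k W) (t : W) : Subalgebra k W where
  carrier := {x | ∃ p ∈ adj R t, ∃ q ∈ adj R t, IsUnit q ∧ x * q = p}
  mul_mem' := by
    rintro x y ⟨p, hp, q, hq, hu, h⟩ ⟨p', hp', q', hq', hu', h'⟩
    exact ⟨p * p', mul_mem hp hp', q * q', mul_mem hq hq', hu.mul hu', by rw [← h, ← h']; ring⟩
  add_mem' := by
    rintro x y ⟨p, hp, q, hq, hu, h⟩ ⟨p', hp', q', hq', hu', h'⟩
    exact ⟨p * q' + p' * q, add_mem (mul_mem hp hq') (mul_mem hp' hq), q * q', mul_mem hq hq',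
      hu.mul hu', by rw [← h, ← h']; ring⟩
  algebraMap_mem' c := ⟨algebraMap k W c, algebraMap_mem _ c, 1, one_mem _, isUnit_one,
    mul_one _⟩

theorem adj_le_loc : adj R t ≤ loc R t := fun x hx => ⟨x, hx, 1, one_mem _, isUnit_one, mul_one _⟩

theorem div_mem_loc {p q q' : W} (hp : p ∈ adj R t) (hq : q ∈ adj R t) (hqq : q * q' = 1) :
    p * q' ∈ loc R t :=
  ⟨p, hp, q, hq, IsUnit.of_mul_eq_one _ hqq, by rw [mul_assoc, mul_comm q', hqq, mul_one]⟩

theorem not_isUnit_add {a b : W} (ha : ¬ IsUnit a) (hb : ¬ IsUnit b) : ¬ IsUnit (a + b) :=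
  fun h => (IsLocalRing.isUnit_or_isUnit_of_isUnit_add h).elim ha hb

theorem not_isUnit_mul {a : W} (b : W) (ha : ¬ IsUnit a) : ¬ IsUnit (a * b) :=
  fun h => ha (isUnit_of_mul_isUnit_left h)

theorem const_eq_zero {c : k} (h : ¬ IsUnit (algebraMap k W c)) : c = 0 := by
  by_contra hc
  exact h ((IsUnit.mk0 c hc).map (algebraMap k W))

/-- division with remainder by `t - c` -/
theorem aeval_sub (f : Polynomial k) (c : k) : ∃ h : Polynomial k,
    Polynomial.aeval t f = algebraMap k W (f.eval c) +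
      (t - algebraMap k W c) * Polynomial.aeval t h := by
  refine ⟨f /ₘ (Polynomial.X - Polynomial.C c), ?_⟩
  have h1 := Polynomial.modByMonic_add_div f (Polynomial.X - Polynomial.C c)
  rw [Polynomial.modByMonic_X_sub_C_eq_C_eval] at h1
  have h2 := congrArg (Polynomial.aeval t) h1
  simp only [map_add, map_mul, Polynomial.aeval_C, map_sub, Polynomial.aeval_X] at h2
  exact h2.symm

theorem dom_loc (hR : Dom R) (hu : u ∈ R) (hu' : ¬ IsUnit u)
    (hgen : ∀ r ∈ R, ¬ IsUnit r → ∃ a ∈ R, ∃ b ∈ R, r = a * u + b * (u * t)) (c : k)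
    (hc : ¬ IsUnit (t - algebraMap k W c)) : Dom (loc R t) where
  frac w := by
    obtain ⟨a, ha, b, hb, h0, h⟩ := hR.frac w
    exact ⟨a, adj_le_loc t (le_adj t ha), b, adj_le_loc t (le_adj t hb), h0, h⟩
  unit := by
    rintro r ⟨p, hp, q, hq, hqu, h⟩ hr
    obtain ⟨s, hs⟩ := hr.exists_right_inv
    refine ⟨s, ⟨q, hq, p, hp, ?_, ?_⟩, hs⟩
    · rw [← h]
      exact hr.mul hqu
    · rw [← h]
      linear_combination q * hs
  res := by
    rintro r ⟨p, hp, q, hq, hqu, h⟩
    obtain ⟨f, g, hg, hf⟩ := adj_dec u t hR.res hu hgen p hp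
    obtain ⟨f', g', hg', hf'⟩ := adj_dec u t hR.res hu hgen q hq
    obtain ⟨d, hd⟩ := aeval_sub t f c
    obtain ⟨d', hd'⟩ := aeval_sub t f' c
    have h1 : f'.eval c ≠ 0 := by
      intro h0
      rw [h0, map_zero, zero_add] at hd'
      rw [hf', hd'] at hqu
      exact not_isUnit_add (not_isUnit_mul _ hc) (not_isUnit_mul _ hu') hqu
    refine ⟨f.eval c / f'.eval c, fun hh => ?_⟩
    have h2 := hh.mul hqu
    have h3 : (r - algebraMap k W (f.eval c / f'.eval c)) * q =
        ((t - algebraMap k W c) * (Polynomial.aeval t d - algebraMap k W (f.eval c / f'.eval c) *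
          Polynomial.aeval t d')) + u * (g - algebraMap k W (f.eval c / f'.eval c) * g') := by
      have h4 : algebraMap k W (f.eval c / f'.eval c) * algebraMap k W (f'.eval c) =
          algebraMap k W (f.eval c) := by
        rw [← map_mul, div_mul_cancel₀ _ h1]
      rw [sub_mul, h, hf, hf', hd, hd']
      linear_combination -h4
    rw [h3] at h2
    exact not_isUnit_add (not_isUnit_mul _ hc) (not_isUnit_mul _ hu') h2
  gen := by
    refine ⟨u, adj_le_loc t (le_adj t hu), t - algebraMap k W c, adj_le_loc t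
      (sub_mem (mem_adj t) (algebraMap_mem _ c)), hu', hc, ?_⟩
    rintro r ⟨p, hp, q, hq, hqu, h⟩ hr
    obtain ⟨f, g, hg, hf⟩ := adj_dec u t hR.res hu hgen p hp
    obtain ⟨d, hd⟩ := aeval_sub t f c
    have h1 : f.eval c = 0 := by
      apply const_eq_zero (W := W)
      have h2 : algebraMap k W (f.eval c) = r * q + ((t - algebraMap k W c) *
          (- Polynomial.aeval t d) + u * (-g)) := by
        rw [h, hf, hd]
        ring
      rw [h2]
      exact not_isUnit_add (not_isUnit_mul _ hr) (not_isUnit_add (not_isUnit_mul _ hc)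
        (not_isUnit_mul _ hu'))
    rw [h1, map_zero, zero_add] at hd
    obtain ⟨q', hqq⟩ := hqu.exists_right_inv
    refine ⟨g * q', div_mem_loc t hg hq hqq, Polynomial.aeval t d * q',
      div_mem_loc t (aeval_mem_adj t d) hq hqq, ?_⟩
    have h2 : r = p * q' := by rw [← h, mul_assoc, hqq, mul_one]
    rw [h2, hf, hd]
    ring

/-- the centre of `W` on the blow-up is a curve -/
theorem residue_of_transcendental (hR : Dom R) (hu : u ∈ R) (hu' : ¬ IsUnit u) (hu0 : u ≠ 0)
    (hgen : ∀ r ∈ R, ¬ IsUnit r → ∃ a ∈ R, ∃ b ∈ R, r = a * u + b * (u * t))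
    (ht : Transcendental k (residue W t)) :
    Nonempty (FractionRing (MvPolynomial (Fin 1) k) ≃ₐ[k] ResidueField W) := by
  have hdec := adj_dec u t hR.res hu hgen
  have haev : ∀ f : Polynomial k, residue W (Polynomial.aeval t f) =
      Polynomial.aeval (residue W t) f := fun f => by
    have h1 := Polynomial.aeval_algebraMap_apply (ResidueField W) t f
    exact h1.symm
  have key : ∀ s : W, s ≠ 0 → s ∈ adj R t → ∃ n : ℕ, ∃ s' ∈ adj R t, s = u ^ n * s' ∧
      IsUnit s' := by
    intro s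
    refine (wellFounded_dvdNotUnit (α := W)).induction (C := fun s => s ≠ 0 → s ∈ adj R t →
      ∃ n : ℕ, ∃ s' ∈ adj R t, s = u ^ n * s' ∧ IsUnit s') s ?_
    intro s ih hs0 hs
    by_cases hsu : IsUnit s
    · exact ⟨0, s, hs, by simp, hsu⟩
    obtain ⟨f, g, hg, hf⟩ := hdec s hs
    have h1 : Polynomial.aeval (residue W t) f = 0 := by
      rw [← haev]
      have h2 : Polynomial.aeval t f = s + u * (-g) := by rw [hf]; ring
      rw [h2, residue_eq_zero_iff, mem_maximalIdeal]
      exact not_isUnit_add hsu (not_isUnit_mul _ hu')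
    have h2 : f = 0 := by
      by_contra h0
      exact ht ⟨f, h0, h1⟩
    rw [h2, map_zero, zero_add] at hf
    have hg0 : g ≠ 0 := by
      rintro rfl
      exact hs0 (by rw [hf, mul_zero])
    obtain ⟨n, s', hs', h3, h4⟩ := ih g ⟨hg0, u, hu', by rw [hf, mul_comm]⟩ hg0 hg
    exact ⟨n + 1, s', hs', by rw [hf, h3, pow_succ']; ring, h4⟩
  apply equiv_of_transcendental (residue W t) ht
  rw [eq_top_iff]
  rintro x -
  obtain ⟨w, rfl⟩ := residue_surjective x
  have hmem : ∀ s ∈ adj R t, residue W s ∈ IntermediateField.adjoin k {residue W t} := by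
    intro s hs
    obtain ⟨f, g, hg, hf⟩ := hdec s hs
    have h1 : residue W u = 0 := by
      rw [residue_eq_zero_iff, mem_maximalIdeal]
      exact hu'
    rw [hf, map_add, map_mul, h1, zero_mul, add_zero, haev]
    exact aeval_mem_sub (IntermediateField.adjoin k {residue W t}).toSubalgebra
      (IntermediateField.mem_adjoin_simple_self k _) f
  by_cases hw : IsUnit w
  · obtain ⟨a, ha, b, hb, hb0, hab⟩ := hR.frac w
    have ha0 : a ≠ 0 := by
      rw [← hab]
      exact mul_ne_zero hw.ne_zero hb0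
    obtain ⟨n, a', ha', h1, h2⟩ := key a ha0 (le_adj t ha)
    obtain ⟨m, b', hb', h3, h4⟩ := key b hb0 (le_adj t hb)
    have h5 : u ^ m * (w * b') = u ^ n * a' := by
      rw [← h1, ← hab, h3]
      ring
    have h6 : m = n := by
      have h7 : Associated (u ^ m) (u ^ n) := by
        refine ⟨(hw.mul h4).unit * h2.unit⁻¹, ?_⟩
        rw [Units.val_mul, ← mul_assoc, IsUnit.unit_spec, h5, mul_assoc,
          IsUnit.mul_val_inv, mul_one]
      exact le_antisymm ((pow_dvd_pow_iff hu0 hu').1 h7.dvd)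
        ((pow_dvd_pow_iff hu0 hu').1 h7.symm.dvd)
    subst h6
    have h7 : w * b' = a' := mul_left_cancel₀ (pow_ne_zero _ hu0) h5
    have h8 : residue W w * residue W b' = residue W a' := by rw [← map_mul, h7]
    have h9 : residue W b' ≠ 0 := (residue_ne_zero_iff_isUnit _).2 h4
    rw [eq_div_of_mul_eq h9 h8]
    exact div_mem (hmem _ ha') (hmem _ hb')
  · have h1 : residue W w = 0 := by
      rw [residue_eq_zero_iff, mem_maximalIdeal]
      exact hw
    rw [h1]
    exact zero_mem _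

end step

theorem main_aux (b : W) : b ≠ 0 → ∀ R : Subalgebra k W, Dom R → b ∈ R → ∀ a ∈ R, ∀ w : W,
    w * b = a → Transcendental k (residue W w) →
    Nonempty (FractionRing (MvPolynomial (Fin 1) k) ≃ₐ[k] ResidueField W) := by
  refine (wellFounded_dvdNotUnit (α := W)).induction (C := fun b => b ≠ 0 →
    ∀ R : Subalgebra k W, Dom R → b ∈ R → ∀ a ∈ R, ∀ w : W,
    w * b = a → Transcendental k (residue W w) →
    Nonempty (FractionRing (MvPolynomial (Fin 1) k) ≃ₐ[k] ResidueField W)) b ?_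
  intro b ih hb0 R hR hb a ha w hab hw
  by_cases hbu : IsUnit b
  · exfalso
    obtain ⟨s, hs, hbs⟩ := hR.unit b hb hbu
    have h1 : w = a * s := by rw [← hab, mul_assoc, hbs, mul_one]
    obtain ⟨c, hc⟩ := hR.res w (h1 ▸ mul_mem ha hs)
    have h2 : residue W w = algebraMap k (ResidueField W) c := by
      have h3 : residue W (w - algebraMap k W c) = 0 := by
        rw [residue_eq_zero_iff, mem_maximalIdeal]
        exact hc
      rw [map_sub, sub_eq_zero] at h3
      exact h3
    rw [h2] at hw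
    exact hw (isAlgebraic_algebraMap c)
  have hau : ¬ IsUnit a := by
    rw [← hab]
    exact fun h => hbu (isUnit_of_mul_isUnit_right h)
  obtain ⟨u₀, hu₀, v₀, hv₀, hu₀', hv₀', hgen₀⟩ := hR.gen
  obtain ⟨u, hu, hu', t, hgen⟩ : ∃ u ∈ R, ¬ IsUnit u ∧ ∃ t : W,
      ∀ r ∈ R, ¬ IsUnit r → ∃ a ∈ R, ∃ b ∈ R, r = a * u + b * (u * t) := by
    rcases ValuationRing.dvd_total u₀ v₀ with ⟨t, ht⟩ | ⟨t, ht⟩
    · refine ⟨u₀, hu₀, hu₀', t, fun r hr hr' => ?_⟩
      obtain ⟨a, ha, b, hb, h⟩ := hgen₀ r hr hr'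
      exact ⟨a, ha, b, hb, by rw [h, ht]⟩
    · refine ⟨v₀, hv₀, hv₀', t, fun r hr hr' => ?_⟩
      obtain ⟨a, ha, b, hb, h⟩ := hgen₀ r hr hr'
      exact ⟨b, hb, a, ha, by rw [h, ht]; ring⟩
  obtain ⟨a₁, ha₁, a₂, ha₂, ha'⟩ := hgen a ha hau
  obtain ⟨b₁, hb₁, b₂, hb₂, hb'⟩ := hgen b hb hbu
  have hu0 : u ≠ 0 := by
    rintro rfl
    exact hb0 (by rw [hb']; ring)
  by_cases ht : Transcendental k (residue W t)
  · exact residue_of_transcendental u t hR hu hu' hu0 hgen ht
  · obtain ⟨c, hc⟩ := exists_const ht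
    have hR' := dom_loc u t hR hu hu' hgen c hc
    have hbe : b = (b₁ + b₂ * t) * u := by rw [hb']; ring
    have hae : a = (a₁ + a₂ * t) * u := by rw [ha']; ring
    have hb₀ : b₁ + b₂ * t ≠ 0 := by
      intro h0
      exact hb0 (by rw [hbe, h0, zero_mul])
    refine ih (b₁ + b₂ * t) ⟨hb₀, u, hu', hbe⟩ hb₀ (loc R t) hR' ?_ (a₁ + a₂ * t) ?_ w ?_ hw
    · exact adj_le_loc t (add_mem (le_adj t hb₁) (mul_mem (le_adj t hb₂) (mem_adj t)))
    · exact adj_le_loc t (add_mem (le_adj t ha₁) (mul_mem (le_adj t ha₂) (mem_adj t)))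
    · apply mul_right_cancel₀ hu0
      rw [mul_assoc, ← hbe, ← hae, hab]

/-- **Lemma A.** -/
theorem lemmaA (R : Subalgebra k W)
    (hfrac : ∀ w : W, ∃ a ∈ R, ∃ b ∈ R, b ≠ 0 ∧ w * b = a)
    (hunit : ∀ r ∈ R, IsUnit r → ∃ s ∈ R, r * s = 1)
    (hres : ∀ r ∈ R, ∃ c : k, ¬ IsUnit (r - algebraMap k W c))
    (u v : W) (hu : u ∈ R) (hv : v ∈ R) (hu' : ¬ IsUnit u) (hv' : ¬ IsUnit v)
    (hgen : ∀ r ∈ R, ¬ IsUnit r → ∃ a ∈ R, ∃ b ∈ R, r = a * u + b * v)
    (htr : ∃ w : W, Transcendental k (residue W w)) :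
    Nonempty (FractionRing (MvPolynomial (Fin 1) k) ≃ₐ[k] ResidueField W) := by
  obtain ⟨w, hw⟩ := htr
  obtain ⟨a, ha, b, hb, hb0, hab⟩ := hfrac w
  exact main_aux b hb0 R ⟨hfrac, hunit, hres, u, hu, v, hv, hu', hv', hgen⟩ hb a ha w hab hw

end

end Pool.Agent.Helper9.RS
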