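import Pool.Agent.Helper9.RS.A

/-!
# Discrete valuation rings of the field of rational functions in two variables
-/

set_option autoImplicit false
set_option linter.unusedSectionVars false

namespace Pool.Agent.Helper9.RS

open IsLocalRing MvPolynomial

section

variable {k W : Type} [Field k] [IsAlgClosed k] [CommRing W] [IsDomain W]
  [IsDiscreteValuationRing W] [Algebra k W] (ψ : MvPolynomial (Fin 2) k →ₐ[k] W)

/-- the elements `ψ p / ψ q` with `ψ q` a unit -/
def quo : Subalgebra k W where
  carrier := {w | ∃ p q : MvPolynomial (Fin 2) k, IsUnit (ψ q) ∧ w * ψ q = ψ p}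
  mul_mem' := by
    rintro x y ⟨p, q, hu, h⟩ ⟨p', q', hu', h'⟩
    refine ⟨p * p', q * q', ?_, ?_⟩
    · rw [map_mul]
      exact hu.mul hu'
    · rw [map_mul, map_mul, ← h, ← h']
      ring
  add_mem' := by
    rintro x y ⟨p, q, hu, h⟩ ⟨p', q', hu', h'⟩
    refine ⟨p * q' + p' * q, q * q', ?_, ?_⟩
    · rw [map_mul]
      exact hu.mul hu'
    · rw [map_mul, map_add, map_mul, map_mul, ← h, ← h']
      ring
  algebraMap_mem' c := ⟨C c, 1, by rw [map_one]; exact isUnit_one, by
    rw [map_one, mul_one, ← MvPolynomial.algebraMap_eq, AlgHom.commutes]⟩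

theorem mem_quo (p : MvPolynomial (Fin 2) k) : ψ p ∈ quo ψ :=
  ⟨p, 1, by rw [map_one]; exact isUnit_one, by rw [map_one, mul_one]⟩

/-- division with remainder at a point of the plane -/
theorem exists_point_dec (a : Fin 2 → k) (p : MvPolynomial (Fin 2) k) :
    ∃ g h : MvPolynomial (Fin 2) k, p = C (eval a p) + g * (X 0 - C (a 0)) +
      h * (X 1 - C (a 1)) := by
  induction p using MvPolynomial.induction_on with
  | C c => exact ⟨0, 0, by simp⟩
  | add p q hp hq =>
    obtain ⟨g, h, hp⟩ := hp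
    obtain ⟨g', h', hq⟩ := hq
    refine ⟨g + g', h + h', ?_⟩
    rw [map_add, C_add]
    linear_combination hp + hq
  | mul_X p i hp =>
    obtain ⟨g, h, hp⟩ := hp
    rw [map_mul, C_mul, eval_X]
    fin_cases i
    · refine ⟨g * X 0 + C (eval a p), h * X 0, ?_⟩
      simp only [Fin.zero_eta]
      linear_combination (X 0) * hp
    · refine ⟨g * X 1, h * X 1 + C (eval a p), ?_⟩
      simp only [Fin.mk_one]
      linear_combination (X 1) * hp

/-- the centre is a closed point -/
theorem case_point (hfr : ∀ w : W, ∃ p q : MvPolynomial (Fin 2) k, ψ q ≠ 0 ∧ w * ψ q = ψ p)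
    (a : Fin 2 → k) (ha : ∀ i, ¬ IsUnit (ψ (X i) - algebraMap k W (a i)))
    (htr : ∃ w : W, Transcendental k (residue W w)) :
    Nonempty (FractionRing (MvPolynomial (Fin 1) k) ≃ₐ[k] ResidueField W) := by
  have hC : ∀ c : k, ψ (C c) = algebraMap k W c := fun c => by
    rw [← MvPolynomial.algebraMap_eq, AlgHom.commutes]
  have hdec : ∀ p, ∃ g h : MvPolynomial (Fin 2) k, ψ p = algebraMap k W (eval a p) +
      ψ g * (ψ (X 0) - algebraMap k W (a 0)) + ψ h * (ψ (X 1) - algebraMap k W (a 1)) := by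
    intro p
    obtain ⟨g, h, hp⟩ := exists_point_dec a p
    refine ⟨g, h, ?_⟩
    conv_lhs => rw [hp]
    simp only [map_add, map_mul, map_sub, hC]
  have hnon : ∀ g h : W, ¬ IsUnit (g * (ψ (X 0) - algebraMap k W (a 0)) +
      h * (ψ (X 1) - algebraMap k W (a 1))) := fun g h => by
    rw [mul_comm g, mul_comm h]
    exact not_isUnit_add (not_isUnit_mul _ (ha 0)) (not_isUnit_mul _ (ha 1))
  refine lemmaA (quo ψ) ?_ ?_ ?_ (ψ (X 0) - algebraMap k W (a 0))
    (ψ (X 1) - algebraMap k W (a 1)) (sub_mem (mem_quo ψ _) (algebraMap_mem _ _))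
    (sub_mem (mem_quo ψ _) (algebraMap_mem _ _)) (ha 0) (ha 1) ?_ htr
  · intro w
    obtain ⟨p, q, hq, h⟩ := hfr w
    exact ⟨ψ p, mem_quo ψ p, ψ q, mem_quo ψ q, hq, h⟩
  · rintro r ⟨p, q, hq, h⟩ hr
    obtain ⟨s, hs⟩ := hr.exists_right_inv
    refine ⟨s, ⟨q, p, ?_, ?_⟩, hs⟩
    · rw [← h]
      exact hr.mul hq
    · rw [← h]
      linear_combination ψ q * hs
  · rintro r ⟨p, q, hq, h⟩
    obtain ⟨g, g', hp⟩ := hdec p
    obtain ⟨l, l', hq'⟩ := hdec q
    have h1 : eval a q ≠ 0 := by
      intro h0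
      rw [hq', h0, map_zero, zero_add] at hq
      exact hnon _ _ hq
    refine ⟨eval a p / eval a q, fun hh => ?_⟩
    have h2 := hh.mul hq
    have h3 : (r - algebraMap k W (eval a p / eval a q)) * ψ q =
        (ψ g - algebraMap k W (eval a p / eval a q) * ψ l) * (ψ (X 0) - algebraMap k W (a 0)) +
        (ψ g' - algebraMap k W (eval a p / eval a q) * ψ l') *
          (ψ (X 1) - algebraMap k W (a 1)) := by
      have h4 : algebraMap k W (eval a p / eval a q) * algebraMap k W (eval a q) =
          algebraMap k W (eval a p) := by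
        rw [← map_mul, div_mul_cancel₀ _ h1]
      rw [sub_mul, h, hp, hq']
      linear_combination -h4
    rw [h3] at h2
    exact hnon _ _ h2
  · rintro r ⟨p, q, hq, h⟩ hr
    obtain ⟨g, g', hp⟩ := hdec p
    have h1 : eval a p = 0 := by
      apply const_eq_zero (W := W)
      have h2 : algebraMap k W (eval a p) = r * ψ q +
          ((- ψ g) * (ψ (X 0) - algebraMap k W (a 0)) +
            (- ψ g') * (ψ (X 1) - algebraMap k W (a 1))) := by
        rw [h, hp]
        ring
      rw [h2]
      exact not_isUnit_add (not_isUnit_mul _ hr) (hnon _ _)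
    rw [h1, map_zero, zero_add] at hp
    obtain ⟨q', hqq⟩ := hq.exists_right_inv
    have hm : ∀ s, ψ s * q' ∈ quo ψ := fun s => ⟨s, q, hq, by
      rw [mul_assoc, mul_comm q', hqq, mul_one]⟩
    refine ⟨ψ g * q', hm g, ψ g' * q', hm g', ?_⟩
    have h2 : r = ψ p * q' := by rw [← h, mul_assoc, hqq, mul_one]
    rw [h2, hp]
    ring

/-- the centre is a curve -/
theorem case_curve (hfr : ∀ w : W, ∃ p q : MvPolynomial (Fin 2) k, ψ q ≠ 0 ∧ w * ψ q = ψ p)
    (i : Fin 2) (hi : Transcendental k (residue W (ψ (X i)))) :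
    ∃ f : MvPolynomial (Fin 2) k, Prime f ∧ ¬ IsUnit (ψ f) ∧ ∀ q, ¬ f ∣ q → IsUnit (ψ q) := by
  set P : Ideal (MvPolynomial (Fin 2) k) := (maximalIdeal W).comap ψ with hP
  have hmem : ∀ q, q ∈ P ↔ ¬ IsUnit (ψ q) := fun q => by
    rw [hP, Ideal.mem_comap, mem_maximalIdeal, mem_nonunits_iff]
  have hPp : P.IsPrime := Ideal.IsPrime.comap _
  have hP0 : P ≠ ⊥ := by
    intro h0
    obtain ⟨ϖ, hϖ⟩ := IsDiscreteValuationRing.exists_irreducible W
    obtain ⟨p, q, hq, h⟩ := hfr ϖ
    have h1 : p ∈ P := by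
      rw [hmem, ← h]
      exact not_isUnit_mul _ hϖ.not_isUnit
    rw [h0, Ideal.mem_bot] at h1
    rw [h1, map_zero] at h
    rcases mul_eq_zero.1 h with h2 | h2
    · exact hϖ.ne_zero h2
    · exact hq h2
  obtain ⟨f, hfP, hf⟩ := Ideal.IsPrime.exists_mem_prime_of_ne_bot hPp hP0
  refine ⟨f, hf, (hmem f).1 hfP, fun q hq => ?_⟩
  by_contra hqu
  have hqP : q ∈ P := (hmem q).2 hqu
  have hfp : (Ideal.span {f}).IsPrime := (Ideal.span_singleton_prime hf.ne_zero).2 hf
  have h1 : Ideal.span {f} < P := by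
    refine lt_of_le_of_ne ((Ideal.span_singleton_le_iff_mem _).2 hfP) fun h => ?_
    rw [← h, Ideal.mem_span_singleton] at hqP
    exact hq hqP
  obtain ⟨M, hM, hPM⟩ := Ideal.exists_le_maximal P hPp.ne_top
  have h2 : P < M := by
    refine lt_of_le_of_ne hPM fun h => ?_
    rw [← h] at hM
    obtain ⟨x, hx⟩ := eq_vanishingIdeal_singleton_of_isMaximal k hM
    have h3 : X i - C (x i) ∈ P := by
      rw [hx, mem_vanishingIdeal_singleton_iff]
      simp
    rw [hmem, map_sub, ← MvPolynomial.algebraMap_eq, AlgHom.commutes] at h3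
    have h4 : residue W (ψ (X i)) = algebraMap k (ResidueField W) (x i) := by
      have h5 : residue W (ψ (X i) - algebraMap k W (x i)) = 0 := by
        rw [residue_eq_zero_iff, mem_maximalIdeal]
        exact h3
      rw [map_sub, sub_eq_zero] at h5
      exact h5
    rw [h4] at hi
    exact hi (isAlgebraic_algebraMap (x i))
  have hb : (⊥ : Ideal (MvPolynomial (Fin 2) k)) < Ideal.span {f} :=
    bot_lt_iff_ne_bot.2 fun h => hf.ne_zero (Ideal.span_singleton_eq_bot.1 h)
  have hbp : (⊥ : Ideal (MvPolynomial (Fin 2) k)).IsPrime := Ideal.isPrime_bot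
  have hMp := hM.isPrime
  have h3 := Ideal.height_add_one_le_of_lt_of_isPrime hb
  have h4 := Ideal.height_add_one_le_of_lt_of_isPrime h1
  have h5 := Ideal.height_add_one_le_of_lt_of_isPrime h2
  have h6 : ((M.height : ℕ∞) : WithBot ℕ∞) ≤ 2 := by
    have h7 := Ideal.height_le_ringKrullDim_of_isPrime (I := M)
    rw [MvPolynomial.ringKrullDim_of_isNoetherianRing, ringKrullDim_eq_zero_of_field] at h7
    simpa using h7
  have h7 : M.height ≤ 2 := WithBot.coe_le_coe.1 (h6.trans_eq rfl)
  have h8 : (3 : ℕ∞) ≤ M.height := by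
    have e1 : (1 : ℕ∞) ≤ (Ideal.span {f}).height := le_trans (by simp) h3
    have e2 : (1 : ℕ∞) + 1 ≤ P.height := (add_le_add_left e1 1).trans h4
    have e3 : (1 : ℕ∞) + 1 + 1 ≤ M.height := (add_le_add_left e2 1).trans h5
    exact le_trans (by norm_num) e3
  have h9 : (3 : ℕ∞) ≤ 2 := h8.trans h7
  exact absurd h9 (by norm_num)

/-- fractions with unit denominators -/
theorem frac_unit (hfr : ∀ w : W, ∃ p q : MvPolynomial (Fin 2) k, ψ q ≠ 0 ∧ w * ψ q = ψ p)
    (f : MvPolynomial (Fin 2) k) (hf : Prime f) (hfu : ¬ IsUnit (ψ f))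
    (h : ∀ q, ¬ f ∣ q → IsUnit (ψ q)) (w : W) :
    ∃ p q : MvPolynomial (Fin 2) k, IsUnit (ψ q) ∧ w * ψ q = ψ p := by
  obtain ⟨p, q, hq, hw⟩ := hfr w
  by_cases hfq : f ∣ q
  swap
  · exact ⟨p, q, h q hfq, hw⟩
  have hf0 : ψ f ≠ 0 := by
    intro h0
    obtain ⟨r, rfl⟩ := hfq
    exact hq (by rw [map_mul, h0, zero_mul])
  have hq0 : q ≠ 0 := by
    rintro rfl
    exact hq (map_zero ψ)
  by_cases hp0 : p = 0
  · rw [hp0, map_zero] at hw
    rcases mul_eq_zero.1 hw with h1 | h1
    · exact ⟨0, 1, by rw [map_one]; exact isUnit_one, by rw [h1, map_zero, zero_mul]⟩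
    · exact absurd h1 hq
  obtain ⟨n, q', hq', hqe⟩ := WfDvdMonoid.max_power_factor hq0 hf.irreducible
  obtain ⟨m, p', hp', hpe⟩ := WfDvdMonoid.max_power_factor hp0 hf.irreducible
  rw [hqe, hpe, map_mul, map_mul, map_pow, map_pow] at hw
  rcases le_or_gt n m with hnm | hnm
  · refine ⟨f ^ (m - n) * p', q', h q' hq', ?_⟩
    apply mul_left_cancel₀ (pow_ne_zero n hf0)
    have h2 : ψ f ^ m = ψ f ^ n * ψ f ^ (m - n) := by
      rw [← pow_add, Nat.add_sub_cancel' hnm]
    rw [h2] at hw
    rw [map_mul, map_pow]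
    linear_combination hw
  · exfalso
    have h1 : w * (ψ f ^ (n - m) * ψ q') = ψ p' := by
      apply mul_left_cancel₀ (pow_ne_zero m hf0)
      rw [← hw]
      have h2 : ψ f ^ n = ψ f ^ m * ψ f ^ (n - m) := by
        rw [← pow_add, Nat.add_sub_cancel' hnm.le]
      rw [h2]
      ring
    have h2 := h p' hp'
    rw [← h1] at h2
    have h3 := isUnit_of_mul_isUnit_left (isUnit_of_mul_isUnit_right h2)
    exact hfu ((isUnit_pow_iff (Nat.sub_ne_zero_of_lt hnm)).1 h3)

/-- the residue field is generated by one coordinate if the other one vanishes at the centre -/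
theorem case_axis (h : ∀ w : W, ∃ p q : MvPolynomial (Fin 2) k, IsUnit (ψ q) ∧ w * ψ q = ψ p)
    (i j : Fin 2) (hij : ∀ l, l = i ∨ l = j) (hi : ¬ IsUnit (ψ (X i)))
    (hj : Transcendental k (residue W (ψ (X j)))) :
    Nonempty (FractionRing (MvPolynomial (Fin 1) k) ≃ₐ[k] ResidueField W) := by
  apply equiv_of_transcendental _ hj
  rw [eq_top_iff]
  rintro x -
  obtain ⟨w, rfl⟩ := residue_surjective x
  have hmem : ∀ p, residue W (ψ p) ∈ IntermediateField.adjoin k {residue W (ψ (X j))} := by
    intro p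
    induction p using MvPolynomial.induction_on with
    | C c =>
      rw [← MvPolynomial.algebraMap_eq, AlgHom.commutes]
      exact algebraMap_mem (IntermediateField.adjoin k {residue W (ψ (X j))}) c
    | add p q hp hq =>
      rw [map_add, map_add]
      exact add_mem hp hq
    | mul_X p l hp =>
      rw [map_mul, map_mul]
      apply mul_mem hp
      rcases hij l with rfl | rfl
      · have h1 : residue W (ψ (X l)) = 0 := by
          rw [residue_eq_zero_iff, mem_maximalIdeal]
          exact hi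
        rw [h1]
        exact zero_mem _
      · exact IntermediateField.mem_adjoin_simple_self k _
  obtain ⟨p, q, hq, hw⟩ := h w
  have h8 : residue W w * residue W (ψ q) = residue W (ψ p) := by rw [← map_mul, hw]
  have h9 : residue W (ψ q) ≠ 0 := (residue_ne_zero_iff_isUnit _).2 hq
  rw [eq_div_of_mul_eq h9 h8]
  exact div_mem (hmem p) (hmem q)

variable {L : Type} [Field L] [Algebra k L] [Algebra W L] [IsScalarTower k W L]
  [IsFractionRing W L]

/-- **Lemma B.** A discrete valuation ring of `k(x, y)` with transcendental residue field over `k`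
has residue field `k(t)` or is a local ring of `k[x, y]`. -/
theorem lemmaB (e : FractionRing (MvPolynomial (Fin 2) k) ≃ₐ[k] L)
    (htr : ∃ w : W, Transcendental k (residue W w)) :
    Nonempty (FractionRing (MvPolynomial (Fin 1) k) ≃ₐ[k] ResidueField W) ∨
    ∃ ψ : MvPolynomial (Fin 2) k →ₐ[k] W,
      (∀ p, algebraMap W L (ψ p) = e (algebraMap _ _ p)) ∧
      ∀ w : W, ∃ p q : MvPolynomial (Fin 2) k, IsUnit (ψ q) ∧ w * ψ q = ψ p := by
  -- the coordinates and their inverses
  let z : Fin 2 → L := fun i => e (algebraMap (MvPolynomial (Fin 2) k) _ (X i))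
  have hz : ∀ i, ∃ a : W, algebraMap W L a = z i ∨ (¬ IsUnit a ∧ algebraMap W L a = (z i)⁻¹) := by
    intro i
    rcases ValuationRing.isInteger_or_isInteger W (z i) with ⟨a, ha⟩ | ⟨a, ha⟩
    · exact ⟨a, Or.inl ha⟩
    · by_cases hu : IsUnit a
      · obtain ⟨b, hb⟩ := hu.exists_right_inv
        refine ⟨b, Or.inl ?_⟩
        have h1 : algebraMap W L a * algebraMap W L b = 1 := by rw [← map_mul, hb, map_one]
        rw [ha] at h1
        exact (eq_of_inv_mul_eq_one h1).symm
      · exact ⟨a, Or.inr ⟨hu, ha⟩⟩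
  choose a ha using hz
  let ψ : MvPolynomial (Fin 2) k →ₐ[k] W := aeval a
  have hψX : ∀ i, ψ (X i) = a i := fun i => aeval_X _ i
  have htop : IntermediateField.adjoin k (Set.range fun i => algebraMap W L (a i)) = ⊤ := by
    rw [eq_top_iff]
    rintro x -
    obtain ⟨y, rfl⟩ := e.surjective x
    obtain ⟨p, q, hq, rfl⟩ := IsFractionRing.div_surjective (A := MvPolynomial (Fin 2) k) y
    have hm : ∀ p : MvPolynomial (Fin 2) k, e (algebraMap _ _ p) ∈
        IntermediateField.adjoin k (Set.range fun i => algebraMap W L (a i)) := by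
      intro p
      induction p using MvPolynomial.induction_on with
      | C c =>
        rw [← MvPolynomial.algebraMap_eq, ← IsScalarTower.algebraMap_apply, AlgEquiv.commutes]
        exact algebraMap_mem (IntermediateField.adjoin k
          (Set.range fun i => algebraMap W L (a i))) c
      | add p q hp hq =>
        rw [map_add, map_add]
        exact add_mem hp hq
      | mul_X p l hp =>
        rw [map_mul, map_mul]
        apply mul_mem hp
        have h1 : algebraMap W L (a l) ∈ IntermediateField.adjoin k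
            (Set.range fun i => algebraMap W L (a i)) :=
          IntermediateField.subset_adjoin _ _ ⟨l, rfl⟩
        rcases ha l with h2 | ⟨-, h2⟩
        · rw [h2] at h1
          exact h1
        · rw [h2] at h1
          exact inv_mem_iff.1 h1
    rw [map_div₀]
    exact div_mem (hm p) (hm q)
  have haev : ∀ p, algebraMap W L (ψ p) = aeval (fun i => algebraMap W L (a i)) p := fun p => by
    have h1 := MvPolynomial.aeval_algebraMap_apply L a p
    exact h1.symm
  have hfr : ∀ w : W, ∃ p q : MvPolynomial (Fin 2) k, ψ q ≠ 0 ∧ w * ψ q = ψ p := by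
    intro w
    have h1 : algebraMap W L w ∈ IntermediateField.adjoin k
        (Set.range fun i => algebraMap W L (a i)) := htop ▸ IntermediateField.mem_top
    obtain ⟨r, s, h2⟩ := (IntermediateField.mem_adjoin_range_iff k _ _).1 h1
    rw [← haev, ← haev] at h2
    by_cases hs : ψ s = 0
    · rw [hs, map_zero, div_zero, ← map_zero (algebraMap W L)] at h2
      refine ⟨0, 1, ?_, ?_⟩
      · rw [map_one]
        exact one_ne_zero
      · rw [IsFractionRing.injective W L h2, zero_mul, map_zero]
    · refine ⟨r, s, hs, ?_⟩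
      apply IsFractionRing.injective W L
      have h3 : algebraMap W L (ψ s) ≠ 0 := by
        intro h0
        exact hs (IsFractionRing.injective W L (h0.trans (map_zero _).symm))
      rw [map_mul, h2, div_mul_cancel₀ _ h3]
  by_cases hal : ∀ i, ¬ Transcendental k (residue W (ψ (X i)))
  · left
    choose c hc using fun i => exists_const (hal i)
    exact case_point ψ hfr c hc htr
  push Not at hal
  obtain ⟨j, hj⟩ := hal
  obtain ⟨f, hf, hfu, hun⟩ := case_curve ψ hfr j hj
  have hw := frac_unit ψ hfr f hf hfu hun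
  by_cases hall : ∀ i, algebraMap W L (a i) = z i
  · right
    refine ⟨ψ, fun p => ?_, hw⟩
    have h1 : (IsScalarTower.toAlgHom k W L).comp ψ =
        (e : FractionRing (MvPolynomial (Fin 2) k) →ₐ[k] L).comp
          (IsScalarTower.toAlgHom k (MvPolynomial (Fin 2) k) _) := by
      apply MvPolynomial.algHom_ext
      intro i
      change algebraMap W L (ψ (X i)) = e (algebraMap _ _ (X i))
      rw [hψX]
      exact hall i
    exact DFunLike.congr_fun h1 p
  · left
    push Not at hall
    obtain ⟨i, hi⟩ := hall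
    have hiu : ¬ IsUnit (ψ (X i)) := by
      rw [hψX]
      rcases ha i with h1 | ⟨h1, -⟩
      · exact absurd h1 hi
      · exact h1
    refine case_axis ψ hw i j ?_ hiu hj
    have hne : i ≠ j := by
      rintro rfl
      have h1 : residue W (ψ (X i)) = algebraMap k (ResidueField W) 0 := by
        rw [map_zero, residue_eq_zero_iff, mem_maximalIdeal]
        exact hiu
      rw [h1] at hj
      exact hj (isAlgebraic_algebraMap 0)
    omega

end

end Pool.Agent.Helper9.RS
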