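import Pool.Agent.Helper9.RS.M
import Pool.Agent.Helper9.RS.B

/-!
# The non-rational curves of a surface are curves of the plane
-/

set_option autoImplicit false

namespace Pool.Agent.Helper9.RS

open AlgebraicGeometry CategoryTheory Limits Pool.Agent.Helper45.LG Pool.Agent.Helper45.LS
open IsLocalRing

/-- The local ring at the centre of a local domain, if the map is surjective. -/
theorem iso_of_surjective {T : Scheme.{0}} [IsIntegral T] {W L : CommRingCat.{0}} [IsLocalRing W]
    (g : Spec W ⟶ T) (j : W ⟶ L) (e : T.functionField ≅ L)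
    (hcomp : Spec.map j ≫ g = Spec.map e.hom ≫ T.fromSpecStalk (genericPoint T))
    (hsurj : Function.Surjective (Scheme.stalkClosedPointTo g).hom) :
    ∃ (t : T) (ψ : T.presheaf.stalk t ≅ W),
      T.presheaf.stalkSpecializes ((genericPoint_spec T).specializes trivial) ≫ e.hom =
        ψ.hom ≫ j := by
  have hc : T.presheaf.stalkSpecializes ((genericPoint_spec T).specializes trivial) ≫ e.hom =
      Scheme.stalkClosedPointTo g ≫ j := by
    apply Spec.map_injective
    rw [← cancel_mono (T.fromSpecStalk _), Spec.map_comp, Spec.map_comp, Category.assoc,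
      Category.assoc, Scheme.Spec_stalkClosedPointTo_fromSpecStalk,
      Scheme.SpecMap_stalkSpecializes_fromSpecStalk, hcomp]
  have hinj : Function.Injective (Scheme.stalkClosedPointTo g).hom := by
    have h1 : Function.Injective (algebraMap (T.presheaf.stalk (g (closedPoint W)))
        T.functionField) := IsFractionRing.injective _ _
    have h2 : Function.Injective e.hom := e.commRingCatIsoToRingEquiv.injective
    have h3 := h2.comp h1
    have h4 : ⇑e.hom ∘ ⇑(algebraMap (T.presheaf.stalk (g (closedPoint W))) T.functionField) =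
        ⇑j ∘ ⇑(Scheme.stalkClosedPointTo g).hom := by
      funext x
      exact congrArg (fun φ => φ.hom x) hc
    rw [h4] at h3
    exact Function.Injective.of_comp h3
  refine ⟨g (closedPoint W), (RingEquiv.ofBijective (Scheme.stalkClosedPointTo g).hom
    ⟨hinj, hsurj⟩).toCommRingCatIso, hc⟩

theorem toStalk_specializes_apply {K : Type} [Field K] {X : Scheme.{0}}
    (f : X ⟶ Spec (CommRingCat.of K)) {s t : X} (h : s ⤳ t) (c : K) :
    X.presheaf.stalkSpecializes h (toStalk f t c) = toStalk f s c := by
  have h1 : CommRingCat.ofHom (toStalk f t) ≫ X.presheaf.stalkSpecializes h =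
      CommRingCat.ofHom (toStalk f s) := by
    apply Spec.map_injective
    rw [Spec.map_comp, specMap_toStalk, specMap_toStalk, ← Category.assoc,
      Scheme.SpecMap_stalkSpecializes_fromSpecStalk]
  exact congrArg (fun φ => φ.hom c) h1

/-- the canonical map from a ring to its local rings -/
noncomputable def ringToStalk (R : CommRingCat.{0}) (s : Spec R) : R ⟶ (Spec R).presheaf.stalk s :=
  (Scheme.ΓSpecIso R).inv ≫ (Spec R).presheaf.germ ⊤ s trivial

theorem specMap_ringToStalk (R : CommRingCat.{0}) (s : Spec R) :
    Spec.map (ringToStalk R s) = (Spec R).fromSpecStalk s := (Spec.fromSpecStalk_eq R s).symm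

theorem toStalk_ringToStalk {K : Type} [Field K] {R : CommRingCat.{0}} (φ : CommRingCat.of K ⟶ R)
    (s : Spec R) : CommRingCat.ofHom (toStalk (Spec.map φ) s) = φ ≫ ringToStalk R s := by
  apply Spec.map_injective
  rw [specMap_toStalk, Spec.map_comp, specMap_ringToStalk]

set_option backward.isDefEq.respectTransparency.types false in
theorem exists_equiv_functionField_spec (R : CommRingCat.{0}) [IsDomain R] :
    ∃ e : FractionRing R ≃+* (Spec R).functionField, ∀ p : R,
      e (algebraMap R _ p) = (ringToStalk R (genericPoint (Spec R))).hom p := by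
  let e : FractionRing R ≃ₐ[R] (Spec R).functionField :=
    IsLocalization.algEquiv (nonZeroDivisors R) _ _
  refine ⟨e.toRingEquiv, fun p => ?_⟩
  refine (e.commutes p).trans ?_
  have h1 : StructureSheaf.toStalk R (genericPoint (Spec R)) =
      ringToStalk R (genericPoint (Spec R)) := by
    apply Spec.map_injective
    exact (Spec.fromSpecStalk_eq' _ _).symm.trans (specMap_ringToStalk R _).symm
  exact congrArg (fun φ => φ.hom p) h1

/-- the function field of the plane -/
theorem exists_equiv_functionField {K : Type} [Field K] (n : ℕ) [IsIntegral (Aff n K)] :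
    ∃ e : FractionRing (MvPolynomial (Fin n) K) ≃+* (Aff n K).functionField,
      (∀ p : MvPolynomial (Fin n) K, e (algebraMap _ _ p) =
        (ringToStalk (CommRingCat.of (MvPolynomial (Fin n) K)) (genericPoint (Aff n K))).hom p) ∧
      ∀ c : K, e (algebraMap K _ c) = toStalk (affTo n K) (genericPoint (Aff n K)) c := by
  let R : CommRingCat.{0} := CommRingCat.of (MvPolynomial (Fin n) K)
  have hR : IsDomain R := inferInstanceAs (IsDomain (MvPolynomial (Fin n) K))
  obtain ⟨e, he⟩ := exists_equiv_functionField_spec R
  refine ⟨e, he, fun c => ?_⟩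
  have h2 := congrArg (fun φ => φ.hom c) (toStalk_ringToStalk
    (CommRingCat.ofHom (algebraMap K (MvPolynomial (Fin n) K))) (genericPoint (Spec R)))
  exact (he (algebraMap K (MvPolynomial (Fin n) K) c)).trans h2.symm

theorem exists_point_plane {K : Type} [Field K] [IsAlgClosed K] {S : Scheme.{0}} [IsIntegral S]
    (f : S ⟶ Spec (CommRingCat.of K)) (hf : IsFT f)
    (hreg : ∀ s : S, IsRegularLocalRing (S.presheaf.stalk s))
    [IsIntegral (Aff 2 K)] (e : (Aff 2 K).functionField ≅ S.functionField)
    (he : ∀ c : K, e.hom (toStalk (affTo 2 K) (genericPoint (Aff 2 K)) c) =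
      toStalk f (genericPoint S) c)
    (s : S) (h0 : ¬ PureAt 0 f s) (h1 : ¬ PureAt 1 f s) (hs : s ≠ genericPoint S) :
    ∃ (t : Aff 2 K) (ψ : (Aff 2 K).presheaf.stalk t ≅ S.presheaf.stalk s),
      (Aff 2 K).presheaf.stalkSpecializes ((genericPoint_spec (Aff 2 K)).specializes trivial) ≫
        e.hom = ψ.hom ≫
          S.presheaf.stalkSpecializes ((genericPoint_spec S).specializes trivial) := by
  obtain ⟨e0, he0, he0'⟩ := exists_equiv_functionField (K := K) 2
  let eL : FractionRing (MvPolynomial (Fin 2) K) ≃+* S.functionField :=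
    e0.trans e.commRingCatIsoToRingEquiv
  have heL : ∀ c : K, eL (algebraMap K _ c) = toStalk f (genericPoint S) c := fun c => by
    rw [← he c, ← he0' c]
    rfl
  have h2 : PureAt 2 f (genericPoint S) := (pureAt_genericPoint_iff f 2).2 ⟨eL, heL⟩
  have hdvr := isDVR_stalk f hf h2 s h0 hs (hreg s)
  let _ : Algebra K (S.presheaf.stalk s) := (toStalk f s).toAlgebra
  let _ : Algebra K S.functionField := (toStalk f (genericPoint S)).toAlgebra
  have hst : IsScalarTower K (S.presheaf.stalk s) S.functionField := by
    apply IsScalarTower.of_algebraMap_eq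
    intro c
    exact (toStalk_specializes_apply f ((genericPoint_spec S).specializes trivial) c).symm
  have htr : ∃ w : S.presheaf.stalk s, Transcendental K (residue (S.presheaf.stalk s) w) := by
    obtain ⟨w, hw⟩ := exists_transcendental f s h0
    obtain ⟨w, rfl⟩ := residue_surjective w
    refine ⟨w, ?_⟩
    rintro ⟨q, hq, hq'⟩
    exact hw q hq hq'
  rcases lemmaB (k := K) (W := S.presheaf.stalk s) (L := S.functionField)
    (AlgEquiv.ofRingEquiv (f := eL) heL) htr with ⟨⟨E⟩⟩ | ⟨ψ, hψ, hψ'⟩
  · exact absurd ⟨E.toRingEquiv, fun c => E.commutes c⟩ h1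
  · let R : CommRingCat.{0} := CommRingCat.of (MvPolynomial (Fin 2) K)
    let g : Spec (S.presheaf.stalk s) ⟶ Aff 2 K :=
      Spec.map (CommRingCat.ofHom (ψ : MvPolynomial (Fin 2) K →+* S.presheaf.stalk s))
    refine iso_of_surjective g _ e ?_ ?_
    · have h3 : CommRingCat.ofHom (ψ : MvPolynomial (Fin 2) K →+* S.presheaf.stalk s) ≫
          S.presheaf.stalkSpecializes ((genericPoint_spec S).specializes trivial) =
          ringToStalk R (genericPoint (Aff 2 K)) ≫ e.hom := by
        apply CommRingCat.hom_ext
        apply RingHom.ext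
        intro (p : MvPolynomial (Fin 2) K)
        have h4 := hψ p
        refine Eq.trans h4 ?_
        exact congrArg e.hom.hom (he0 p)
      have h5 : Spec.map e.hom ≫ (Aff 2 K).fromSpecStalk (genericPoint (Aff 2 K)) =
          Spec.map (ringToStalk R (genericPoint (Aff 2 K)) ≫ e.hom) := by
        have h6 := specMap_ringToStalk R (genericPoint (Aff 2 K))
        exact (congrArg (fun φ => Spec.map e.hom ≫ φ) h6).symm.trans (Spec.map_comp _ _).symm
      refine Eq.trans ?_ h5.symm
      rw [← h3]
      exact (Spec.map_comp _ _).symm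
    · intro w
      obtain ⟨p, q, hq, hw⟩ := hψ' w
      have h3 : ∀ p : MvPolynomial (Fin 2) K, ∃ a : (Aff 2 K).presheaf.stalk
          (g (closedPoint (S.presheaf.stalk s))),
          (Scheme.stalkClosedPointTo g).hom a = ψ p := fun p => by
        have h4 := congrArg (fun φ => φ.hom ((Scheme.ΓSpecIso R).inv.hom p))
          (Scheme.germ_stalkClosedPointTo_Spec (R := R)
            (CommRingCat.ofHom (ψ : MvPolynomial (Fin 2) K →+* S.presheaf.stalk s)))
        refine ⟨_, h4.trans ?_⟩
        change ψ ((Scheme.ΓSpecIso R).hom.hom ((Scheme.ΓSpecIso R).inv.hom p)) = ψ p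
        rw [← ConcreteCategory.comp_apply]
        simp
      obtain ⟨a, ha⟩ := h3 p
      obtain ⟨b, hb⟩ := h3 q
      have hbu : IsUnit b := by
        apply isUnit_of_map_unit (Scheme.stalkClosedPointTo g).hom
        rw [hb]
        exact hq
      obtain ⟨b', hb'⟩ := hbu.exists_right_inv
      refine ⟨a * b', ?_⟩
      have h5 : (Scheme.stalkClosedPointTo g).hom b * (Scheme.stalkClosedPointTo g).hom b' = 1 := by
        rw [← map_mul, hb', map_one]
      rw [map_mul, ha, ← hw, mul_assoc, ← hb, h5, mul_one]

end Pool.Agent.Helper9.RS
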