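import Pool.Agent.Helper9.RS.CS0
import Pool.Agent.Helper9.RS.B

/-!
# Block C, second half: the non-rational curves of the plane live on the surface

`W = O_(T,t)`, `T` the plane, is a discrete valuation ring of the function field. By the valuative criterion
the map of the generic point extends to `Spec W ⟶ S`; `s` is the image of the closed point. `O_(S,s)` is
dominated by `W`. If `s` is closed then `lemmaA` shows that `t` is a rational curve; otherwise `O_(S,s)` is a
discrete valuation ring dominated by `W`, hence equal to it.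
-/

set_option autoImplicit false

namespace Pool.Agent.Helper9.RS

open AlgebraicGeometry CategoryTheory Limits IsLocalRing
open Pool.Agent.Helper45.LG Pool.Agent.Helper45.LS

/-- A valuation ring is maximal for the domination of local rings. -/
theorem surjective_of_dominated {O W L : Type} [CommRing O] [IsDomain O] [ValuationRing O]
    [CommRing W] [Field L] [Algebra O L] [IsFractionRing O L] (j : W →+* L)
    (hj : Function.Injective j) (φ : O →+* W) [IsLocalHom φ]
    (hφ : ∀ x, j (φ x) = algebraMap O L x) : Function.Surjective φ := by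
  intro w
  obtain ⟨a, b, hb, hab⟩ := IsFractionRing.div_surjective (A := O) (j w)
  have hb0 : algebraMap O L b ≠ 0 := by
    rw [Ne, FaithfulSMul.algebraMap_eq_zero_iff]
    exact nonZeroDivisors.ne_zero hb
  rcases ValuationRing.cond a b with ⟨c, hc | hc⟩
  · have ha0 : algebraMap O L a ≠ 0 := by
      intro h0
      apply hb0
      rw [← hc, map_mul, h0, zero_mul]
    have h1 : φ c * w = 1 := by
      apply hj
      rw [map_mul, map_one, hφ, ← hab, ← hc, map_mul]
      have hc0 : algebraMap O L c ≠ 0 := by
        intro h0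
        apply hb0
        rw [← hc, map_mul, h0, mul_zero]
      field_simp
    have h2 : IsUnit (φ c) := IsUnit.of_mul_eq_one _ h1
    have h3 : IsUnit c := isUnit_of_map_unit φ c h2
    obtain ⟨d, hd⟩ := isUnit_iff_exists_inv.1 h3
    refine ⟨d, ?_⟩
    have h4 : φ d * φ c = 1 := by
      rw [← map_mul, mul_comm, hd, map_one]
    calc φ d = φ d * (φ c * w) := by rw [h1, mul_one]
      _ = w := by rw [← mul_assoc, h4, one_mul]
  · refine ⟨c, hj ?_⟩
    rw [hφ, ← hab, ← hc, map_mul, mul_div_cancel_left₀ _ hb0]

section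

variable {K : Type} [Field K]

/-- The structure map of a local ring and specialisation. -/
theorem toStalk_specializes {X : Scheme.{0}} (f : X ⟶ Spec (CommRingCat.of K)) {x y : X}
    (h : x ⤳ y) (c : K) : (X.presheaf.stalkSpecializes h).hom (toStalk f y c) = toStalk f x c := by
  have h1 : CommRingCat.ofHom (toStalk f y) ≫ X.presheaf.stalkSpecializes h =
      CommRingCat.ofHom (toStalk f x) := by
    apply Spec.map_injective
    rw [Spec.map_comp, specMap_toStalk, specMap_toStalk,
      Scheme.SpecMap_stalkSpecializes_fromSpecStalk_assoc]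
  exact DFunLike.congr_fun (CommRingCat.hom_ext_iff.1 h1) c

/-- A local homomorphism from a local ring with residue field `K`. -/
theorem exists_const_stalk {X : Scheme.{0}} (f : X ⟶ Spec (CommRingCat.of K)) {s : X}
    (h : PureAt 0 f s) (x : X.presheaf.stalk s) :
    ∃ c : K, ¬ IsUnit (x - toStalk f s c) := by
  obtain ⟨e, he⟩ := h
  have hsurj : ∀ z : FractionRing (MvPolynomial (Fin 0) K),
      ∃ c : K, algebraMap K (FractionRing (MvPolynomial (Fin 0) K)) c = z := by
    intro z
    obtain ⟨a, b, hb, rfl⟩ := IsFractionRing.div_surjective (A := MvPolynomial (Fin 0) K) z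
    have ha := MvPolynomial.eq_C_of_isEmpty a
    have hb' := MvPolynomial.eq_C_of_isEmpty b
    refine ⟨MvPolynomial.coeff 0 a / MvPolynomial.coeff 0 b, ?_⟩
    rw [map_div₀]
    conv_rhs => rw [ha, hb']
    rw [IsScalarTower.algebraMap_apply K (MvPolynomial (Fin 0) K)
      (FractionRing (MvPolynomial (Fin 0) K)), IsScalarTower.algebraMap_apply K
      (MvPolynomial (Fin 0) K) (FractionRing (MvPolynomial (Fin 0) K))]
    rfl
  obtain ⟨c, hc⟩ := hsurj (e.symm ((X.residue s).hom x))
  refine ⟨c, ?_⟩
  have h1 : (X.residue s).hom x = (X.residue s).hom (toStalk f s c) := by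
    have h2 := he c
    rw [hc, RingEquiv.apply_symm_apply] at h2
    exact h2
  have h3 : (X.residue s).hom (x - toStalk f s c) = 0 := by
    rw [map_sub, h1, sub_self]
  have h4 : x - toStalk f s c ∈ maximalIdeal (X.presheaf.stalk s) :=
    (residue_eq_zero_iff _).1 h3
  exact h4

end

/-- The centre of a valuation ring of the function field on a proper integral scheme. -/
theorem exists_centre {K : Type} [Field K] {S : Scheme.{0}} [IsIntegral S]
    (f : S ⟶ Spec (CommRingCat.of K)) (hprop : IsProper f) {W L : Type} [CommRing W] [IsDomain W]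
    [ValuationRing W] [Field L] [Algebra W L] [IsFractionRing W L] (θ : S.functionField →+* L)
    (κ : K →+* W) (hκ : ∀ c, algebraMap W L (κ c) = θ (toStalk f (genericPoint S) c)) :
    ∃ (s : S) (φ : S.presheaf.stalk s →+* W), IsLocalHom φ ∧
      (∀ x, algebraMap W L (φ x) = θ ((S.presheaf.stalkSpecializes
        ((genericPoint_spec S).specializes trivial)).hom x)) ∧
      ∀ c, φ (toStalk f s c) = κ c := by
  have hsq : (Spec.map (CommRingCat.ofHom θ) ≫ S.fromSpecStalk (genericPoint S)) ≫ f =
      Spec.map (CommRingCat.ofHom (algebraMap W L)) ≫ Spec.map (CommRingCat.ofHom κ) := by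
    rw [Category.assoc, ← specMap_toStalk, ← Spec.map_comp, ← Spec.map_comp]
    congr 1
    ext c
    exact (hκ c).symm
  have hprop' : ValuativeCriterion.Existence f := by
    have h2 : @IsProper S _ f := hprop
    rw [IsProper.eq_valuativeCriterion] at h2
    exact h2.1.1.1.existence
  obtain ⟨l, hl1, hl2⟩ : ∃ l : Spec (CommRingCat.of W) ⟶ S,
      Spec.map (CommRingCat.ofHom (algebraMap W L)) ≫ l =
        Spec.map (CommRingCat.ofHom θ) ≫ S.fromSpecStalk (genericPoint S) ∧
      l ≫ f = Spec.map (CommRingCat.ofHom κ) := by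
    obtain ⟨⟨l, hl1, hl2⟩⟩ := hprop' ⟨W, L, _, _, ⟨hsq⟩⟩
    exact ⟨l, hl1, hl2⟩
  refine ⟨l (closedPoint W), (Scheme.stalkClosedPointTo l).hom, inferInstance, ?_, ?_⟩
  · intro x
    have h3 : Scheme.stalkClosedPointTo l ≫ CommRingCat.ofHom (algebraMap W L) =
        S.presheaf.stalkSpecializes ((genericPoint_spec S).specializes trivial) ≫
          CommRingCat.ofHom θ := by
      apply Spec.map_injective
      rw [← cancel_mono (S.fromSpecStalk (l (closedPoint W)))]
      have h4 : Spec.map (Scheme.stalkClosedPointTo l ≫ CommRingCat.ofHom (algebraMap W L)) ≫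
          S.fromSpecStalk (l (closedPoint W)) = Spec.map (CommRingCat.ofHom (algebraMap W L)) ≫ l := by
        rw [Spec.map_comp, Category.assoc, Scheme.Spec_stalkClosedPointTo_fromSpecStalk]
      have h5 : Spec.map (S.presheaf.stalkSpecializes
          ((genericPoint_spec S).specializes (trivial : l (closedPoint W) ∈ (⊤ : Set S)))) ≫
          S.fromSpecStalk (l (closedPoint W)) = S.fromSpecStalk (genericPoint S) :=
        Scheme.SpecMap_stalkSpecializes_fromSpecStalk _
      refine h4.trans (hl1.trans ?_)
      rw [← h5, ← Category.assoc]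
      congr 1
      exact (Spec.map_comp _ _).symm
    exact DFunLike.congr_fun (CommRingCat.hom_ext_iff.1 h3) x
  · intro c
    have h3 : CommRingCat.ofHom (toStalk f (l (closedPoint W))) ≫ Scheme.stalkClosedPointTo l =
        CommRingCat.ofHom κ := by
      apply Spec.map_injective
      rw [Spec.map_comp, specMap_toStalk, ← Category.assoc,
        Scheme.Spec_stalkClosedPointTo_fromSpecStalk]
      exact hl2
    exact DFunLike.congr_fun (CommRingCat.hom_ext_iff.1 h3) c

section C

variable {K : Type} [Field K] [IsAlgClosed K] {S : Scheme.{0}} [IsIntegral S]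
  (f : S ⟶ Spec (CommRingCat.of K)) (hf : IsFT f) (hprop : IsProper f)
  (hreg : ∀ s : S, IsRegularLocalRing (S.presheaf.stalk s))
  [IsIntegral (Aff 2 K)] (e : (Aff 2 K).functionField ≅ S.functionField)
  (he : ∀ c : K, e.hom (toStalk (affTo 2 K) (genericPoint (Aff 2 K)) c) =
    toStalk f (genericPoint S) c)

omit [IsAlgClosed K] in
include he in
/-- The surface is rational. -/
theorem pureAt_two_of_iso : PureAt 2 f (genericPoint S) := by
  have h1 := (pureAt_genericPoint_iff (affTo 2 K) 2).1 (pureAt_two_plane (K := K))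
  obtain ⟨u, hu⟩ := h1
  refine (pureAt_genericPoint_iff f 2).2 ⟨u.trans e.commRingCatIsoToRingEquiv, fun c => ?_⟩
  have h2 : (u.trans e.commRingCatIsoToRingEquiv) (algebraMap K (FractionRing
      (MvPolynomial (Fin 2) K)) c) = e.hom (u (algebraMap K (FractionRing
      (MvPolynomial (Fin 2) K)) c)) := rfl
  rw [h2, hu, he]

include hf he hreg hprop in
theorem exists_point_surface (t : Aff 2 K) (h0 : ¬ PureAt 0 (affTo 2 K) t)
    (h1 : ¬ PureAt 1 (affTo 2 K) t) (ht : t ≠ genericPoint (Aff 2 K)) :
    ∃ (s : S) (ψ : (Aff 2 K).presheaf.stalk t ≅ S.presheaf.stalk s),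
      (Aff 2 K).presheaf.stalkSpecializes ((genericPoint_spec (Aff 2 K)).specializes trivial) ≫
        e.hom = ψ.hom ≫
          S.presheaf.stalkSpecializes ((genericPoint_spec S).specializes trivial) := by
  have h2 := pureAt_two_of_iso f e he
  have hW := isDVR_plane t h0 ht
  have hj : Function.Injective (algebraMap ((Aff 2 K).presheaf.stalk t) (Aff 2 K).functionField) :=
    IsFractionRing.injective _ _
  have hei : ∀ x : S.functionField, e.hom (e.inv.hom x) = x := fun x => by
    exact DFunLike.congr_fun (CommRingCat.hom_ext_iff.1 e.inv_hom_id) x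
  have hie : ∀ x : (Aff 2 K).functionField, e.inv.hom (e.hom x) = x := fun x => by
    exact DFunLike.congr_fun (CommRingCat.hom_ext_iff.1 e.hom_inv_id) x
  obtain ⟨s, φ, hloc, hφ, hκ⟩ := exists_centre f hprop (W := (Aff 2 K).presheaf.stalk t)
    (L := (Aff 2 K).functionField) e.inv.hom (toStalk (affTo 2 K) t) (fun c => by
      rw [← he c, hie]
      exact toStalk_specializes (affTo 2 K) _ c)
  have hφ' : ∀ x, e.hom (algebraMap ((Aff 2 K).presheaf.stalk t) (Aff 2 K).functionField (φ x)) =
      algebraMap (S.presheaf.stalk s) S.functionField x := fun x => by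
    rw [hφ, hei]
    rfl
  have hinj : Function.Injective φ := fun x y hxy => by
    refine IsFractionRing.injective (S.presheaf.stalk s) S.functionField ?_
    rw [← hφ', ← hφ', hxy]
  by_cases h3 : PureAt 0 f s
  · exfalso
    apply h1
    let _ : Algebra K ((Aff 2 K).presheaf.stalk t) := (toStalk (affTo 2 K) t).toAlgebra
    let R : Subalgebra K ((Aff 2 K).presheaf.stalk t) :=
      { φ.range with algebraMap_mem' := fun c => ⟨toStalk f s c, hκ c⟩ }
    have hmem : ∀ x, φ x ∈ R := fun x => ⟨x, rfl⟩
    obtain ⟨u, v, huv⟩ := two_generators f hf h2 s (hreg s)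
    have hunit : ∀ x, IsUnit (φ x) → IsUnit x := fun x hx => isUnit_of_map_unit φ x hx
    have hu : ¬ IsUnit u := by
      have h4 : u ∈ maximalIdeal (S.presheaf.stalk s) := by
        rw [huv]
        exact Ideal.subset_span (by simp)
      exact h4
    have hv : ¬ IsUnit v := by
      have h4 : v ∈ maximalIdeal (S.presheaf.stalk s) := by
        rw [huv]
        exact Ideal.subset_span (by simp)
      exact h4
    obtain ⟨w, hw⟩ := exists_transcendental (affTo 2 K) t h0
    obtain ⟨w', rfl⟩ := (Aff 2 K).residue_surjective t w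
    have h5 := lemmaA (k := K) (W := (Aff 2 K).presheaf.stalk t) R ?_ ?_ ?_ (φ u) (φ v) (hmem u)
      (hmem v) (fun h => hu (hunit _ h)) (fun h => hv (hunit _ h)) ?_ ⟨w', ?_⟩
    · obtain ⟨E⟩ := h5
      exact ⟨E.toRingEquiv, fun c => E.commutes c⟩
    · intro w
      obtain ⟨a, b, hb, hab⟩ := IsFractionRing.div_surjective (A := S.presheaf.stalk s)
        (e.hom (algebraMap ((Aff 2 K).presheaf.stalk t) (Aff 2 K).functionField w))
      have hb0 : b ≠ 0 := nonZeroDivisors.ne_zero hb
      have hb1 : algebraMap (S.presheaf.stalk s) S.functionField b ≠ 0 := by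
        rw [Ne, FaithfulSMul.algebraMap_eq_zero_iff]
        exact hb0
      refine ⟨φ a, hmem a, φ b, hmem b, fun h => hb0 (hinj (by rw [h, map_zero])), ?_⟩
      apply hj
      have h6 : e.hom (algebraMap ((Aff 2 K).presheaf.stalk t) (Aff 2 K).functionField
          (w * φ b)) = e.hom (algebraMap ((Aff 2 K).presheaf.stalk t) (Aff 2 K).functionField
          (φ a)) := by
        rw [map_mul, map_mul, hφ', hφ', ← hab, div_mul_cancel₀ _ hb1]
      have h7 := congrArg e.inv.hom h6
      rwa [hie, hie] at h7
    · rintro _ ⟨x, rfl⟩ hr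
      obtain ⟨y, hy⟩ := isUnit_iff_exists_inv.1 (hunit x hr)
      exact ⟨φ y, hmem y, by rw [← map_mul, hy, map_one]⟩
    · rintro _ ⟨x, rfl⟩
      obtain ⟨c, hc⟩ := exists_const_stalk f h3 x
      refine ⟨c, fun h => hc (hunit _ ?_)⟩
      rw [map_sub, hκ]
      exact h
    · rintro _ ⟨x, rfl⟩ hx
      have h6 : x ∈ maximalIdeal (S.presheaf.stalk s) := fun h => hx (h.map φ)
      rw [huv] at h6
      obtain ⟨a, b, hab⟩ := Ideal.mem_span_pair.1 h6
      exact ⟨φ a, hmem a, φ b, hmem b, by rw [← map_mul, ← map_mul, ← map_add, hab]⟩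
    · rintro ⟨q, hq, hq'⟩
      exact hw q hq hq'
  · have hs : s ≠ genericPoint S := by
      rintro rfl
      have h4 : Function.Surjective (algebraMap ((Aff 2 K).presheaf.stalk t)
          (Aff 2 K).functionField) := by
        intro y
        refine ⟨φ (e.hom y), ?_⟩
        rw [hφ]
        have h5 : (S.presheaf.stalkSpecializes ((genericPoint_spec S).specializes
            (trivial : genericPoint S ∈ (⊤ : Set S)))).hom (e.hom y) = e.hom y := by
          rw [TopCat.Presheaf.stalkSpecializes_refl]
          rfl
        rw [h5, hie]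
      have h5 : IsField ((Aff 2 K).presheaf.stalk t) :=
        (MulEquiv.isField (Field.toIsField (Aff 2 K).functionField)
          (RingEquiv.ofBijective _ ⟨hj, h4⟩).toMulEquiv)
      exact IsDiscreteValuationRing.not_isField _ h5
    have hO := isDVR_stalk f hf h2 s h3 hs (hreg s)
    have hsurj : Function.Surjective φ := by
      refine surjective_of_dominated (L := S.functionField)
        (e.hom.hom.comp (algebraMap ((Aff 2 K).presheaf.stalk t) (Aff 2 K).functionField)) ?_ φ hφ'
      intro x y hxy
      apply hj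
      rw [← hie (algebraMap _ _ x), ← hie (algebraMap _ _ y)]
      exact congrArg e.inv.hom hxy
    let E : S.presheaf.stalk s ≃+* (Aff 2 K).presheaf.stalk t := RingEquiv.ofBijective φ ⟨hinj, hsurj⟩
    refine ⟨s, E.symm.toCommRingCatIso, ?_⟩
    ext w
    obtain ⟨x, rfl⟩ := hsurj w
    refine (hφ' x).trans ?_
    have h6 : E.symm (φ x) = x := E.symm_apply_apply x
    exact congrArg (algebraMap (S.presheaf.stalk s) S.functionField) h6.symm

end C

end Pool.Agent.Helper9.RS
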