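import Pool.Agent.Helper9.RS.Defs
import Pool.Agent.Helper45.LS.SprAff

/-!
# Block H: affine space
-/

set_option autoImplicit false

namespace Pool.Agent.Helper9.RS

open AlgebraicGeometry CategoryTheory Limits Pool.Agent.Helper45.LG Pool.Agent.Helper45.LS

attribute [local instance] MvPolynomial.algebraMvPolynomial

theorem isFT_affTo (n : ℕ) (K : Type) [Field K] : IsFT (affTo n K) :=
  isFT_spec inferInstance

theorem hasModel_affTo (n : ℕ) (K : Type) [Field K] : HasModel (affTo n K) := by
  let B : Subring K := (Int.castRingHom K).range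
  have hB : Algebra.FiniteType ℤ B := by
    refine Algebra.FiniteType.of_surjective (Algebra.ofId ℤ B) ?_
    rintro ⟨_, m, rfl⟩
    exact ⟨m, by ext; simp⟩
  have hY : IsFT (Spec.map (CommRingCat.ofHom (algebraMap B (MvPolynomial (Fin n) B)))) :=
    isFT_spec inferInstance
  refine ⟨B, _, _, Spec.map (CommRingCat.ofHom (algebraMap (MvPolynomial (Fin n) B)
    (MvPolynomial (Fin n) K))), hB, hY.lft, hY.qc, hY.sep, ?_⟩
  exact (isPullback_SpecMap_of_isPushout _ _ _ _
    (CommRingCat.isPushout_of_isPushout B K (MvPolynomial (Fin n) B) (MvPolynomial (Fin n) K))).flip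

theorem geo_spec_of_equiv {P : Scheme.{0} → Prop} {K R S : Type} [Field K] [CommRing R]
    [CommRing S] [Algebra K R] [Algebra K S] (e : R ≃ₐ[K] S)
    (h : GeometricScheme P K (Spec.map (CommRingCat.ofHom (algebraMap K R)))) :
    GeometricScheme P K (Spec.map (CommRingCat.ofHom (algebraMap K S))) := by
  have h1 := GeometricScheme.iso _ (Scheme.Spec.mapIso e.toRingEquiv.toCommRingCatIso.op) h
  have h2 : (Scheme.Spec.mapIso e.toRingEquiv.toCommRingCatIso.op).hom ≫
      Spec.map (CommRingCat.ofHom (algebraMap K R)) =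
      Spec.map (CommRingCat.ofHom (algebraMap K S)) := by
    change Spec.map (CommRingCat.ofHom (e : R →+* S)) ≫ _ = _
    rw [← Spec.map_comp, ← CommRingCat.ofHom_comp]
    congr 2
    exact e.toAlgHom.comp_algebraMap
  rw [h2] at h1
  exact h1

theorem geo_affTo (P : Scheme.{0} → Prop) (n : ℕ) (K : Type) [Field K] :
    GeometricScheme P K (affTo n K) := by
  unfold affTo
  induction n with
  | zero =>
    refine geo_spec_of_equiv (MvPolynomial.isEmptyAlgEquiv K (Fin 0)).symm ?_
    have h2 : Spec.map (CommRingCat.ofHom (algebraMap K K)) = 𝟙 (Spec (CommRingCat.of K)) := by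
      have h3 : CommRingCat.ofHom (algebraMap K K) = 𝟙 (CommRingCat.of K) := rfl
      rw [h3, Spec.map_id]
    rw [h2]
    exact GeometricScheme.base
  | succ n ih =>
    exact geo_spec_of_equiv (MvPolynomial.finSuccEquiv K n).symm
      (GeometricScheme.line _ inferInstance ih)

set_option backward.isDefEq.respectTransparency.types false in
/-- Points of affine schemes over a field. -/
theorem toRes_spec {K : Type} [Field K] {R : CommRingCat.{0}} (φ : CommRingCat.of K ⟶ R)
    (s : Spec R) : CommRingCat.ofHom (toRes (Spec.map φ) s) =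
      φ ≫ CommRingCat.ofHom (algebraMap R s.asIdeal.ResidueField) ≫
        (Scheme.Spec.residueFieldIso R s).inv := by
  have h1 : CommRingCat.ofHom (toStalk (Spec.map φ) s) =
      φ ≫ (Scheme.ΓSpecIso R).inv ≫ (Spec R).presheaf.germ ⊤ s trivial := by
    rw [← Spec.map_inj, Spec.map_comp, ← Spec.fromSpecStalk_eq]
    unfold toStalk
    rw [CommRingCat.ofHom_hom, Spec.map_preimage]
  unfold toRes
  rw [CommRingCat.ofHom_comp, h1, CommRingCat.ofHom_hom,
    Scheme.Spec.algebraMap_residueFieldIso_inv, Category.assoc, Category.assoc]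

theorem asIdeal_eq_bot_of_isGeneric {R : CommRingCat.{0}} [IsDomain R]
    (s : Spec R) (hs : IsGeneric s) : s.asIdeal = ⊥ := by
  have h1 : genericPoint (Spec R) ⤳ s := (genericPoint_spec (Spec R)).specializes trivial
  have h2 := hs _ h1
  rw [← h2, genericPoint_eq_bot_of_affine]
  rfl

set_option backward.isDefEq.respectTransparency.types false in
theorem pureAt_affTo (n : ℕ) (K : Type) [Field K] (s : Aff n K) (hs : IsGeneric s) :
    PureAt n (affTo n K) s := by
  let R : CommRingCat.{0} := CommRingCat.of (MvPolynomial (Fin n) K)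
  have hR : IsDomain R := inferInstanceAs (IsDomain (MvPolynomial (Fin n) K))
  let s' : Spec R := s
  have h0 : s'.asIdeal = ⊥ := asIdeal_eq_bot_of_isGeneric s' hs
  let e1 : R ≃+* (R ⧸ s'.asIdeal) :=
    (RingEquiv.quotientBot R).symm.trans (Ideal.quotEquivOfEq h0.symm)
  let e2 : FractionRing R ≃+* s'.asIdeal.ResidueField :=
    IsFractionRing.ringEquivOfRingEquiv (A := R) (K := FractionRing R) (B := R ⧸ s'.asIdeal)
      (L := s'.asIdeal.ResidueField) e1
  refine ⟨e2.trans (Scheme.Spec.residueFieldIso R s').commRingCatIsoToRingEquiv.symm,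
    fun c => ?_⟩
  have h3 := congrArg (fun φ => φ.hom c)
    (toRes_spec (CommRingCat.ofHom (algebraMap K (MvPolynomial (Fin n) K))) s')
  refine Eq.trans ?_ h3.symm
  have h4 : e2 (algebraMap R (FractionRing R) (algebraMap K (MvPolynomial (Fin n) K) c)) =
      algebraMap R s'.asIdeal.ResidueField (algebraMap K (MvPolynomial (Fin n) K) c) := by
    have h5 := IsFractionRing.ringEquivOfRingEquiv_algebraMap (A := R) (K := FractionRing R)
      (B := R ⧸ s'.asIdeal) (L := s'.asIdeal.ResidueField) e1
      (algebraMap K (MvPolynomial (Fin n) K) c)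
    refine h5.trans ?_
    rfl
  exact congrArg (Scheme.Spec.residueFieldIso R s').inv.hom h4

end Pool.Agent.Helper9.RS
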