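import Pool.Agent.Helper9.RS.M
import Pool.Agent.Helper9.RS.H

/-!
# The local rings of the plane at the generic points of curves are discrete valuation rings
-/

set_option autoImplicit false

namespace Pool.Agent.Helper9.RS

open AlgebraicGeometry CategoryTheory Limits IsLocalRing
open Pool.Agent.Helper45.LG Pool.Agent.Helper45.LS

/-- The localisation of a normal Noetherian domain at a prime of height one. -/
theorem isDVR_of_localization {R W : Type} [CommRing R] [IsDomain R] [IsNoetherianRing R]
    [IsIntegrallyClosed R] [CommRing W] [IsDomain W] [Algebra R W] (p : Ideal R) [p.IsPrime]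
    [IsLocalization.AtPrime W p] (hp : p ≠ ⊥) (hdim : ringKrullDim W ≤ 1) :
    IsDiscreteValuationRing W := by
  have h1 : IsLocalRing W := IsLocalization.AtPrime.isLocalRing W p
  have h2 : IsNoetherianRing W := IsLocalization.isNoetherianRing p.primeCompl W inferInstance
  have h3 : IsIntegrallyClosed W :=
    isIntegrallyClosed_of_isLocalization (R := R) W p.primeCompl
      p.primeCompl_le_nonZeroDivisors
  have h4 : ¬ IsField W := by
    rw [IsLocalRing.isField_iff_maximalIdeal_eq]
    intro h5
    apply hp
    rw [← IsLocalization.AtPrime.under_maximalIdeal W p, h5]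
    exact Ideal.comap_bot_of_injective (algebraMap R W)
      (IsLocalization.injective W p.primeCompl_le_nonZeroDivisors)
  have h5 : Ring.KrullDimLE 1 W := Ring.krullDimLE_iff.2 (by exact_mod_cast hdim)
  rw [Ring.krullDimLE_one_iff_of_noZeroDivisors] at h5
  have h6 : IsIntegrallyClosed W ∧ ∃! P : Ideal W, P ≠ ⊥ ∧ P.IsPrime := by
    refine ⟨h3, maximalIdeal W, ⟨?_, ?_⟩, ?_⟩
    · intro h6
      exact h4 (IsLocalRing.isField_iff_maximalIdeal_eq.2 h6)
    · infer_instance
    · rintro P ⟨hP1, hP2⟩
      exact eq_maximalIdeal (h5 P hP1 hP2)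
  exact ((IsDiscreteValuationRing.TFAE W h4).out 3 0).1 h6

theorem pureAt_two_plane {K : Type} [Field K] [IsIntegral (Aff 2 K)] :
    PureAt 2 (affTo 2 K) (genericPoint (Aff 2 K)) := by
  refine pureAt_affTo 2 K _ fun y hy => ?_
  exact (hy.antisymm ((genericPoint_spec (Aff 2 K)).specializes trivial)).eq

theorem isDVR_plane {K : Type} [Field K] [IsAlgClosed K] [IsIntegral (Aff 2 K)] (t : Aff 2 K)
    (h0 : ¬ PureAt 0 (affTo 2 K) t) (ht : t ≠ genericPoint (Aff 2 K)) :
    IsDiscreteValuationRing ((Aff 2 K).presheaf.stalk t) := by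
  have hdim := dim_stalk_le_one (affTo 2 K) (isFT_affTo 2 K) pureAt_two_plane t h0
  let R : CommRingCat.{0} := CommRingCat.of (MvPolynomial (Fin 2) K)
  have hR : IsDomain R := inferInstanceAs (IsDomain (MvPolynomial (Fin 2) K))
  have hR1 : IsNoetherianRing R := inferInstanceAs (IsNoetherianRing (MvPolynomial (Fin 2) K))
  have hR2 : IsIntegrallyClosed R :=
    inferInstanceAs (IsIntegrallyClosed (MvPolynomial (Fin 2) K))
  let t' : Spec R := t
  have ht' : t'.asIdeal ≠ ⊥ := by
    intro h
    apply ht
    let g' : Spec R := genericPoint (Aff 2 K)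
    have h3 : t' ⤳ g' := by
      refine (PrimeSpectrum.le_iff_specializes t' g').1 fun x hx => ?_
      rw [h] at hx
      have h8 : x = 0 := hx
      rw [h8]
      exact Ideal.zero_mem _
    have h4 : t ⤳ genericPoint (Aff 2 K) := h3
    exact (h4.antisymm ((genericPoint_spec (Aff 2 K)).specializes trivial)).eq
  have h5 : IsDomain ((Aff 2 K).presheaf.stalk t) := inferInstance
  have h8 : t'.asIdeal.IsPrime := PrimeSpectrum.isPrime t'
  let W : Type := (Spec R).presheaf.stalk t'
  let _ : Algebra R W := StructureSheaf.stalkAlgebra R t'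
  have h6 : IsLocalization.AtPrime W t'.asIdeal := StructureSheaf.IsLocalization.to_stalk R t'
  have h7 : IsDomain W := h5
  exact isDVR_of_localization (R := R) (W := W) t'.asIdeal ht' hdim

end Pool.Agent.Helper9.RS
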