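import Pool.Agent.Helper9.RS.Defs

/-!
# Block D: birational isomorphisms
-/

set_option autoImplicit false

namespace Pool.Agent.Helper9.RS

open AlgebraicGeometry CategoryTheory Limits Pool.Agent.Helper45.LG Pool.Agent.Helper45.LS

theorem scheme_isSeparated {K : Type} [Field K] {X : Scheme.{0}}
    {f : X ⟶ Spec (CommRingCat.of K)} (hf : IsFT f) : X.IsSeparated := by
  have h1 := hf.sep
  have h2 : IsSeparated (f ≫ terminal.from (Spec (CommRingCat.of K))) := inferInstance
  exact ⟨by rw [← terminal.comp_from f]; exact h2⟩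

theorem stalk_closedPoint {S : Scheme.{0}} (U : S.Opens) (x : S) (h : x ∈ U) :
    U.fromSpecStalkOfMem x h (IsLocalRing.closedPoint _) = ⟨x, h⟩ := by
  refine Subtype.ext ?_
  have h2 := Scheme.Opens.fromSpecStalkOfMem_ι U x h
  have h3 := congrArg (fun φ => φ (IsLocalRing.closedPoint (S.presheaf.stalk x))) h2
  refine h3.trans ?_
  exact Scheme.fromSpecStalk_closedPoint

theorem homOfLE_mk {S : Scheme.{0}} {U V : S.Opens} (hUV : U ≤ V) (x : S) (hx : x ∈ U) :
    S.homOfLE hUV ⟨x, hx⟩ = ⟨x, hUV hx⟩ := by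
  refine Subtype.ext ?_
  exact congrArg (fun φ => φ (⟨x, hx⟩ : U)) (Scheme.homOfLE_ι S hUV)

theorem stalk_restrict {S : Scheme.{0}} {U V : S.Opens} (hUV : U ≤ V) (x : S) (hx : x ∈ U) :
    U.fromSpecStalkOfMem x hx ≫ S.homOfLE hUV = V.fromSpecStalkOfMem x (hUV hx) := by
  rw [← cancel_mono V.ι, Category.assoc, Scheme.homOfLE_ι, Scheme.Opens.fromSpecStalkOfMem_ι,
    Scheme.Opens.fromSpecStalkOfMem_ι]

theorem isDominant_stalk {S : Scheme.{0}} [IsIntegral S] (U : S.Opens)
    (h : genericPoint S ∈ U) : IsDominant (U.fromSpecStalkOfMem (genericPoint S) h) := by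
  refine ⟨fun y => ?_⟩
  let z : U.toScheme := ⟨genericPoint S, h⟩
  have h4 : z ⤳ y := (U.ι.isOpenEmbedding.isInducing.specializes_iff (x := z) (y := y)).1
    ((genericPoint_spec S).specializes trivial)
  refine closure_mono (s := {z}) ?_ (specializes_iff_mem_closure.1 h4)
  rintro _ rfl
  exact ⟨_, stalk_closedPoint U _ h⟩

theorem toStalk_spec {K : Type} [Field K] {X : Scheme.{0}} (f : X ⟶ Spec (CommRingCat.of K))
    (s : X) : Spec.map (CommRingCat.ofHom (toStalk f s)) = X.fromSpecStalk s ≫ f := by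
  unfold toStalk
  rw [CommRingCat.ofHom_hom, Spec.map_preimage]

/-- the canonical map from the stalk to the function field -/
noncomputable def sp (S : Scheme.{0}) [IsIntegral S] (s : S) :
    S.presheaf.stalk s ⟶ S.functionField :=
  S.presheaf.stalkSpecializes ((genericPoint_spec S).specializes trivial)

theorem sp_injective (S : Scheme.{0}) [IsIntegral S] (s : S) :
    Function.Injective (sp S s).hom :=
  IsFractionRing.injective (S.presheaf.stalk s) S.functionField

theorem sp_fromSpecStalk (S : Scheme.{0}) [IsIntegral S] (s : S) :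
    Spec.map (sp S s) ≫ S.fromSpecStalk s = S.fromSpecStalk (genericPoint S) :=
  Scheme.SpecMap_stalkSpecializes_fromSpecStalk _

section

variable {K : Type} [Field K] {S T : Scheme.{0}} [IsIntegral S] [IsIntegral T]

/-- The rational map given by an isomorphism of the function fields. -/
theorem exists_map (f : S ⟶ Spec (CommRingCat.of K)) (g : T ⟶ Spec (CommRingCat.of K))
    (hg : IsFT g) (e : T.functionField ≅ S.functionField)
    (he : Spec.map e.hom ≫ T.fromSpecStalk _ ≫ g = S.fromSpecStalk _ ≫ f) :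
    ∃ (d : S.Opens) (F : d.toScheme ⟶ T) (hη : genericPoint S ∈ d),
      d.fromSpecStalkOfMem _ hη ≫ F = Spec.map e.hom ≫ T.fromSpecStalk _ ∧
      ∀ (s : S) (t : T) (ψ : T.presheaf.stalk t ≅ S.presheaf.stalk s),
        sp T t ≫ e.hom = ψ.hom ≫ sp S s → ∃ hs : s ∈ d, F ⟨s, hs⟩ = t := by
  have h1 := hg.lft
  have h2 : T.IsSeparated := scheme_isSeparated hg
  obtain ⟨F₀, h3⟩ : ∃ F₀ : S ⤏ T, F₀.fromFunctionField = Spec.map e.hom ≫ T.fromSpecStalk _ :=
    ⟨Scheme.RationalMap.ofFunctionField f g (Spec.map e.hom ≫ T.fromSpecStalk _)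
      ((Category.assoc _ _ _).trans he),
      Scheme.RationalMap.fromFunctionField_ofFunctionField _ _ _ _⟩
  have hη : genericPoint S ∈ F₀.toPartialMap.domain :=
    (genericPoint_specializes _).mem_open F₀.toPartialMap.domain.2
      F₀.toPartialMap.dense_domain.nonempty.choose_spec
  refine ⟨F₀.toPartialMap.domain, F₀.toPartialMap.hom, hη, ?_, fun s t ψ hψ => ?_⟩
  · have h4 : F₀.toPartialMap.fromFunctionField = F₀.fromFunctionField := by
      rw [← Scheme.RationalMap.fromFunctionField_toRationalMap,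
        Scheme.RationalMap.toRationalMap_toPartialMap]
    rw [← h3, ← h4]
    rfl
  · let χ : Spec (S.presheaf.stalk s) ⟶ T := Spec.map ψ.hom ≫ T.fromSpecStalk t
    have h5 : Spec.map (sp S s) ≫ χ = Spec.map e.hom ≫ T.fromSpecStalk _ := by
      simp only [χ]
      rw [← Category.assoc, ← Spec.map_comp, ← hψ, Spec.map_comp, Category.assoc,
        sp_fromSpecStalk]
    have h6 : χ ≫ g = S.fromSpecStalk s ≫ f := by
      have h7 : Mono (sp S s) := ConcreteCategory.mono_of_injective _ (sp_injective S s)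
      have h8 : Spec.preimage (χ ≫ g) = Spec.preimage (S.fromSpecStalk s ≫ f) := by
        rw [← cancel_mono (sp S s), ← Spec.map_inj, Spec.map_comp, Spec.map_comp,
          Spec.map_preimage, Spec.map_preimage, ← Category.assoc, h5, Category.assoc, he,
          ← Category.assoc, sp_fromSpecStalk]
      rw [← Spec.map_preimage (χ ≫ g), h8, Spec.map_preimage]
    let F₁ : S.PartialMap T := Scheme.PartialMap.ofFromSpecStalk f g χ h6
    have hs : s ∈ F₁.domain := Scheme.PartialMap.mem_domain_ofFromSpecStalk f g χ h6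
    have h9 : F₁.fromSpecStalkOfMem hs = χ :=
      Scheme.PartialMap.fromSpecStalkOfMem_ofFromSpecStalk f g χ h6
    have h10 : F₁.toRationalMap = F₀ := by
      apply Scheme.RationalMap.eq_of_fromFunctionField_eq
      rw [h3, ← h5, ← h9, Scheme.RationalMap.fromFunctionField_toRationalMap]
      have h11 : Spec.map (sp S s) ≫ F₁.domain.fromSpecStalkOfMem s hs =
          F₁.domain.fromSpecStalkOfMem (genericPoint S)
            ((genericPoint_specializes _).mem_open F₁.domain.2 hs) := by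
        rw [← cancel_mono F₁.domain.ι, Category.assoc, Scheme.Opens.fromSpecStalkOfMem_ι,
          Scheme.Opens.fromSpecStalkOfMem_ι, sp_fromSpecStalk]
      unfold Scheme.PartialMap.fromFunctionField Scheme.PartialMap.fromSpecStalkOfMem
      rw [← Category.assoc, h11]
    have h12 : F₁.domain ≤ F₀.domain := by
      rw [← h10]
      exact Scheme.PartialMap.le_domain_toRationalMap F₁
    refine ⟨h12 hs, ?_⟩
    have h13 : S.homOfLE h12 ≫ F₀.toPartialMap.hom = F₁.hom := by
      have h14 := Scheme.PartialMap.toPartialMap_toRationalMap_restrict F₁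
      subst h10
      exact h14
    have h15 : F₁.fromSpecStalkOfMem hs (IsLocalRing.closedPoint _) = t := by
      rw [h9]
      have h17 : Spec.map ψ.hom (IsLocalRing.closedPoint (S.presheaf.stalk s)) =
          IsLocalRing.closedPoint (T.presheaf.stalk t) :=
        IsLocalRing.comap_closedPoint ψ.hom.hom
      exact (congrArg (T.fromSpecStalk t) h17).trans Scheme.fromSpecStalk_closedPoint
    have h18 : F₁.hom ⟨s, hs⟩ = t := by
      rw [← stalk_closedPoint F₁.domain s hs]
      exact h15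
    rw [← h18, ← h13]
    exact congrArg F₀.toPartialMap.hom (homOfLE_mk h12 s hs).symm

/-- Uniqueness: the composition is the identity. -/
theorem comp_eq (e : T.functionField ≅ S.functionField) (hS : S.IsSeparated)
    {dF : S.Opens} {F : dF.toScheme ⟶ T} (hη : genericPoint S ∈ dF)
    (hF : dF.fromSpecStalkOfMem _ hη ≫ F = Spec.map e.hom ≫ T.fromSpecStalk _)
    {dG : T.Opens} {G : dG.toScheme ⟶ S} (hθ : genericPoint T ∈ dG)
    (hG : dG.fromSpecStalkOfMem _ hθ ≫ G = Spec.map e.inv ≫ S.fromSpecStalk _)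
    {W : S.Opens} (hW : W ≤ dF) (hηW : genericPoint S ∈ W) (a : W.toScheme ⟶ dG.toScheme)
    (ha : a ≫ dG.ι = S.homOfLE hW ≫ F) : a ≫ G = W.ι := by
  have h1 := isDominant_stalk W hηW
  refine ext_of_isDominant (W.fromSpecStalkOfMem _ hηW) ?_
  have h2 : W.fromSpecStalkOfMem _ hηW ≫ a = Spec.map e.hom ≫ dG.fromSpecStalkOfMem _ hθ := by
    rw [← cancel_mono dG.ι, Category.assoc, ha, ← Category.assoc, stalk_restrict, hF,
      Category.assoc, Scheme.Opens.fromSpecStalkOfMem_ι]
  rw [← Category.assoc, h2, Category.assoc, hG, ← Category.assoc, ← Spec.map_comp,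
    Iso.inv_hom_id, Spec.map_id, Category.id_comp, Scheme.Opens.fromSpecStalkOfMem_ι]

end

/-- the preimage of an open subset under a partially defined map -/
noncomputable def pre {S T : Scheme.{0}} {d : S.Opens} (F : d.toScheme ⟶ T) (d' : T.Opens) :
    S.Opens := d.ι ''ᵁ (F ⁻¹ᵁ d')

theorem pre_le {S T : Scheme.{0}} {d : S.Opens} (F : d.toScheme ⟶ T) (d' : T.Opens) :
    pre F d' ≤ d := by
  rintro _ ⟨z, _, rfl⟩
  exact z.2

theorem mem_pre {S T : Scheme.{0}} {d : S.Opens} (F : d.toScheme ⟶ T) (d' : T.Opens) (s : S)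
    (h : s ∈ d) : s ∈ pre F d' ↔ F ⟨s, h⟩ ∈ d' := by
  constructor
  · rintro ⟨z, hz, rfl⟩
    exact hz
  · intro h1
    exact ⟨⟨s, h⟩, h1, rfl⟩

/-- the restriction to the preimage -/
theorem exists_lift {S T : Scheme.{0}} {d : S.Opens} (F : d.toScheme ⟶ T) (d' : T.Opens) :
    ∃ a : (pre F d').toScheme ⟶ d'.toScheme, a ≫ d'.ι = S.homOfLE (pre_le F d') ≫ F := by
  refine ⟨IsOpenImmersion.lift d'.ι (S.homOfLE (pre_le F d') ≫ F) ?_,
    IsOpenImmersion.lift_fac _ _ _⟩
  rintro _ ⟨z, rfl⟩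
  rw [Scheme.Opens.range_ι]
  have h1 := homOfLE_mk (pre_le F d') z.1 z.2
  have h2 := (mem_pre F d' z.1 (pre_le F d' z.2)).1 z.2
  rw [← h1] at h2
  exact h2

theorem exists_corestrict {S T : Scheme.{0}} (dG : T.Opens) {W : S.Opens}
    (a : W.toScheme ⟶ dG.toScheme) (G : dG.toScheme ⟶ S) (dF : S.Opens) (c : W.toScheme ⟶ S)
    (h : a ≫ G = c) (hc : ∀ z : W.toScheme, c z ∈ dF) :
    ∃ A : W.toScheme ⟶ (pre G dF).toScheme, A ≫ (pre G dF).ι = a ≫ dG.ι := by
  refine ⟨IsOpenImmersion.lift (pre G dF).ι (a ≫ dG.ι) ?_, IsOpenImmersion.lift_fac _ _ _⟩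
  rintro _ ⟨z, rfl⟩
  rw [Scheme.Opens.range_ι]
  refine (mem_pre G dF _ (a z).2).2 ?_
  have h1 := hc z
  rw [← h] at h1
  exact h1

theorem exists_iso_opens {K : Type} [Field K] {S T : Scheme.{0}} [IsIntegral S] [IsIntegral T]
    (f : S ⟶ Spec (CommRingCat.of K)) (g : T ⟶ Spec (CommRingCat.of K)) (hf : IsFT f)
    (hg : IsFT g) (e : T.functionField ≅ S.functionField)
    (he : ∀ c : K, e.hom (toStalk g (genericPoint T) c) = toStalk f (genericPoint S) c) :
    ∃ (U : S.Opens) (V : T.Opens) (φ : U.toScheme ≅ V.toScheme),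
      φ.hom ≫ V.ι ≫ g = U.ι ≫ f ∧ Nonempty U ∧
      ∀ (s : S) (t : T) (ψ : T.presheaf.stalk t ≅ S.presheaf.stalk s),
        T.presheaf.stalkSpecializes ((genericPoint_spec T).specializes trivial) ≫ e.hom =
          ψ.hom ≫ S.presheaf.stalkSpecializes ((genericPoint_spec S).specializes trivial) →
        s ∈ U ∧ t ∈ V := by
  have hS : S.IsSeparated := scheme_isSeparated hf
  have hT : T.IsSeparated := scheme_isSeparated hg
  have he' : Spec.map e.hom ≫ T.fromSpecStalk _ ≫ g = S.fromSpecStalk _ ≫ f := by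
    rw [← toStalk_spec, ← toStalk_spec, ← Spec.map_comp]
    congr 1
    ext c
    exact he c
  have he'' : Spec.map e.inv ≫ S.fromSpecStalk _ ≫ f = T.fromSpecStalk _ ≫ g := by
    rw [← he', ← Category.assoc, ← Spec.map_comp, Iso.hom_inv_id, Spec.map_id, Category.id_comp]
  obtain ⟨dF, F, hη, hF, hF'⟩ := exists_map f g hg e he'
  obtain ⟨dG, G, hθ, hG, hG'⟩ := exists_map g f hf e.symm he''
  have hG : dG.fromSpecStalkOfMem _ hθ ≫ G = Spec.map e.inv ≫ S.fromSpecStalk _ := hG
  have hG' : ∀ (t : T) (s : S) (ψ : S.presheaf.stalk s ≅ T.presheaf.stalk t),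
      sp S s ≫ e.inv = ψ.hom ≫ sp T t → ∃ ht : t ∈ dG, G ⟨t, ht⟩ = s := hG'
  -- the images of the generic points
  have hgen : F ⟨genericPoint S, hη⟩ = genericPoint T := by
    have h1 : F (dF.fromSpecStalkOfMem _ hη (IsLocalRing.closedPoint _)) =
        T.fromSpecStalk _ (Spec.map e.hom (IsLocalRing.closedPoint _)) :=
      congrArg (fun φ => φ (IsLocalRing.closedPoint _)) hF
    have h2 : Spec.map e.hom (IsLocalRing.closedPoint S.functionField) =
        IsLocalRing.closedPoint T.functionField := IsLocalRing.comap_closedPoint e.hom.hom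
    rw [stalk_closedPoint] at h1
    rw [h1]
    exact (congrArg _ h2).trans Scheme.fromSpecStalk_closedPoint
  have hgen' : G ⟨genericPoint T, hθ⟩ = genericPoint S := by
    have h1 : G (dG.fromSpecStalkOfMem _ hθ (IsLocalRing.closedPoint _)) =
        S.fromSpecStalk _ (Spec.map e.inv (IsLocalRing.closedPoint _)) :=
      congrArg (fun φ => φ (IsLocalRing.closedPoint _)) hG
    have h2 : Spec.map e.inv (IsLocalRing.closedPoint T.functionField) =
        IsLocalRing.closedPoint S.functionField := IsLocalRing.comap_closedPoint e.inv.hom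
    rw [stalk_closedPoint] at h1
    rw [h1]
    exact (congrArg _ h2).trans Scheme.fromSpecStalk_closedPoint
  let U := pre F dG
  let V := pre G dF
  have hηU : genericPoint S ∈ U := (mem_pre F dG _ hη).2 (by rw [hgen]; exact hθ)
  have hθV : genericPoint T ∈ V := (mem_pre G dF _ hθ).2 (by rw [hgen']; exact hη)
  obtain ⟨a, ha⟩ := exists_lift F dG
  obtain ⟨b, hb⟩ := exists_lift G dF
  have haG : a ≫ G = U.ι := comp_eq e hS hη hF hθ hG (pre_le F dG) hηU a ha
  have hbF : b ≫ F = V.ι := comp_eq e.symm hT hθ hG hη hF (pre_le G dF) hθV b hb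
  obtain ⟨A, hA⟩ := exists_corestrict dG a G dF U.ι haG (fun z => pre_le F dG z.2)
  obtain ⟨B, hB⟩ := exists_corestrict dF b F dG V.ι hbF (fun z => pre_le G dF z.2)
  have hA' : A ≫ T.homOfLE (pre_le G dF) = a := by
    rw [← cancel_mono dG.ι, Category.assoc, Scheme.homOfLE_ι, hA]
  have hB' : B ≫ S.homOfLE (pre_le F dG) = b := by
    rw [← cancel_mono dF.ι, Category.assoc, Scheme.homOfLE_ι, hB]
  have hF2 : F ≫ g = dF.ι ≫ f := by
    have h1 := isDominant_stalk dF hη
    refine ext_of_isDominant (dF.fromSpecStalkOfMem _ hη) ?_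
    rw [← Category.assoc, hF, Category.assoc, he', ← Category.assoc,
      Scheme.Opens.fromSpecStalkOfMem_ι]
  refine ⟨U, V, ⟨A, B, ?_, ?_⟩, ?_, ⟨⟨_, hηU⟩⟩, fun s t ψ hψ => ?_⟩
  · have h1 : A ≫ B ≫ U.ι = U.ι := by
      rw [hB, hb, ← Category.assoc, hA', haG]
    rw [← cancel_mono U.ι, Category.assoc, h1, Category.id_comp]
  · have h1 : B ≫ A ≫ V.ι = V.ι := by
      rw [hA, ha, ← Category.assoc, hB', hbF]
    rw [← cancel_mono V.ι, Category.assoc, h1, Category.id_comp]
  · change A ≫ V.ι ≫ g = U.ι ≫ f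
    rw [← Category.assoc, hA, ha, Category.assoc, hF2, ← Category.assoc, Scheme.homOfLE_ι]
  · obtain ⟨h1, h2⟩ := hF' s t ψ hψ
    have h3 : sp S s ≫ e.inv = ψ.symm.hom ≫ sp T t := by
      have hψ' : sp T t ≫ e.hom = ψ.hom ≫ sp S s := hψ
      rw [Iso.comp_inv_eq, Category.assoc, hψ', Iso.symm_hom, Iso.inv_hom_id_assoc]
    obtain ⟨h4, h5⟩ := hG' t s ψ.symm h3
    exact ⟨(mem_pre F dG s h1).2 (by rw [h2]; exact h4),
      (mem_pre G dF t h4).2 (by rw [h5]; exact h1)⟩

end Pool.Agent.Helper9.RS
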