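import Pool.Agent.Helper45.LS.Model

/-!
# Classes of arithmetic schemes with transfer, and points with purely transcendental residue fields
-/

set_option autoImplicit false

namespace Pool.Agent.Helper9.RS

open AlgebraicGeometry CategoryTheory Limits Pool.Agent.Helper45.LG Pool.Agent.Helper45.LS

/-- `TransferClosed P`: besides the rules of `MorinClosed`, the class `P` contains the spectra of
all finitely generated rings of dimension at most `1`, and an affine arithmetic scheme `Spec A`
belongs to `P` if `Spec B` belongs to `P` for some nonzero finite free `A`-algebra `B`. -/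
structure TransferClosed (P : Scheme.{0} → Prop) : Prop extends MorinClosed P where
  dimOne : ∀ (A : Type) [CommRing A], Algebra.FiniteType ℤ A → ringKrullDim A ≤ 1 →
    P (Spec (CommRingCat.of A))
  transfer : ∀ (A B : Type) [CommRing A] [CommRing B] [Nontrivial B] [Algebra A B]
    [Module.Free A B] [Module.Finite A B], Arithmetic (Spec (CommRingCat.of A)) →
    P (Spec (CommRingCat.of B)) → P (Spec (CommRingCat.of A))

section

variable {K : Type} [Field K] {X : Scheme.{0}} (f : X ⟶ Spec (CommRingCat.of K))

/-- The structure map from the field `K` to the local ring of the `K`-scheme `X` at `s`. -/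
noncomputable def toStalk (s : X) : K →+* X.presheaf.stalk s :=
  (Spec.preimage (X.fromSpecStalk s ≫ f)).hom

/-- The structure map from the field `K` to the residue field of the `K`-scheme `X` at `s`. -/
noncomputable def toRes (s : X) : K →+* X.residueField s :=
  (X.residue s).hom.comp (toStalk f s)

end

/-- The residue field at the point `s` of the `K`-scheme `X` is, as an extension of `K`, the
purely transcendental extension `K(x_1, ..., x_n)`. -/
def PureAt (n : ℕ) {K : Type} [Field K] {X : Scheme.{0}} (f : X ⟶ Spec (CommRingCat.of K))
    (s : X) : Prop :=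
  ∃ e : FractionRing (MvPolynomial (Fin n) K) ≃+* X.residueField s,
    ∀ c : K, e (algebraMap K (FractionRing (MvPolynomial (Fin n) K)) c) = toRes f s c

/-- The point `s` of `X` is the generic point of an irreducible component. -/
def IsGeneric {X : Scheme.{0}} (s : X) : Prop := ∀ t : X, t ⤳ s → t = s

/-- The `n`-dimensional affine space over `K`. -/
noncomputable def Aff (n : ℕ) (K : Type) [Field K] : Scheme.{0} :=
  Spec (CommRingCat.of (MvPolynomial (Fin n) K))

/-- The structure map of the affine space. -/
noncomputable def affTo (n : ℕ) (K : Type) [Field K] : Aff n K ⟶ Spec (CommRingCat.of K) :=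
  Spec.map (CommRingCat.ofHom (algebraMap K (MvPolynomial (Fin n) K)))

/-- Any `n + 1` elements of the `R`-algebra `A` are algebraically dependent over `R`. -/
def Small (n : ℕ) (R A : Type) [CommRing R] [CommRing A] [Algebra R A] : Prop :=
  ∀ a : Fin (n + 1) → A, ¬ AlgebraicIndependent R a

/-- The field `κ` of characteristic `p` is a subfield of `k₁(u)` for an algebraically closed field
`k₁` of transcendence degree at most one over the prime field. -/
def Ruled (p : ℕ) (κ : Type) [Field κ] : Prop :=
  CharP κ p ∧ ∃ (k₁ : Type) (_ : Field k₁) (_ : Algebra (ZMod p) k₁), IsAlgClosed k₁ ∧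
    Small 1 (ZMod p) k₁ ∧ Nonempty (κ →+* RatFunc k₁)

end Pool.Agent.Helper9.RS
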