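import Pool.Agent.Helper9.RS.Defs2
import Pool.Agent.Helper87.CC.Defs

/-!
# Classes of arithmetic schemes with scheme-level rules, and products
-/

set_option autoImplicit false

namespace Pool.Agent.Helper9.RS

open AlgebraicGeometry CategoryTheory Limits Pool.Agent.Helper45.LG Pool.Agent.Helper45.LS
open Pool.Agent.Helper87.CC (CurveProd)

/-- The product `X × W` over `Spec ℤ`. -/
noncomputable def sprod (X W : Scheme.{0}) : Scheme.{0} :=
  pullback (specZIsTerminal.from X) (specZIsTerminal.from W)

/-- Classes of arithmetic schemes with the formal properties of the class of those `X` for which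
all groups `H^i(X_et, ℤ^c(n))` with `n < 0` are finitely generated. -/
structure ProdClosed (P : Scheme.{0} → Prop) : Prop where
  /-- invariance under isomorphism -/
  iso : ∀ X Y : Scheme.{0}, Arithmetic X → Nonempty (X ≅ Y) → P X → P Y
  /-- the empty scheme -/
  empty : ∀ X : Scheme.{0}, IsEmpty X → P X
  /-- two-out-of-three for a closed subscheme `Z` of `X` and its open complement `U` -/
  closed : ∀ (Z X U : Scheme.{0}) (i : Z ⟶ X) (j : U ⟶ X), Arithmetic X → ClosedOpen i j →
    P X → P U → P Z
  /-- two-out-of-three for a closed subscheme `Z` of `X` and its open complement `U` -/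
  opn : ∀ (Z X U : Scheme.{0}) (i : Z ⟶ X) (j : U ⟶ X), Arithmetic X → ClosedOpen i j →
    P X → P Z → P U
  /-- two-out-of-three for a closed subscheme `Z` of `X` and its open complement `U` -/
  glue : ∀ (Z X U : Scheme.{0}) (i : Z ⟶ X) (j : U ⟶ X), Arithmetic X → ClosedOpen i j →
    P Z → P U → P X
  /-- summands of disjoint unions -/
  summand : ∀ (Z X : Scheme.{0}) (i : Z ⟶ X), Arithmetic X → IsClosedImmersion i →
    IsOpenImmersion i → P X → P Z
  /-- the affine line over `X` -/
  line : ∀ X : Scheme.{0}, Arithmetic X → P X → P (fibre X (Polynomial ℤ))
  /-- descent for finite etale coverings -/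
  etale : ∀ (Y X : Scheme.{0}) (f : Y ⟶ X), Arithmetic X → IsFinite f → Etale f → Surjective f →
    (∀ n : ℕ, P (fibrePower f n).left) → P X
  /-- transfer for the base changes of nonzero finite free algebras -/
  transfer : ∀ (A B : Type) [CommRing A] [CommRing B] [Nontrivial B] [Algebra A B]
    [Module.Free A B] [Module.Finite A B] (X : Scheme.{0}) (s : X ⟶ Spec (CommRingCat.of A)),
    Arithmetic X → P (ofib s (algebraMap A B)) → P X
  /-- finite products of arithmetic schemes of dimension at most one -/
  curves : ∀ (T : Type) [CommRing T], CurveProd T → P (Spec (CommRingCat.of T))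

/-- The scheme `X` over the finitely generated domain `R` of dimension at most one is a *model of a
smooth proper geometrically rational surface*: it is separated and of finite type, all its
irreducible components dominate `Spec R`, its geometric generic fibre is proper and regular, and
the residue fields at the generic points of this fibre are purely transcendental of degree two over
the ground field. -/
structure RationalModel {R : Type} [CommRing R] [IsDomain R] {X : Scheme.{0}}
    (s : X ⟶ Spec (CommRingCat.of R)) : Prop where
  fg : Algebra.FiniteType ℤ R
  dim : ringKrullDim R ≤ 1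
  lft : LocallyOfFiniteType s
  qc : QuasiCompact s
  sep : IsSeparated s
  dominant : ∀ x : X, IsGeneric x → Function.Injective (baseToRes s x)
  proper : IsProper (ofibTo s (algebraMap R (AlgebraicClosure (FractionRing R))))
  regular : ∀ x : ofib s (algebraMap R (AlgebraicClosure (FractionRing R))),
    IsDomain ((ofib s (algebraMap R (AlgebraicClosure (FractionRing R)))).presheaf.stalk x) ∧
    IsRegularLocalRing
      ((ofib s (algebraMap R (AlgebraicClosure (FractionRing R)))).presheaf.stalk x)
  rational : ∀ x : ofib s (algebraMap R (AlgebraicClosure (FractionRing R))), IsGeneric x →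
    PureAt 2 (ofibTo s (algebraMap R (AlgebraicClosure (FractionRing R)))) x

/-- The scheme `X` over the finitely generated domain `R` of dimension at most one is a *geometric
model*: it is separated and of finite type, its geometric generic fibre belongs to the geometric
class (without seeds), and either all its geometric closed fibres belong to the geometric classes,
or all its irreducible components dominate `Spec R` and it is ruled at their generic points. -/
structure GeoModel {R : Type} [CommRing R] [IsDomain R] {X : Scheme.{0}}
    (s : X ⟶ Spec (CommRingCat.of R)) : Prop where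
  fg : Algebra.FiniteType ℤ R
  dim : ringKrullDim R ≤ 1
  lft : LocallyOfFiniteType s
  qc : QuasiCompact s
  sep : IsSeparated s
  geometric : GeometricScheme (fun _ => False) (AlgebraicClosure (FractionRing R))
    (ofibTo s (algebraMap R (AlgebraicClosure (FractionRing R))))
  closedFibres : (∀ (p : Ideal R) [p.IsPrime], p ≠ ⊥ → GeometricScheme (fun _ => False)
      (AlgebraicClosure p.ResidueField)
      (ofibTo s (algebraMap R (AlgebraicClosure p.ResidueField)))) ∨
    ((∀ x : X, IsGeneric x → Function.Injective (baseToRes s x)) ∧
      ∀ x : X, IsGeneric x → RuledAt s x)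

/-- Finite products over `Spec ℤ` of models of smooth proper geometrically rational surfaces, of
geometric models and of the spectra of finite tensor products of finitely generated rings of
dimension at most one. -/
inductive ModelProd : Scheme.{0} → Prop
  | curves (T : Type) [CommRing T] : CurveProd T → ModelProd (Spec (CommRingCat.of T))
  | rational {R : Type} [CommRing R] [IsDomain R] {X : Scheme.{0}}
      (s : X ⟶ Spec (CommRingCat.of R)) (W : Scheme.{0}) : RationalModel s → ModelProd W →
      ModelProd (sprod X W)
  | geometric {R : Type} [CommRing R] [IsDomain R] {X : Scheme.{0}}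
      (s : X ⟶ Spec (CommRingCat.of R)) (W : Scheme.{0}) : GeoModel s → ModelProd W →
      ModelProd (sprod X W)

end Pool.Agent.Helper9.RS
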