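import Pool.Agent.Helper9.RS.D

/-!
# Block R: residue fields
-/

set_option autoImplicit false

namespace Pool.Agent.Helper9.RS

open AlgebraicGeometry CategoryTheory Limits Pool.Agent.Helper45.LG Pool.Agent.Helper45.LS

section R

variable {K : Type} [Field K] {X Y : Scheme.{0}} (f : X ⟶ Spec (CommRingCat.of K))

theorem specMap_toStalk (s : X) :
    Spec.map (CommRingCat.ofHom (toStalk f s)) = X.fromSpecStalk s ≫ f := by
  unfold toStalk
  rw [CommRingCat.ofHom_hom, Spec.map_preimage]

theorem specMap_toRes (s : X) :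
    Spec.map (CommRingCat.ofHom (toRes f s)) = X.fromSpecResidueField s ≫ f := by
  unfold toRes
  rw [CommRingCat.ofHom_comp, Spec.map_comp, specMap_toStalk, CommRingCat.ofHom_hom,
    ← Category.assoc]
  rfl

theorem toRes_comp (i : Y ⟶ X) (y : Y) :
    toRes (i ≫ f) y = (i.residueFieldMap y).hom.comp (toRes f (i y)) := by
  have h : CommRingCat.ofHom (toRes (i ≫ f) y) =
      CommRingCat.ofHom ((i.residueFieldMap y).hom.comp (toRes f (i y))) := by
    apply Spec.map_injective
    rw [specMap_toRes, CommRingCat.ofHom_comp, Spec.map_comp, specMap_toRes, CommRingCat.ofHom_hom,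
      ← Category.assoc, ← Category.assoc, Scheme.Hom.SpecMap_residueFieldMap_fromSpecResidueField]
  exact congrArg CommRingCat.Hom.hom h

theorem pureAt_congr (i : Y ⟶ X) (n : ℕ) (y : Y)
    (hb : Function.Bijective (i.residueFieldMap y).hom) :
    PureAt n (i ≫ f) y ↔ PureAt n f (i y) := by
  let u : X.residueField (i y) ≃+* Y.residueField y := RingEquiv.ofBijective _ hb
  have hu : ∀ c, toRes (i ≫ f) y c = u (toRes f (i y) c) := fun c => by
    rw [toRes_comp]
    rfl
  constructor
  · rintro ⟨e, he⟩
    refine ⟨e.trans u.symm, fun c => ?_⟩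
    rw [RingEquiv.trans_apply, he, hu, RingEquiv.symm_apply_apply]
  · rintro ⟨e, he⟩
    refine ⟨e.trans u, fun c => ?_⟩
    rw [RingEquiv.trans_apply, he, hu]

theorem residueFieldMap_bijective_of_isClosedImmersion (i : Y ⟶ X) (hi : IsClosedImmersion i)
    (y : Y) : Function.Bijective (i.residueFieldMap y).hom := by
  refine ⟨RingHom.injective _, ?_⟩
  have h1 := Scheme.residue_residueFieldMap i y
  intro w
  obtain ⟨v, rfl⟩ := Y.residue_surjective y w
  obtain ⟨u, rfl⟩ := i.stalkMap_surjective y v
  exact ⟨X.residue (i y) u, ConcreteCategory.congr_hom h1 u⟩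

theorem pureAt_of_isClosedImmersion (i : Y ⟶ X) (hi : IsClosedImmersion i) (n : ℕ) (y : Y) :
    PureAt n (i ≫ f) y ↔ PureAt n f (i y) :=
  pureAt_congr f i n y (residueFieldMap_bijective_of_isClosedImmersion i hi y)

theorem pureAt_of_isOpenImmersion (i : Y ⟶ X) (hi : IsOpenImmersion i) (n : ℕ) (y : Y) :
    PureAt n (i ≫ f) y ↔ PureAt n f (i y) := by
  refine pureAt_congr f i n y ?_
  have h1 : IsIso (i.residueFieldMap y) := inferInstance
  exact ConcreteCategory.bijective_of_isIso _

/-- `K` as the field of rational functions in no variables -/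
theorem exists_fractionRing_zero : ∃ e : FractionRing (MvPolynomial (Fin 0) K) ≃+* K,
    ∀ c : K, e (algebraMap K (FractionRing (MvPolynomial (Fin 0) K)) c) = c := by
  let a := MvPolynomial.isEmptyAlgEquiv K (Fin 0)
  let _ : Algebra (MvPolynomial (Fin 0) K) K := a.toRingEquiv.toRingHom.toAlgebra
  have hfr : IsFractionRing (MvPolynomial (Fin 0) K) K := by
    refine (isLocalization_iff _ _).2 ⟨?_, ?_, ?_⟩
    · intro y
      have h1 : (y : MvPolynomial (Fin 0) K) ≠ 0 := nonZeroDivisors.coe_ne_zero y
      have h2 : a (y : MvPolynomial (Fin 0) K) ≠ 0 := by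
        rw [Ne, map_eq_zero_iff a a.injective]
        exact h1
      exact isUnit_iff_ne_zero.2 h2
    · intro z
      refine ⟨(a.symm z, 1), ?_⟩
      change z * a ((1 : nonZeroDivisors (MvPolynomial (Fin 0) K)) : MvPolynomial (Fin 0) K) =
        a (a.symm z)
      rw [AlgEquiv.apply_symm_apply]
      change z * a 1 = z
      rw [map_one, mul_one]
    · intro x y hxy
      refine ⟨1, ?_⟩
      have h1 : x = y := a.injective hxy
      rw [h1]
  refine ⟨(IsLocalization.algEquiv (nonZeroDivisors (MvPolynomial (Fin 0) K))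
    (FractionRing (MvPolynomial (Fin 0) K)) K).toRingEquiv, fun c => ?_⟩
  rw [IsScalarTower.algebraMap_apply K (MvPolynomial (Fin 0) K)
    (FractionRing (MvPolynomial (Fin 0) K))]
  change IsLocalization.algEquiv _ _ _ _ = c
  rw [IsLocalization.algEquiv_apply, IsLocalization.map_eq]
  exact a.commutes c

theorem pureAt_zero_iff_bijective (s : X) : PureAt 0 f s ↔ Function.Bijective (toRes f s) := by
  obtain ⟨u, hu⟩ := exists_fractionRing_zero (K := K)
  constructor
  · rintro ⟨e, he⟩
    have h1 : toRes f s = (u.symm.trans e).toRingHom := by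
      ext c
      change toRes f s c = e (u.symm c)
      rw [← he]
      congr 1
      rw [RingEquiv.eq_symm_apply, hu]
    rw [h1]
    exact (u.symm.trans e).bijective
  · intro h
    refine ⟨u.trans (RingEquiv.ofBijective _ h), fun c => ?_⟩
    rw [RingEquiv.trans_apply, hu]
    rfl

/-- closed points -/
theorem pureAt_zero_iff [IsAlgClosed K] (hf : IsFT f) (s : X) : PureAt 0 f s ↔
    IsClosed ({s} : Set X) := by
  have hft := hf.1
  have hJ : JacobsonSpace X := LocallyOfFiniteType.jacobsonSpace f
  rw [pureAt_zero_iff_bijective]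
  constructor
  · intro h
    rw [isClosed_singleton_iff_locallyOfFiniteType]
    have h1 : IsIso (CommRingCat.ofHom (toRes f s)) :=
      (ConcreteCategory.isIso_iff_bijective _).2 h
    have h2 : LocallyOfFiniteType (X.fromSpecResidueField s ≫ f) := by
      rw [← specMap_toRes]
      infer_instance
    exact locallyOfFiniteType_of_comp _ f
  · intro h
    have h1 := SpecMap_residueFieldIsoBase_inv f s h
    rw [← specMap_toRes] at h1
    have h2 := Spec.map_injective h1
    have h3 : IsIso (CommRingCat.ofHom (toRes f s)) := by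
      rw [← h2]
      infer_instance
    exact (ConcreteCategory.isIso_iff_bijective _).1 h3

theorem exists_transcendental [IsAlgClosed K] (s : X) (h : ¬ PureAt 0 f s) :
    ∃ w : X.residueField s, ∀ q : Polynomial K, q ≠ 0 → q.eval₂ (toRes f s) w ≠ 0 := by
  rw [pureAt_zero_iff_bijective] at h
  by_contra hcon
  push Not at hcon
  apply h
  let _ : Algebra K (X.residueField s) := (toRes f s).toAlgebra
  have halg : Algebra.IsAlgebraic K (X.residueField s) := ⟨fun w => by
    obtain ⟨q, hq, hw⟩ := hcon w
    exact ⟨q, hq, hw⟩⟩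
  have hint : Algebra.IsIntegral K (X.residueField s) := inferInstance
  exact IsAlgClosed.algebraMap_bijective_of_isIntegral

theorem pureAt_genericPoint_iff [IsIntegral X] (n : ℕ) :
    PureAt n f (genericPoint X) ↔
      ∃ e : FractionRing (MvPolynomial (Fin n) K) ≃+* X.functionField,
        ∀ c : K, e (algebraMap K (FractionRing (MvPolynomial (Fin n) K)) c)
          = toStalk f (genericPoint X) c := by
  let _ : Field (X.presheaf.stalk (genericPoint X)) := inferInstanceAs (Field X.functionField)
  have hb : Function.Bijective (X.residue (genericPoint X)).hom :=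
    ⟨RingHom.injective _, X.residue_surjective _⟩
  let u : X.presheaf.stalk (genericPoint X) ≃+* X.residueField (genericPoint X) :=
    RingEquiv.ofBijective _ hb
  have hu : ∀ c, toRes f (genericPoint X) c = u (toStalk f (genericPoint X) c) := fun c => rfl
  constructor
  · rintro ⟨e, he⟩
    refine ⟨e.trans u.symm, fun c => ?_⟩
    rw [RingEquiv.trans_apply, he, hu, RingEquiv.symm_apply_apply]
  · rintro ⟨e, he⟩
    refine ⟨e.trans u, fun c => ?_⟩
    rw [RingEquiv.trans_apply, he, hu]

end R

end Pool.Agent.Helper9.RS
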