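import Pool.Agent.Helper9.RS.TI
import Pool.Agent.Helper45.LS.Main

/-!
# Noetherian induction for schemes over a field
-/

set_option autoImplicit false

namespace Pool.Agent.Helper9.RS

open AlgebraicGeometry CategoryTheory Limits TopologicalSpace
open Pool.Agent.Helper45.LG Pool.Agent.Helper45.LS

/-- A nonempty open subset of an irreducible component. -/
theorem exists_component_open (Z : Scheme.{0}) [NoetherianSpace Z] [Nonempty Z] :
    ∃ (x : Z) (O : Z.Opens), (O : Set Z).Nonempty ∧ (O : Set Z) ⊆ closure {x} := by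
  obtain ⟨x₀⟩ := ‹Nonempty Z›
  let D := irreducibleComponent x₀
  have hD : D ∈ irreducibleComponents Z := irreducibleComponent_mem_irreducibleComponents x₀
  have hfin := NoetherianSpace.finite_irreducibleComponents (α := Z)
  have h1 := closure_sUnion_irreducibleComponents_sdiff_singleton hfin D hD
  have hD1 : IsIrreducible D := isIrreducible_irreducibleComponent
  have hD2 : IsClosed D := isClosed_irreducibleComponent
  have h2 := hD1.isGenericPoint_genericPoint hD2
  refine ⟨hD1.genericPoint, ⟨(⋃₀ (irreducibleComponents Z \ {D}))ᶜ, ?_⟩, ?_, ?_⟩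
  · rw [Set.sUnion_eq_biUnion, isOpen_compl_iff]
    exact hfin.sdiff.isClosed_biUnion fun W hW => isClosed_of_mem_irreducibleComponents W hW.1
  · rw [← closure_nonempty_iff]
    show (closure (⋃₀ (irreducibleComponents Z \ {D}))ᶜ).Nonempty
    rw [h1]
    exact hD1.nonempty
  · rw [h2.def]
    show (⋃₀ (irreducibleComponents Z \ {D}))ᶜ ⊆ D
    exact subset_closure.trans h1.le

theorem geo_aux {P : Scheme.{0} → Prop} {K : Type} [Field K] {X : Scheme.{0}}
    (f : X ⟶ Spec (CommRingCat.of K)) [NoetherianSpace X]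
    (h : ∀ (Z : Scheme.{0}) (i : Z ⟶ X), IsClosedImmersion i → IsIntegral Z →
      ∃ U : Z.Opens, Nonempty U ∧ ∀ V : Z.Opens, V ≤ U → GeometricScheme P K (V.ι ≫ i ≫ f))
    (C : Closeds X) : ∀ (Z : Scheme.{0}) (i : Z ⟶ X), IsClosedImmersion i →
      Set.range i = C → GeometricScheme P K (i ≫ f) := by
  induction C using WellFoundedLT.induction with
  | ind C ih =>
    intro Z i hi hC
    by_cases hZ : IsEmpty Z
    · exact GeometricScheme.empty _ hZ
    rw [not_isEmpty_iff] at hZ
    have hZN : NoetherianSpace Z := i.isEmbedding.isInducing.noetherianSpace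
    obtain ⟨x, O, hOne, hOx⟩ := exists_component_open Z
    obtain ⟨Z₁, j₁, hj₁, hint, hr⟩ := exists_integral_closed x
    obtain ⟨U, hU, hgeo⟩ := h Z₁ (j₁ ≫ i) inferInstance hint
    obtain ⟨W, hW, hWU⟩ := j₁.isEmbedding.isInducing.isOpen_iff.1 U.isOpen
    let N : Z.Opens := ⟨W ∩ O, hW.inter O.isOpen⟩
    have hNle : j₁ ⁻¹ᵁ N ≤ U := by
      intro y hy
      have h1 : j₁ y ∈ W := hy.1
      have h2 : y ∈ j₁ ⁻¹' W := h1
      rwa [hWU] at h2
    have hgN := hgeo (j₁ ⁻¹ᵁ N) hNle
    have hNne : (N : Set Z).Nonempty := by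
      have hirr : PreirreducibleSpace Z₁ := inferInstance
      obtain ⟨u, hu⟩ := hU
      obtain ⟨o, ho⟩ := hOne
      have ho1 : o ∈ Set.range j₁ := by
        rw [hr]
        exact hOx ho
      obtain ⟨o', rfl⟩ := ho1
      obtain ⟨y, hy1, hy2⟩ := nonempty_preirreducible_inter U.isOpen (j₁ ⁻¹ᵁ O).isOpen
        ⟨u, hu⟩ ⟨o', ho⟩
      refine ⟨j₁ y, ?_, hy2⟩
      rw [← hWU] at hy1
      exact hy1
    have hN : GeometricScheme P K (N.ι ≫ i ≫ f) := by
      refine GeometricScheme.glue (N.ι ≫ i ≫ f) (j₁ ∣_ N) (Scheme.emptyTo N.toScheme)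
        ⟨inferInstance, inferInstance, ?_⟩ ?_ (GeometricScheme.empty _ inferInstance)
      · rw [Set.range_eq_empty, eq_comm, Set.compl_empty_iff, Set.range_eq_univ]
        rintro ⟨z, hz⟩
        have hz1 : z ∈ Set.range j₁ := by
          rw [hr]
          exact hOx hz.2
        obtain ⟨z', rfl⟩ := hz1
        refine ⟨⟨z', hz⟩, ?_⟩
        apply Subtype.ext
        exact morphismRestrict_base_coe j₁ N ⟨z', hz⟩
      · rw [← Category.assoc, morphismRestrict_ι, Category.assoc]
        rw [Category.assoc] at hgN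
        exact hgN
    have hCl : IsClosed ((N : Set Z)ᶜ) := N.isOpen.isClosed_compl
    obtain ⟨Z', j', hj', hr'⟩ := exists_closed _ hCl
    have hZ' : GeometricScheme P K (j' ≫ i ≫ f) := by
      rw [← Category.assoc]
      refine ih ⟨Set.range (j' ≫ i), (j' ≫ i).isClosedEmbedding.isClosed_range⟩ ?_ Z' (j' ≫ i)
        inferInstance rfl
      refine lt_of_le_of_ne ?_ ?_
      · rintro _ ⟨y, rfl⟩
        show (j' ≫ i) y ∈ (C : Set X)
        rw [← hC]
        exact ⟨j' y, rfl⟩
      · intro hEq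
        obtain ⟨z, hz⟩ := hNne
        have h1 : i z ∈ (C : Set X) := by
          rw [← hC]
          exact ⟨z, rfl⟩
        rw [← hEq] at h1
        obtain ⟨y, hy⟩ := h1
        have h2 : j' y = z := i.isEmbedding.injective hy
        have h3 : z ∈ Set.range j' := ⟨y, h2⟩
        rw [hr'] at h3
        exact h3 hz
    refine GeometricScheme.glue (i ≫ f) j' N.ι ⟨hj', inferInstance, ?_⟩ hZ' hN
    rw [hr', compl_compl]
    exact N.range_ι

/-- Noetherian induction for schemes over a field. -/
theorem geo_of_generic {P : Scheme.{0} → Prop} {K : Type} [Field K] {X : Scheme.{0}}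
    (f : X ⟶ Spec (CommRingCat.of K)) (hf : IsFT f)
    (h : ∀ (Z : Scheme.{0}) (i : Z ⟶ X), IsClosedImmersion i → IsIntegral Z →
      ∃ U : Z.Opens, Nonempty U ∧ ∀ V : Z.Opens, V ≤ U → GeometricScheme P K (V.ι ≫ i ≫ f)) :
    GeometricScheme P K f := by
  have h1 := hf.lft
  have h2 := hf.qc
  have h3 : IsLocallyNoetherian X := LocallyOfFiniteType.isLocallyNoetherian f
  have h4 : CompactSpace X := QuasiCompact.compactSpace_of_compactSpace f
  have h5 : IsNoetherian X := {}
  have h6 := geo_aux f h ⟨Set.univ, isClosed_univ⟩ X (𝟙 X) inferInstance (by simp)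
  rwa [Category.id_comp] at h6

end Pool.Agent.Helper9.RS
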