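import Pool.Agent.Helper9.RS.H
import Pool.Agent.Helper9.RS.D
import Pool.Agent.Helper9.RS.R
import Pool.Agent.Helper9.RS.TG

/-!
# Block E: schemes all of whose points are closed or rational curves
-/

set_option autoImplicit false

namespace Pool.Agent.Helper9.RS

open AlgebraicGeometry CategoryTheory Limits Pool.Agent.Helper45.LG Pool.Agent.Helper45.LS

instance isIntegral_Aff (n : ℕ) (K : Type) [Field K] : IsIntegral (Aff n K) := by
  have : IsDomain (CommRingCat.of (MvPolynomial (Fin n) K)) :=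
    inferInstanceAs (IsDomain (MvPolynomial (Fin n) K))
  exact inferInstanceAs (IsIntegral (Spec (CommRingCat.of (MvPolynomial (Fin n) K))))

theorem isGeneric_genericPoint (X : Scheme.{0}) [IsIntegral X] : IsGeneric (genericPoint X) := by
  intro t ht
  have h1 : genericPoint X ⤳ t := (genericPoint_spec X).specializes trivial
  exact (ht.antisymm h1).eq

/-- open subschemes of the affine space -/
theorem geo_open_aff {P : Scheme.{0} → Prop} (n : ℕ) {K : Type} [Field K]
    (H : ∀ (T : Scheme.{0}) (i : T ⟶ Aff n K), IsClosedImmersion i →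
      genericPoint (Aff n K) ∉ Set.range i → GeometricScheme P K (i ≫ affTo n K))
    (V : (Aff n K).Opens) : GeometricScheme P K (V.ι ≫ affTo n K) := by
  by_cases hV : Nonempty V
  · obtain ⟨⟨x, hx⟩⟩ := hV
    have hg : genericPoint (Aff n K) ∈ V :=
      (genericPoint_specializes x).mem_open V.2 hx
    let C : TopologicalSpace.Closeds (Aff n K) := ⟨(V : Set (Aff n K))ᶜ, V.2.isClosed_compl⟩
    let J := Scheme.IdealSheafData.vanishingIdeal C
    have hr : Set.range J.subschemeι = (V : Set (Aff n K))ᶜ := by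
      rw [Scheme.IdealSheafData.range_subschemeι,
        Scheme.IdealSheafData.coe_support_vanishingIdeal]
      rfl
    refine GeometricScheme.opn (affTo n K) J.subschemeι V.ι (hasModel_affTo n K)
      ⟨inferInstance, inferInstance, ?_⟩ (geo_affTo P n K) (H _ _ inferInstance ?_)
    · rw [Scheme.Opens.range_ι, hr, compl_compl]
    · rw [hr]
      exact fun h => h hg
  · refine GeometricScheme.empty _ ?_
    rw [not_nonempty_iff] at hV
    exact hV

/-- integral schemes birational to the affine space -/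
theorem geo_of_pureAt_genericPoint {P : Scheme.{0} → Prop} (n : ℕ) {K : Type} [Field K]
    (H : ∀ (T : Scheme.{0}) (i : T ⟶ Aff n K), IsClosedImmersion i →
      genericPoint (Aff n K) ∉ Set.range i → GeometricScheme P K (i ≫ affTo n K))
    {Z : Scheme.{0}} [IsIntegral Z] (f : Z ⟶ Spec (CommRingCat.of K)) (hf : IsFT f)
    (hn : PureAt n f (genericPoint Z)) :
    ∃ U : Z.Opens, Nonempty U ∧ ∀ V : Z.Opens, V ≤ U → GeometricScheme P K (V.ι ≫ f) := by
  obtain ⟨e1, h1⟩ := (pureAt_genericPoint_iff f n).1 hn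
  obtain ⟨e2, h2⟩ := (pureAt_genericPoint_iff (affTo n K) n).1
    (pureAt_affTo n K _ (isGeneric_genericPoint _))
  let e : (Aff n K).functionField ≅ Z.functionField := (e2.symm.trans e1).toCommRingCatIso
  have he : ∀ c : K, e.hom (toStalk (affTo n K) (genericPoint (Aff n K)) c) =
      toStalk f (genericPoint Z) c := by
    intro c
    change e1 (e2.symm (toStalk (affTo n K) (genericPoint (Aff n K)) c)) = _
    rw [← h2, RingEquiv.symm_apply_apply, h1]
  obtain ⟨U, V, φ, hφ, hU, -⟩ := exists_iso_opens f (affTo n K) hf (isFT_affTo n K) e he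
  refine ⟨U, hU, fun W hW => ?_⟩
  let j : W.toScheme ⟶ Aff n K := Z.homOfLE hW ≫ φ.hom ≫ V.ι
  have hj : j ≫ affTo n K = W.ι ≫ f := by
    simp only [j, Category.assoc]
    rw [hφ, ← Category.assoc, Scheme.homOfLE_ι]
  let W' : (Aff n K).Opens := j.opensRange
  have h3 := geo_open_aff (P := P) n H W'
  let e' : W.toScheme ≅ W'.toScheme := IsOpenImmersion.isoOfRangeEq j W'.ι (by
    rw [Scheme.Opens.range_ι]
    rfl)
  have h4 : e'.hom ≫ W'.ι = j := IsOpenImmersion.isoOfRangeEq_hom_fac _ _ _
  have h5 := GeometricScheme.iso _ e' h3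
  rwa [← Category.assoc, h4, hj] at h5

theorem asIdeal_genericPoint (n : ℕ) {K : Type} [Field K] :
    (show Spec (CommRingCat.of (MvPolynomial (Fin n) K)) from
      genericPoint (Aff n K)).asIdeal = ⊥ := by
  have : IsDomain (CommRingCat.of (MvPolynomial (Fin n) K)) :=
    inferInstanceAs (IsDomain (MvPolynomial (Fin n) K))
  exact asIdeal_eq_bot_of_isGeneric (R := CommRingCat.of (MvPolynomial (Fin n) K)) _
    (isGeneric_genericPoint (Aff n K))

/-- closed points of the affine line -/
theorem isClosed_of_ne {K : Type} [Field K] (t : Aff 1 K) (ht : t ≠ genericPoint (Aff 1 K)) :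
    IsClosed ({t} : Set (Aff 1 K)) := by
  let t' : PrimeSpectrum (MvPolynomial (Fin 1) K) := t
  have hP : IsPrincipalIdealRing (MvPolynomial (Fin 1) K) :=
    IsPrincipalIdealRing.of_surjective (MvPolynomial.uniqueAlgEquiv K (Fin 1)).symm.toRingHom
      (MvPolynomial.uniqueAlgEquiv K (Fin 1)).symm.surjective
  have h1 : t'.asIdeal ≠ ⊥ := fun h => ht (PrimeSpectrum.ext
    ((show t'.asIdeal = ⊥ from h).trans (asIdeal_genericPoint 1).symm))
  have h2 : t'.asIdeal.IsMaximal := IsPrime.to_maximal_ideal h1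
  exact (PrimeSpectrum.isClosed_singleton_iff_isMaximal t').2 h2

theorem eq_genericPoint {K : Type} [Field K] (t : Aff 0 K) : t = genericPoint (Aff 0 K) := by
  let t' : PrimeSpectrum (MvPolynomial (Fin 0) K) := t
  have hF : IsField (MvPolynomial (Fin 0) K) :=
    (MvPolynomial.isEmptyAlgEquiv K (Fin 0)).toMulEquiv.isField (Field.toIsField K)
  have h1 : t'.asIdeal = ⊥ := by
    by_contra h
    obtain ⟨x, hx, hx0⟩ := Submodule.exists_mem_ne_zero_of_ne_bot h
    obtain ⟨y, hy⟩ := hF.mul_inv_cancel hx0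
    exact t'.2.ne_top ((Ideal.eq_top_iff_one _).2 (hy ▸ t'.asIdeal.mul_mem_right y hx))
  exact PrimeSpectrum.ext (h1.trans (asIdeal_genericPoint 0).symm)

theorem closed_aff_zero {P : Scheme.{0} → Prop} {K : Type} [Field K] (T : Scheme.{0})
    (i : T ⟶ Aff 0 K) (h : genericPoint (Aff 0 K) ∉ Set.range i) :
    GeometricScheme P K (i ≫ affTo 0 K) := by
  refine GeometricScheme.empty _ ⟨fun t => h ⟨t, eq_genericPoint _⟩⟩

/-- schemes all of whose points are rational closed points -/
theorem geo_of_pure_zero {P : Scheme.{0} → Prop} {K : Type} [Field K] {X : Scheme.{0}}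
    (f : X ⟶ Spec (CommRingCat.of K)) (hf : IsFT f) (h : ∀ s : X, PureAt 0 f s) :
    GeometricScheme P K f := by
  refine geo_of_generic f hf fun Z i hi hZ => ?_
  have h1 : IsFT (i ≫ f) := IsFT.comp ⟨inferInstance, inferInstance, inferInstance⟩ hf
  exact geo_of_pureAt_genericPoint 0 (fun T i _ hT => closed_aff_zero T i hT) (i ≫ f) h1
    ((pureAt_of_isClosedImmersion f i hi 0 _).2 (h _))

theorem closed_aff_one {P : Scheme.{0} → Prop} {K : Type} [Field K] [IsAlgClosed K] (T : Scheme.{0})
    (i : T ⟶ Aff 1 K) (hi : IsClosedImmersion i) (h : genericPoint (Aff 1 K) ∉ Set.range i) :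
    GeometricScheme P K (i ≫ affTo 1 K) := by
  have h1 : IsFT (i ≫ affTo 1 K) :=
    IsFT.comp ⟨inferInstance, inferInstance, inferInstance⟩ (isFT_affTo 1 K)
  refine geo_of_pure_zero _ h1 fun s => ?_
  rw [pureAt_of_isClosedImmersion (affTo 1 K) i hi, pureAt_zero_iff _ (isFT_affTo 1 K)]
  exact isClosed_of_ne _ fun h2 => h ⟨s, h2⟩

/-- **Block E.** Schemes all of whose residue fields are `K` or `K(t)`. -/
theorem geo_of_pure {P : Scheme.{0} → Prop} {K : Type} [Field K] [IsAlgClosed K] {X : Scheme.{0}}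
    (f : X ⟶ Spec (CommRingCat.of K)) (hf : IsFT f)
    (h : ∀ s : X, PureAt 0 f s ∨ PureAt 1 f s) : GeometricScheme P K f := by
  refine geo_of_generic f hf fun Z i hi hZ => ?_
  have h1 : IsFT (i ≫ f) := IsFT.comp ⟨inferInstance, inferInstance, inferInstance⟩ hf
  rcases h (i (genericPoint Z)) with h2 | h2
  · exact geo_of_pureAt_genericPoint 0 (fun T i _ hT => closed_aff_zero T i hT) (i ≫ f) h1
      ((pureAt_of_isClosedImmersion f i hi 0 _).2 h2)
  · exact geo_of_pureAt_genericPoint 1 (fun T i hi' hT => closed_aff_one T i hi' hT) (i ≫ f) h1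
      ((pureAt_of_isClosedImmersion f i hi 1 _).2 h2)

end Pool.Agent.Helper9.RS
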