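import Pool.Agent.Helper9.RS.TC
import Pool.Agent.Helper9.RS.E
import Pool.Agent.Helper9.RS.CP
import Pool.Agent.Helper9.RS.CS
import Pool.Agent.Helper9.RS.D
import Pool.Agent.Helper9.RS.H

/-!
# Smooth proper rational surfaces are in the geometric class
-/

set_option autoImplicit false

namespace Pool.Agent.Helper9.RS

open AlgebraicGeometry CategoryTheory Limits Pool.Agent.Helper45.LG Pool.Agent.Helper45.LS
open IsLocalRing

instance isIntegral_aff (n : ℕ) (K : Type) [Field K] : IsIntegral (Aff n K) := by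
  unfold Aff
  infer_instance

theorem exists_closedOpen {X : Scheme.{0}} (V : X.Opens) :
    ∃ (Z : Scheme.{0}) (i : Z ⟶ X), ClosedOpen i V.ι := by
  let W : TopologicalSpace.Closeds X := ⟨(V : Set X)ᶜ, V.2.isClosed_compl⟩
  let I := Scheme.IdealSheafData.vanishingIdeal W
  refine ⟨I.subscheme, I.subschemeι, inferInstance, inferInstance, ?_⟩
  have hI : Set.range I.subschemeι = (V : Set X)ᶜ := by
    rw [Scheme.IdealSheafData.range_subschemeι]
    simp [I, W]
  rw [hI, compl_compl]
  simp

theorem isFT_closed {S X Z : Scheme.{0}} {f : X ⟶ S} (hf : IsFT f) (i : Z ⟶ X)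
    (hi : IsClosedImmersion i) : IsFT (i ≫ f) := IsFT.comp ⟨inferInstance, inferInstance,
  inferInstance⟩ hf

/-- the complement of an open subscheme containing all non-rational curves -/
theorem geo_compl {P : Scheme.{0} → Prop} {K : Type} [Field K] [IsAlgClosed K]
    {X Z : Scheme.{0}} (f : X ⟶ Spec (CommRingCat.of K)) (hf : IsFT f) (V : X.Opens) (i : Z ⟶ X)
    (h : ClosedOpen i V.ι) (hV : ∀ s : X, s ∉ V → PureAt 0 f s ∨ PureAt 1 f s) :
    GeometricScheme P K (i ≫ f) := by
  have hi := h.closed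
  refine geo_of_pure (i ≫ f) (isFT_closed hf i hi) fun s => ?_
  rw [pureAt_of_isClosedImmersion f i hi, pureAt_of_isClosedImmersion f i hi]
  apply hV
  intro hs
  have h1 : i s ∈ Set.range V.ι := by
    rw [Scheme.Opens.range_ι]
    exact hs
  rw [h.compl] at h1
  exact h1 ⟨s, rfl⟩

theorem geo_of_surface_integral {P : Scheme.{0} → Prop} {K : Type} [Field K] [IsAlgClosed K]
    {S : Scheme.{0}} [IsIntegral S] (f : S ⟶ Spec (CommRingCat.of K)) (hf : IsFT f)
    (hprop : IsProper f) (hreg : ∀ s : S, IsRegularLocalRing (S.presheaf.stalk s))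
    (h2 : PureAt 2 f (genericPoint S)) : GeometricScheme P K f := by
  obtain ⟨e1, he1⟩ := (pureAt_genericPoint_iff f 2).1 h2
  obtain ⟨e0, -, he0⟩ := exists_equiv_functionField (K := K) 2
  let e : (Aff 2 K).functionField ≅ S.functionField := (e0.symm.trans e1).toCommRingCatIso
  have he : ∀ c : K, e.hom (toStalk (affTo 2 K) (genericPoint (Aff 2 K)) c) =
      toStalk f (genericPoint S) c := fun c => by
    rw [← he0, ← he1]
    change e1 (e0.symm (e0 _)) = _
    rw [e0.symm_apply_apply]
  obtain ⟨U, V, φ, hφ, hU, hmem⟩ := exists_iso_opens f (affTo 2 K) hf (isFT_affTo 2 K) e he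
  have hgS : genericPoint S ∈ U :=
    ((genericPoint_spec S).mem_open_set_iff U.isOpen).2 (by
      obtain ⟨x⟩ := hU
      exact ⟨x.1, trivial, x.2⟩)
  have hVn : Nonempty V := by
    obtain ⟨x⟩ := hU
    exact ⟨φ.hom x⟩
  have hgT : genericPoint (Aff 2 K) ∈ V :=
    ((genericPoint_spec (Aff 2 K)).mem_open_set_iff V.isOpen).2 (by
      obtain ⟨x⟩ := hVn
      exact ⟨x.1, trivial, x.2⟩)
  have hUc : ∀ s : S, s ∉ U → PureAt 0 f s ∨ PureAt 1 f s := by
    intro s hs
    by_contra hcon
    push Not at hcon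
    obtain ⟨t, ψ, hψ⟩ := exists_point_plane f hf hreg e he s hcon.1 hcon.2 (by
      rintro rfl
      exact hs hgS)
    exact hs (hmem s t ψ hψ).1
  have hVc : ∀ t : Aff 2 K, t ∉ V → PureAt 0 (affTo 2 K) t ∨ PureAt 1 (affTo 2 K) t := by
    intro t ht
    by_contra hcon
    push Not at hcon
    obtain ⟨s, ψ, hψ⟩ := exists_point_surface f hf hprop hreg e he t hcon.1 hcon.2 (by
      rintro rfl
      exact ht hgT)
    exact ht (hmem s t ψ hψ).2
  obtain ⟨Z, i, hi⟩ := exists_closedOpen V
  obtain ⟨Z', i', hi'⟩ := exists_closedOpen U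
  have h3 : GeometricScheme P K (i ≫ affTo 2 K) :=
    geo_compl (affTo 2 K) (isFT_affTo 2 K) V i hi hVc
  have h4 : GeometricScheme P K (V.ι ≫ affTo 2 K) :=
    GeometricScheme.opn _ i V.ι (hasModel_affTo 2 K) hi (geo_affTo P 2 K) h3
  have h5 : GeometricScheme P K (U.ι ≫ f) := by
    rw [← hφ]
    exact GeometricScheme.iso _ φ h4
  have h6 : GeometricScheme P K (i' ≫ f) := geo_compl f hf U i' hi' hUc
  exact GeometricScheme.glue f i' U.ι hi' h6 h5

/-- **Smooth proper surfaces with rational components are in the geometric class.** -/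
theorem geo_of_surface {P : Scheme.{0} → Prop} {K : Type} [Field K] [IsAlgClosed K]
    {S : Scheme.{0}} (f : S ⟶ Spec (CommRingCat.of K)) (hf : IsFT f) (hprop : IsProper f)
    (hreg : ∀ s : S, IsDomain (S.presheaf.stalk s) ∧ IsRegularLocalRing (S.presheaf.stalk s))
    (h2 : ∀ s : S, IsGeneric s → PureAt 2 f s) : GeometricScheme P K f := by
  refine geo_of_components f hf (fun s => (hreg s).1) fun U hU hint => ?_
  have hcl : IsClosedImmersion U.ι := by
    apply IsClosedImmersion.of_isPreimmersion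
    rw [Scheme.Opens.range_ι]
    exact hU
  refine geo_of_surface_integral (U.ι ≫ f) (isFT_closed hf U.ι hcl) ?_ ?_ ?_
  · infer_instance
  · intro s
    have h1 := (hreg (U.ι s)).2
    exact IsRegularLocalRing.of_ringEquiv (asIso (U.ι.stalkMap s)).commRingCatIsoToRingEquiv
  · rw [pureAt_of_isOpenImmersion f U.ι inferInstance]
    apply h2
    intro t ht
    have ht' : t ∈ U := ht.mem_open U.2 (genericPoint U).2
    have h3 : (⟨t, ht'⟩ : U) ⤳ genericPoint U :=
      Topology.IsInducing.subtypeVal.specializes_iff.1 ht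
    have h4 : genericPoint U ⤳ (⟨t, ht'⟩ : U) := (genericPoint_spec U).specializes trivial
    have h5 : (⟨t, ht'⟩ : U) = genericPoint U := (h3.antisymm h4).eq
    exact congrArg Subtype.val h5

end Pool.Agent.Helper9.RS
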