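import Mathlib

/-!
# Closed subschemes with given support
-/

set_option autoImplicit false

namespace Pool.Agent.Helper9.RS

open AlgebraicGeometry CategoryTheory Limits TopologicalSpace

/-- The kernel of the map onto the scheme-theoretic image is zero. -/
theorem isSchemeTheoreticallyDominant_toImage {X Y : Scheme.{0}} (f : X ⟶ Y) [QuasiCompact f] :
    IsSchemeTheoreticallyDominant f.toImage := by
  rw [isSchemeTheoreticallyDominant_iff]
  refine Scheme.IdealSheafData.ext_of_iSup_eq_top
    (fun U : Y.affineOpens => ⟨f.imageι ⁻¹ᵁ U, U.2.preimage f.imageι⟩) ?_ ?_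
  · have h := iSup_affineOpens_eq_top Y
    rw [← top_le_iff]
    intro x _
    have h2 : f.imageι x ∈ (⨆ U : Y.affineOpens, (U : Y.Opens)) := by
      rw [h]
      trivial
    obtain ⟨U, hU⟩ := Opens.mem_iSup.1 h2
    exact Opens.mem_iSup.2 ⟨U, hU⟩
  · intro U
    rw [Scheme.Hom.ker_apply, Scheme.IdealSheafData.ideal_bot, Pi.bot_apply,
      ← RingHom.injective_iff_ker_eq_bot]
    exact f.toImage_app_injective U

/-- The reduced closed subscheme with the generic point `x`. -/
theorem exists_integral_closed {X : Scheme.{0}} (x : X) :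
    ∃ (Z : Scheme.{0}) (i : Z ⟶ X), IsClosedImmersion i ∧ IsIntegral Z ∧
      Set.range i = closure {x} := by
  let f := X.fromSpecResidueField x
  have hqc : QuasiCompact f := by
    refine ⟨fun U _ _ => ?_⟩
    have : Finite (Spec (X.residueField x)) :=
      Finite.of_subsingleton (α := PrimeSpectrum (X.residueField x))
    exact (Set.toFinite _).isCompact
  have h1 := isSchemeTheoreticallyDominant_toImage f
  have h2 : IsReduced f.image := IsSchemeTheoreticallyDominant.isReduced f.toImage
  have h3 : IrreducibleSpace f.image := by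
    have h4 : IrreducibleSpace (Spec (X.residueField x)) := inferInstance
    rw [irreducibleSpace_def] at h4 ⊢
    have h5 := (h4.image f.toImage f.toImage.continuous.continuousOn).closure
    rw [Set.top_eq_univ] at h5 ⊢
    rwa [Set.image_univ, f.toImage.denseRange.closure_range] at h5
  refine ⟨f.image, f.imageι, inferInstance, isIntegral_of_irreducibleSpace_of_isReduced _, ?_⟩
  rw [Scheme.IdealSheafData.range_subschemeι, Scheme.Hom.support_ker,
    Scheme.range_fromSpecResidueField]

/-- A closed subscheme with the support `C`. -/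
theorem exists_closed {X : Scheme.{0}} (C : Set X) (hC : IsClosed C) :
    ∃ (Z : Scheme.{0}) (i : Z ⟶ X), IsClosedImmersion i ∧ Set.range i = C := by
  refine ⟨_, (Scheme.IdealSheafData.vanishingIdeal ⟨C, hC⟩).subschemeι, inferInstance, ?_⟩
  rw [Scheme.IdealSheafData.range_subschemeι]
  exact Scheme.IdealSheafData.coe_support_vanishingIdeal ⟨C, hC⟩

end Pool.Agent.Helper9.RS
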