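import Pool.Agent.Helper9.RS.Defs
import Pool.Agent.Helper9.RS.TI

/-!
# Block T, part 1: membership in `P` by Noetherian induction
-/

set_option autoImplicit false

namespace Pool.Agent.Helper9.RS

open AlgebraicGeometry CategoryTheory Limits TopologicalSpace Pool.Agent.Helper45.LG
  Pool.Agent.Helper45.LS

theorem arithmetic_of_isClosedImmersion {X Z : Scheme.{0}} (hX : Arithmetic X) (i : Z ⟶ X)
    (hi : IsClosedImmersion i) : Arithmetic Z := by
  obtain ⟨f, h1, h2, h3⟩ := hX
  exact ⟨i ≫ f, inferInstance, inferInstance, inferInstance⟩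

theorem isNoetherian_of_arithmetic {X : Scheme.{0}} (hX : Arithmetic X) : IsNoetherian X := by
  obtain ⟨f, h1, h2, h3⟩ := hX
  have h4 : IsLocallyNoetherian X := LocallyOfFiniteType.isLocallyNoetherian f
  have h5 : CompactSpace X := QuasiCompact.compactSpace_of_compactSpace f
  exact {}

theorem arithmetic_opens {X : Scheme.{0}} (hX : Arithmetic X) (U : X.Opens) :
    Arithmetic U.toScheme := by
  have h4 := isNoetherian_of_arithmetic hX
  obtain ⟨f, h1, h2, h3⟩ := hX
  exact ⟨U.ι ≫ f, inferInstance, inferInstance, inferInstance⟩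

/-- an open neighbourhood of a generic point which is irreducible -/
theorem exists_irreducible_nhd (Z : Scheme.{0}) [IsNoetherian Z] [Nonempty Z] :
    ∃ (η : Z) (N : Z.Opens), η ∈ N ∧ (N : Set Z) ⊆ closure {η} := by
  obtain ⟨z⟩ := ‹Nonempty Z›
  have hS := irreducibleComponent_mem_irreducibleComponents z
  set S := irreducibleComponent z with hSdef
  obtain ⟨η, hη⟩ := QuasiSober.sober hS.1 (isClosed_of_mem_irreducibleComponents S hS)
  refine ⟨η, Scheme.irreducibleComponentOpen Z S, ?_, ?_⟩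
  · rintro ⟨W, hW, hηW⟩
    have hcl : S ⊆ W := by
      rw [← hη.def]
      exact (isClosed_of_mem_irreducibleComponents W hW.1).closure_subset_iff.2
        (Set.singleton_subset_iff.2 hηW)
    exact hW.2 (Set.Subset.antisymm (hS.2 hW.1.1 hcl) hcl)
  · intro x hx
    rw [hη.def]
    by_contra hxS
    refine hx ⟨irreducibleComponent x, ⟨irreducibleComponent_mem_irreducibleComponents x, ?_⟩,
      mem_irreducibleComponent⟩
    intro h
    exact hxS (h ▸ mem_irreducibleComponent)

theorem mem_opens_of_closed {P : Scheme.{0} → Prop} (hP : MorinClosed P) {Z : Scheme.{0}}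
    (hZ : Arithmetic Z)
    (IH : ∀ (D : Scheme.{0}) (d : D ⟶ Z), IsClosedImmersion d → Set.range d ≠ Set.univ → P D)
    (D : Scheme.{0}) (d : D ⟶ Z) (hd : IsClosedImmersion d) (hr : Set.range d ≠ Set.univ)
    (T : D.Opens) : P T.toScheme := by
  obtain ⟨D₂, d₂, hd₂, hr₂⟩ := exists_closed ((T : Set D)ᶜ) T.2.isClosed_compl
  refine hP.opn D₂ D T.toScheme d₂ T.ι (arithmetic_of_isClosedImmersion hZ d hd)
    ⟨hd₂, inferInstance, ?_⟩ (IH D d hd hr) (IH D₂ (d₂ ≫ d) inferInstance ?_)
  · rw [hr₂, compl_compl, Scheme.Opens.range_ι]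
  · intro h
    refine hr (Set.univ_subset_iff.1 ?_)
    rw [← h]
    rintro _ ⟨x, rfl⟩
    exact ⟨d₂ x, by simp⟩

theorem mem_step {P : Scheme.{0} → Prop} (hP : MorinClosed P) {Z : Scheme.{0}}
    (hZ : Arithmetic Z) [Nonempty Z]
    (h : ∀ (Z₁ : Scheme.{0}) (j : Z₁ ⟶ Z), IsClosedImmersion j → IsIntegral Z₁ →
      ∃ U : Z₁.Opens, Nonempty U ∧ P U.toScheme)
    (IH : ∀ (D : Scheme.{0}) (d : D ⟶ Z), IsClosedImmersion d → Set.range d ≠ Set.univ → P D) :
    P Z := by
  have hN := isNoetherian_of_arithmetic hZ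
  obtain ⟨η, N, hηN, hNη⟩ := exists_irreducible_nhd Z
  obtain ⟨Z₁, j, hj, hint, hjr⟩ := exists_integral_closed η
  obtain ⟨U, ⟨⟨u, hu⟩⟩, hPU⟩ := h Z₁ j hj hint
  have hZ₁ := arithmetic_of_isClosedImmersion hZ j hj
  obtain ⟨ξ, hξ⟩ : ∃ ξ : Z₁, j ξ = η := by
    have : η ∈ Set.range j := by
      rw [hjr]
      exact subset_closure rfl
    exact this
  have hind : Topology.IsInducing j := j.isClosedEmbedding.isInducing
  obtain ⟨O, hO, hOU⟩ := hind.isOpen_iff.1 U.2
  -- `ξ` is in `U`
  have hξU : ξ ∈ U := by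
    have h1 : j u ∈ closure {η} := by
      rw [← hjr]
      exact ⟨u, rfl⟩
    have h2 : j u ∈ O := by
      have : u ∈ j ⁻¹' O := by
        rw [hOU]
        exact hu
      exact this
    obtain ⟨y, hy, hy'⟩ := mem_closure_iff.1 h1 O hO h2
    rw [Set.mem_singleton_iff] at hy'
    subst hy'
    have : ξ ∈ j ⁻¹' O := by
      change j ξ ∈ O
      rw [hξ]
      exact hy
    rw [hOU] at this
    exact this
  let O' : Z.Opens := ⟨O, hO⟩
  let W : Z.Opens := N ⊓ O'
  have hηO : η ∈ O := by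
    have : ξ ∈ j ⁻¹' O := by
      rw [hOU]
      exact hξU
    rw [← hξ]
    exact this
  have hηW : η ∈ W := ⟨hηN, hηO⟩
  -- the open subscheme `W₁` of `Z₁`
  let W₁ : Z₁.Opens := j ⁻¹ᵁ W
  have hW₁U : W₁ ≤ U := by
    intro x hx
    have : x ∈ j ⁻¹' O := hx.2
    rw [hOU] at this
    exact this
  have hPW₁ : P W₁.toScheme := by
    obtain ⟨D, d, hd, hdr⟩ := exists_closed ((W₁ : Set Z₁)ᶜ) W₁.2.isClosed_compl
    have hPT : P (d ⁻¹ᵁ U).toScheme := by
      refine mem_opens_of_closed hP hZ IH D (d ≫ j) inferInstance ?_ _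
      intro h1
      have h2 : η ∈ Set.range (d ≫ j) := by
        rw [h1]
        trivial
      obtain ⟨x, hx⟩ := h2
      have h3 : d x ∈ (W₁ : Set Z₁)ᶜ := by
        rw [← hdr]
        exact ⟨x, rfl⟩
      apply h3
      change j (d x) ∈ W
      have h4 : j (d x) = η := by
        rw [← hx]
        simp
      rw [h4]
      exact hηW
    refine hP.opn _ U.toScheme _ (d ∣_ U) (Z₁.homOfLE hW₁U) (arithmetic_opens hZ₁ U)
      ⟨inferInstance, inferInstance, ?_⟩ hPU hPT
    have hrest : ∀ t : (d ⁻¹ᵁ U).toScheme, U.ι ((d ∣_ U) t) = d ((d ⁻¹ᵁ U).ι t) := by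
      intro t
      have h1 := congrArg (fun φ : (d ⁻¹ᵁ U).toScheme ⟶ Z₁ => φ t) (morphismRestrict_ι d U)
      simpa using h1
    have hle : ∀ y : W₁.toScheme, U.ι (Z₁.homOfLE hW₁U y) = W₁.ι y := by
      intro y
      have h1 := congrArg (fun φ : W₁.toScheme ⟶ Z₁ => φ y) (Z₁.homOfLE_ι hW₁U)
      simpa using h1
    ext x
    constructor
    · rintro ⟨y, rfl⟩ ⟨t, ht⟩
      have h1 := congrArg U.ι ht
      rw [hrest, hle] at h1
      have h2 : d ((d ⁻¹ᵁ U).ι t) ∈ (W₁ : Set Z₁)ᶜ := by
        rw [← hdr]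
        exact ⟨_, rfl⟩
      rw [h1] at h2
      exact h2 y.2
    · intro hx
      have hxW : U.ι x ∈ W₁ := by
        by_contra hxW
        have h2 : U.ι x ∈ Set.range d := by
          rw [hdr]
          exact hxW
        obtain ⟨t, ht⟩ := h2
        have htU : t ∈ d ⁻¹ᵁ U := by
          change d t ∈ U
          rw [ht]
          exact x.2
        refine hx ⟨⟨t, htU⟩, U.ι.isOpenEmbedding.injective ?_⟩
        rw [hrest]
        exact ht
      refine ⟨⟨U.ι x, hxW⟩, U.ι.isOpenEmbedding.injective ?_⟩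
      rw [hle]
      rfl
  have hPW : P W.toScheme := by
    have h1 : IsEmpty (⊥ : W.toScheme.Opens).toScheme := ⟨fun x => x.2⟩
    have hrest : ∀ t : (j ⁻¹ᵁ W).toScheme, W.ι ((j ∣_ W) t) = j ((j ⁻¹ᵁ W).ι t) := by
      intro t
      have h1 := congrArg (fun φ : (j ⁻¹ᵁ W).toScheme ⟶ Z => φ t) (morphismRestrict_ι j W)
      simpa using h1
    refine hP.glue W₁.toScheme W.toScheme _ (j ∣_ W) (⊥ : W.toScheme.Opens).ι
      (arithmetic_opens hZ W) ⟨inferInstance, inferInstance, ?_⟩ hPW₁ (hP.empty _ h1)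
    rw [Scheme.Opens.range_ι]
    have hsurj : Set.range (j ∣_ W) = Set.univ := by
      rw [Set.eq_univ_iff_forall]
      intro x
      have hx : W.ι x ∈ Set.range j := by
        rw [hjr]
        exact hNη x.2.1
      obtain ⟨t, ht⟩ := hx
      have htW : t ∈ j ⁻¹ᵁ W := by
        change j t ∈ W
        rw [ht]
        exact x.2
      refine ⟨⟨t, htW⟩, W.ι.isOpenEmbedding.injective ?_⟩
      rw [hrest]
      exact ht
    rw [hsurj, Set.compl_univ]
    rfl
  obtain ⟨D, d, hd, hdr⟩ := exists_closed ((W : Set Z)ᶜ) W.2.isClosed_compl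
  refine hP.glue D Z W.toScheme d W.ι hZ ⟨hd, inferInstance, ?_⟩ (IH D d hd ?_) hPW
  · rw [hdr, compl_compl, Scheme.Opens.range_ι]
  · rw [hdr]
    intro h1
    have : η ∈ (W : Set Z)ᶜ := by
      rw [h1]
      trivial
    exact this hηW

theorem mem_of_generic {P : Scheme.{0} → Prop} (hP : MorinClosed P) {X : Scheme.{0}}
    (hX : Arithmetic X)
    (h : ∀ (Z : Scheme.{0}) (i : Z ⟶ X), IsClosedImmersion i → IsIntegral Z →
      ∃ U : Z.Opens, Nonempty U ∧ P U.toScheme) : P X := by
  have hN := isNoetherian_of_arithmetic hX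
  have key : ∀ C : Closeds X, ∀ (Z : Scheme.{0}) (i : Z ⟶ X), IsClosedImmersion i →
      Set.range i = C → P Z := by
    intro C
    induction C using WellFoundedLT.induction with
    | ind C IH =>
      intro Z i hi hr
      rcases isEmpty_or_nonempty Z with hZ | hZ
      · exact hP.empty Z hZ
      refine mem_step hP (arithmetic_of_isClosedImmersion hX i hi)
        (fun Z₁ j hj hint => h Z₁ (j ≫ i) inferInstance hint) ?_
      intro D d hd hdr
      have hcl : IsClosed (Set.range (d ≫ i)) := (d ≫ i).isClosedEmbedding.isClosed_range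
      refine IH ⟨Set.range (d ≫ i), hcl⟩ ?_ D (d ≫ i) inferInstance rfl
      refine lt_of_le_of_ne ?_ ?_
      · intro x hx
        obtain ⟨y, rfl⟩ := hx
        have : i (d y) ∈ Set.range i := ⟨d y, rfl⟩
        rw [hr] at this
        simpa using this
      · intro heq
        apply hdr
        rw [Set.eq_univ_iff_forall]
        intro z
        have h1 : i z ∈ (C : Set X) := by
          rw [← hr]
          exact ⟨z, rfl⟩
        rw [← heq] at h1
        obtain ⟨y, hy⟩ := h1
        have h2 : i (d y) = i z := by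
          rw [← hy]
          simp
        exact ⟨y, i.isClosedEmbedding.injective h2⟩
  exact key ⊤ X (𝟙 X) inferInstance (by simp)

end Pool.Agent.Helper9.RS
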