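import Pool.Agent.Helper9.RS.L1
import Pool.Agent.Helper9.RS.KD1
import Pool.Agent.Helper9.RS.TM

/-!
# Closed fibres in the geometric class
-/

set_option autoImplicit false

namespace Pool.Agent.Helper9.RS

open AlgebraicGeometry CategoryTheory Limits TopologicalSpace
open Pool.Agent.Helper45.LG Pool.Agent.Helper45.LS

/-- The closed fibre at a maximal ideal. -/
theorem mem_fibre_of_geometric {P : Scheme.{0} → Prop} (hP : FlatClosed P) {R : Type}
    [CommRing R] [IsDomain R] (hR : Algebra.FiniteType ℤ R) {X : Scheme.{0}}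
    (s : X ⟶ Spec (CommRingCat.of R)) (hs : IsFT s) (p : Ideal R) [hp : p.IsMaximal]
    (h : GeometricScheme (fun _ => False) (AlgebraicClosure p.ResidueField)
      (ofibTo s (algebraMap R (AlgebraicClosure p.ResidueField)))) :
    P (ofib s (Ideal.Quotient.mk p)) := by
  let k : Type := R ⧸ p
  let K : Type := AlgebraicClosure p.ResidueField
  have hk : Algebra.FiniteType ℤ k := finiteType_of_surj hR (Ideal.Quotient.mk p)
    Ideal.Quotient.mk_surjective
  have hkf : IsField k := (Ideal.Quotient.maximal_ideal_iff_isField_quotient p).1 hp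
  have hdim : ringKrullDim k ≤ 1 := by
    rw [ringKrullDim_eq_zero_of_isField hkf]
    exact zero_le_one
  have hK : Kron 0 K := kron_algebraic (K := p.ResidueField) (L := K) inferInstance
    (kron_of_dim (R := k) (K := p.ResidueField) hk hdim)
  have hinj : Function.Injective (algebraMap k K) := by
    rw [IsScalarTower.algebraMap_eq k p.ResidueField K]
    exact (algebraMap p.ResidueField K).injective.comp
      (IsFractionRing.injective k p.ResidueField)
  have halg : Algebra.IsAlgebraic k K := by
    exact (IsFractionRing.comap_isAlgebraic_iff (A := k) (K := p.ResidueField) (C := K)).2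
      inferInstance
  have hρ : (algebraMap k K).comp (Ideal.Quotient.mk p) = algebraMap R K := by
    rfl
  have h2 : GeometricScheme (fun _ => False) K
      (ofibTo (ofibTo s (Ideal.Quotient.mk p)) (algebraMap k K)) := by
    let e := (isPullback_ofib (ofibTo s (Ideal.Quotient.mk p)) (algebraMap k K)).isoIsPullback _ _
      (isPullback_ofibMap s (algebraMap k K) hρ)
    have he : e.hom ≫ ofibTo s (algebraMap R K) =
        ofibTo (ofibTo s (Ideal.Quotient.mk p)) (algebraMap k K) :=
      IsPullback.isoIsPullback_hom_snd _ _ _ _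
    rw [← he]
    exact GeometricScheme.iso _ e h
  obtain ⟨b, hb, h3⟩ := exists_open hP hk hinj halg hK (ofibTo s (Ideal.Quotient.mk p))
    (hs.of_isPullback (isPullback_ofib s _)) h2
  have hbu : IsUnit b := by
    obtain ⟨c, hc⟩ := hkf.mul_inv_cancel hb
    exact IsUnit.of_mul_eq_one _ hc
  let u : k ≃+* Localization.Away b :=
    (IsLocalization.atUnit k (Localization.Away b) b hbu).toRingEquiv
  have hu : (u : k →+* Localization.Away b) = algebraMap k (Localization.Away b) := by
    ext x
    exact (IsLocalization.atUnit k (Localization.Away b) b hbu).commutes x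
  have h4 : IsIso (Spec.map (CommRingCat.ofHom (algebraMap k (Localization.Away b)))) := by
    rw [← hu]
    exact inferInstanceAs (IsIso (specEquiv u).hom)
  have h5 : IsIso (ofibFst (ofibTo s (Ideal.Quotient.mk p)) (algebraMap k (Localization.Away b))) :=
    MorphismProperty.of_isPullback (P := MorphismProperty.isomorphisms _)
      (isPullback_ofib _ _).flip h4
  have h6 : Arithmetic (ofib s (Ideal.Quotient.mk p)) :=
    arithmetic_of_isFT hk (hs.of_isPullback (isPullback_ofib s _))
  refine hP.iso _ _ ?_ ⟨asIso (ofibFst (ofibTo s (Ideal.Quotient.mk p))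
    (algebraMap k (Localization.Away b)))⟩ h3
  refine arithmetic_ofib h6 ?_
  rw [← hu]
  exact RingHom.FiniteType.of_surjective _ u.surjective

/-- The image of the closed fibre. -/
theorem range_ofibFst_quotient {R : Type} [CommRing R] {X : Scheme.{0}}
    (s : X ⟶ Spec (CommRingCat.of R)) (x : Spec (CommRingCat.of R)) (hx : x.asIdeal.IsMaximal) :
    Set.range (ofibFst s (Ideal.Quotient.mk x.asIdeal)) = s ⁻¹' {x} := by
  have h1 : Set.range (ofibFst s (Ideal.Quotient.mk x.asIdeal)) =
      s ⁻¹' Set.range (Spec.map (CommRingCat.ofHom (Ideal.Quotient.mk x.asIdeal))) :=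
    Scheme.Pullback.range_fst _ _
  rw [h1]
  congr 1
  have h2 : Set.range (PrimeSpectrum.comap (Ideal.Quotient.mk x.asIdeal)) =
      PrimeSpectrum.zeroLocus (RingHom.ker (Ideal.Quotient.mk x.asIdeal)) :=
    range_comap_of_surjective _ _ Ideal.Quotient.mk_surjective
  refine h2.trans ?_
  rw [Ideal.mk_ker]
  refine Set.Subset.antisymm ?_ ?_
  · intro y h3
    exact PrimeSpectrum.ext (hx.eq_of_le y.isPrime.ne_top h3).symm
  · rintro _ rfl
    intro r hr
    exact hr

/-- Removing finitely many closed points of the base. -/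
theorem mem_of_finite_compl {P : Scheme.{0} → Prop} (hP : MorinClosed P) {R : Type}
    [CommRing R] {X : Scheme.{0}} (hX : Arithmetic X) (s : X ⟶ Spec (CommRingCat.of R))
    (F : Set (Spec (CommRingCat.of R))) (hF : F.Finite)
    (h : ∀ x ∈ F, (x.asIdeal).IsMaximal ∧ P (ofib s (Ideal.Quotient.mk x.asIdeal))) :
    ∀ O : (Spec (CommRingCat.of R)).Opens, (O : Set (Spec (CommRingCat.of R)))ᶜ = F →
      P (s ⁻¹ᵁ O).toScheme → P X := by
  induction F, hF using Set.Finite.induction_on with
  | empty =>
    intro O hO hPO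
    have hO' : O = ⊤ := by
      ext x
      constructor
      · intro _
        trivial
      · intro _
        by_contra hx
        have : x ∈ (O : Set (Spec (CommRingCat.of R)))ᶜ := hx
        rw [hO] at this
        exact this
    subst hO'
    exact hP.iso _ _ (arithmetic_opens hX _) ⟨X.topIso⟩ hPO
  | insert hx hF ih =>
    rename_i x F
    intro O hO hPO
    have hcl : IsClosed F := by
      have h1 : F = ⋃ y ∈ F, {y} := (Set.biUnion_of_singleton F).symm
      rw [h1]
      refine hF.isClosed_biUnion fun y hy => ?_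
      exact (PrimeSpectrum.isClosed_singleton_iff_isMaximal y).2
        (h y (Set.mem_insert_of_mem _ hy)).1
    let O' : (Spec (CommRingCat.of R)).Opens := ⟨Fᶜ, hcl.isOpen_compl⟩
    refine ih (fun y hy => h y (Set.mem_insert_of_mem _ hy)) O' (compl_compl F) ?_
    obtain ⟨hmax, hPx⟩ := h x (Set.mem_insert _ _)
    have hr := range_ofibFst_quotient s x hmax
    have hO1 : ∀ y, y ∈ O ↔ y ≠ x ∧ y ∉ F := fun y => by
      have h2 : y ∈ (O : Set (Spec (CommRingCat.of R)))ᶜ ↔ y ∈ insert x F := by rw [hO]
      rw [Set.mem_compl_iff, SetLike.mem_coe, Set.mem_insert_iff] at h2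
      tauto
    have hle : s ⁻¹ᵁ O ≤ s ⁻¹ᵁ O' := fun z hz => ((hO1 _).1 hz).2
    have hsub : Set.range (ofibFst s (Ideal.Quotient.mk x.asIdeal)) ⊆
        Set.range (s ⁻¹ᵁ O').ι := by
      rw [hr, Scheme.Opens.range_ι]
      intro z hz
      have hz' : s z = x := hz
      show s z ∈ O'
      rw [hz']
      exact hx
    let i := IsOpenImmersion.lift (s ⁻¹ᵁ O').ι (ofibFst s (Ideal.Quotient.mk x.asIdeal)) hsub
    have hi : i ≫ (s ⁻¹ᵁ O').ι = ofibFst s (Ideal.Quotient.mk x.asIdeal) :=
      IsOpenImmersion.lift_fac _ _ _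
    have h0 : IsClosedImmersion (ofibFst s (Ideal.Quotient.mk x.asIdeal)) :=
      MorphismProperty.of_isPullback (isPullback_ofib s _).flip
        (IsClosedImmersion.spec_of_surjective _ Ideal.Quotient.mk_surjective)
    have h3 : IsClosedImmersion i := by
      rw [← hi] at h0
      exact IsClosedImmersion.of_comp i (s ⁻¹ᵁ O').ι
    refine hP.glue _ _ _ i (X.homOfLE hle) (arithmetic_opens hX _) ⟨h3, inferInstance, ?_⟩ hPx hPO
    ext z
    rw [Set.mem_compl_iff]
    have h4 : z ∈ Set.range i ↔ s z.1 = x := by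
      constructor
      · rintro ⟨w, rfl⟩
        have h5 : (i w).1 = ofibFst s (Ideal.Quotient.mk x.asIdeal) w := by
          rw [← hi]
          rfl
        have h6 : ofibFst s (Ideal.Quotient.mk x.asIdeal) w ∈
            Set.range (ofibFst s (Ideal.Quotient.mk x.asIdeal)) := ⟨w, rfl⟩
        rw [hr] at h6
        rw [h5]
        exact h6
      · intro h5
        have h6 : z.1 ∈ Set.range (ofibFst s (Ideal.Quotient.mk x.asIdeal)) := by
          rw [hr]
          exact h5
        obtain ⟨w, hw⟩ := h6
        refine ⟨w, Subtype.ext ?_⟩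
        rw [← hw, ← hi]
        rfl
    have h5 : z ∈ Set.range (X.homOfLE hle) ↔ s z.1 ∈ O := by
      constructor
      · rintro ⟨w, rfl⟩
        have h6 : (X.homOfLE hle w).1 = w.1 := Scheme.homOfLE_apply hle w
        rw [h6]
        exact w.2
      · intro h6
        exact ⟨⟨z.1, h6⟩, Subtype.ext (Scheme.homOfLE_apply hle ⟨z.1, h6⟩)⟩
    rw [h4, h5, hO1]
    have h7 : s z.1 ∉ F := z.2
    tauto

theorem mem_closed_fibre_geometric {P : Scheme.{0} → Prop} (hP : FlatClosed P) {R : Type}
    [CommRing R] [IsDomain R] (hR : Algebra.FiniteType ℤ R) (hdim : ringKrullDim R ≤ 1)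
    {X : Scheme.{0}} (s : X ⟶ Spec (CommRingCat.of R)) (hs : IsFT s)
    (h : ∀ (p : Ideal R) [p.IsPrime], p ≠ ⊥ → GeometricScheme (fun _ => False)
      (AlgebraicClosure p.ResidueField)
      (ofibTo s (algebraMap R (AlgebraicClosure p.ResidueField))))
    (b : R) (hb : b ≠ 0) (h1 : P (ofib s (algebraMap R (Localization.Away b)))) : P X := by
  have hX : Arithmetic X := arithmetic_of_isFT hR hs
  have hN : IsNoetherianRing R := isNoetherianRing_of_ft hR
  have hdim1 : Ring.KrullDimLE 1 R := Ring.krullDimLE_iff.2 (by exact_mod_cast hdim)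
  rw [Ring.krullDimLE_one_iff_of_noZeroDivisors] at hdim1
  let F : Set (Spec (CommRingCat.of R)) := PrimeSpectrum.zeroLocus {b}
  have hmem : ∀ x ∈ F, b ∈ x.asIdeal := fun x hx => hx (Set.mem_singleton b)
  have hne : ∀ x ∈ F, x.asIdeal ≠ ⊥ := fun x hx h0 => hb (by
    have h2 := hmem x hx
    rw [h0] at h2
    exact h2)
  have hmax : ∀ x ∈ F, (x.asIdeal).IsMaximal := fun x hx => hdim1 _ (hne x hx) x.isPrime
  have hF : F.Finite := by
    refine Set.Finite.of_finite_image (f := fun x => x.asIdeal) ?_
      (fun x _ y _ hxy => PrimeSpectrum.ext hxy)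
    refine (Ideal.finite_minimalPrimes_of_isNoetherianRing R (Ideal.span {b})).subset ?_
    rintro _ ⟨x, hx, rfl⟩
    refine ⟨⟨x.isPrime, (Ideal.span_le).2 hx⟩, ?_⟩
    rintro q ⟨hq1, hq2⟩ hq3
    have hq : (⟨q, hq1⟩ : PrimeSpectrum R) ∈ PrimeSpectrum.zeroLocus {b} :=
      (Ideal.span_le).1 hq2
    exact ((hmax _ hq).eq_of_le x.isPrime.ne_top hq3).ge
  let O : (Spec (CommRingCat.of R)).Opens := PrimeSpectrum.basicOpen b
  have hO : (O : Set (Spec (CommRingCat.of R)))ᶜ = F := by
    have h2 : (O : Set (Spec (CommRingCat.of R))) = (PrimeSpectrum.zeroLocus {b})ᶜ :=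
      PrimeSpectrum.basicOpen_eq_zeroLocus_compl b
    rw [h2]
    exact compl_compl (PrimeSpectrum.zeroLocus {b})
  refine mem_of_finite_compl hP.toMorinClosed hX s F hF (fun x hx => ⟨hmax x hx, ?_⟩) O hO ?_
  · have hxm := hmax x hx
    exact mem_fibre_of_geometric hP hR s hs x.asIdeal (h x.asIdeal (hne x hx))
  · have h2 : IsOpenImmersion (Spec.map (CommRingCat.ofHom (algebraMap R (Localization.Away b)))) :=
      IsOpenImmersion.of_isLocalization b
    have h3 : IsOpenImmersion (ofibFst s (algebraMap R (Localization.Away b))) :=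
      MorphismProperty.of_isPullback (isPullback_ofib s _).flip h2
    have h4 : Set.range (ofibFst s (algebraMap R (Localization.Away b))) =
        Set.range (s ⁻¹ᵁ O).ι := by
      have h5 : Set.range (ofibFst s (algebraMap R (Localization.Away b))) =
          s ⁻¹' Set.range (Spec.map (CommRingCat.ofHom (algebraMap R (Localization.Away b)))) :=
        Scheme.Pullback.range_fst _ _
      have h6 : Set.range (Spec.map (CommRingCat.ofHom (algebraMap R (Localization.Away b)))) =
          (O : Set (Spec (CommRingCat.of R))) :=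
        PrimeSpectrum.localization_away_comap_range (Localization.Away b) b
      rw [h5, h6, Scheme.Opens.range_ι]
      rfl
    refine hP.iso _ _ (arithmetic_ofib hX ?_) ⟨IsOpenImmersion.isoOfRangeEq _ _ h4⟩ h1
    rw [RingHom.finiteType_algebraMap]
    have h7 : Algebra.FinitePresentation R (Localization.Away b) :=
      IsLocalization.Away.finitePresentation b
    infer_instance

end Pool.Agent.Helper9.RS
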