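import Pool.Agent.Helper87.CC.Good

/-!
# Finite free extensions of localisations inside an algebraic extension, with minimality
-/

namespace Pool.Agent.Helper9.RS

open Module Pool.Agent.Helper87.CC

section

variable {D F K : Type} [CommRing D] [IsDomain D] [Field F] [Algebra D F]
  [IsFractionRing D F] [Field K] [Algebra F K] [Algebra D K] [IsScalarTower D F K]

/-- finitely many elements of an algebraic extension lie in a finite free extension of a
localisation -/
theorem exists_good_min [IsNoetherianRing D] [Algebra.IsAlgebraic F K] (T : Finset K) :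
    ∃ (a : D) (_ : a ≠ 0) (B : Subring K) (_ : Algebra (Localization.Away a) B),
      (∀ x ∈ T, x ∈ B) ∧
      (∀ d : D, ((algebraMap (Localization.Away a) B (algebraMap D _ d) : B) : K) =
        algebraMap D K d) ∧
      Module.Finite (Localization.Away a) B ∧ Module.Free (Localization.Away a) B ∧
      ∀ S : Subring K, (∀ d : D, algebraMap D K d ∈ S) → (∀ x ∈ T, x ∈ S) →
        (algebraMap D K a)⁻¹ ∈ S → B ≤ S := by
  classical
  have hDK : Algebra.IsAlgebraic D K :=
    (IsFractionRing.comap_isAlgebraic_iff (A := D) (K := F) (C := K)).2 inferInstance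
  obtain ⟨c, hc, hcT⟩ := Algebra.IsAlgebraic.exists_integral_multiples D (A := K) T
  set T' : Set K := (fun t => c • t) '' (T : Set K) with hT'
  have hfg : (Subalgebra.toSubmodule (Algebra.adjoin D T')).FG := by
    apply fg_adjoin_of_finite ((Finset.finite_toSet T).image _)
    rintro _ ⟨t, ht, rfl⟩
    exact hcT t ht
  obtain ⟨G, hG⟩ := hfg
  obtain ⟨b, hbG, hb1, hb2⟩ := exists_linearIndependent F (G : Set K)
  have hr : ∀ g : K, ∃ r : D, r ≠ 0 ∧ (g ∈ G → r • g ∈ Submodule.span D b) := by
    intro g
    by_cases hg : g ∈ G
    · obtain ⟨r, hr, h⟩ := exists_smul_mem_span (D := D) (F := F) (b := b) (x := g) (by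
        rw [hb1]
        exact Submodule.subset_span hg)
      exact ⟨r, hr, fun _ => h⟩
    · exact ⟨1, one_ne_zero, fun h => absurd h hg⟩
  choose r hr0 hr1 using hr
  set R : D := ∏ g ∈ G, r g with hR
  have hR0 : R ≠ 0 := Finset.prod_ne_zero_iff.2 fun g _ => hr0 g
  have hR1 : ∀ g ∈ G, R • g ∈ Submodule.span D b := by
    intro g hg
    rw [hR, ← Finset.prod_erase_mul _ _ hg, mul_smul]
    exact Submodule.smul_mem _ _ (hr1 g hg)
  set a : D := c * R with ha
  have ha0 : a ≠ 0 := mul_ne_zero hc hR0
  let L := Localization.Away a
  have hu : IsUnit (algebraMap D F a) := by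
    rw [isUnit_iff_ne_zero, Ne, IsFractionRing.to_map_eq_zero_iff]
    exact ha0
  let _ : Algebra L F := (IsLocalization.Away.lift (S := L) a hu).toAlgebra
  have hDLF : IsScalarTower D L F := IsScalarTower.of_algebraMap_eq fun d =>
    (IsLocalization.Away.lift_eq a hu d).symm
  let _ : Algebra L K := ((algebraMap F K).comp (algebraMap L F)).toAlgebra
  have hLFK : IsScalarTower L F K := IsScalarTower.of_algebraMap_eq fun _ => rfl
  have hDLK : IsScalarTower D L K := IsScalarTower.of_algebraMap_eq fun d => by
    rw [IsScalarTower.algebraMap_apply D F K, IsScalarTower.algebraMap_apply D L F]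
    rfl
  have hfr : IsFractionRing L F :=
    IsFractionRing.isFractionRing_of_isDomain_of_isLocalization (Submonoid.powers a) L F
  -- units
  have hunit : IsUnit (algebraMap D L a) := IsLocalization.Away.algebraMap_isUnit a
  have hmul : algebraMap D L a = algebraMap D L c * algebraMap D L R := map_mul _ c R
  have hcu : IsUnit (algebraMap D L c) := isUnit_of_mul_isUnit_left (hmul ▸ hunit)
  have hRu : IsUnit (algebraMap D L R) := isUnit_of_mul_isUnit_right (hmul ▸ hunit)
  -- the subalgebra
  let B : Subalgebra L K := Algebra.adjoin L T'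
  have hspanD : Submodule.span D (Submonoid.closure T' : Set K) = Submodule.span D (G : Set K) := by
    rw [← Algebra.adjoin_eq_span, hG]
  have hle : ∀ s : Set K, (Submodule.span D s : Set K) ⊆ Submodule.span L s := by
    intro s x hx
    exact Submodule.span_le_restrictScalars D L s hx
  have hBG : Subalgebra.toSubmodule B = Submodule.span L (G : Set K) := by
    rw [Algebra.adjoin_eq_span]
    apply le_antisymm
    · rw [Submodule.span_le]
      intro x hx
      apply hle
      rw [← hspanD]
      exact Submodule.subset_span hx
    · rw [Submodule.span_le]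
      intro x hx
      apply hle
      rw [hspanD]
      exact Submodule.subset_span hx
  have hBb : Subalgebra.toSubmodule B = Submodule.span L b := by
    rw [hBG]
    apply le_antisymm
    · rw [Submodule.span_le]
      intro g hg
      have h1 : algebraMap D L R • g ∈ Submodule.span L b := by
        rw [algebraMap_smul]
        exact hle _ (hR1 g hg)
      obtain ⟨u, hu⟩ := hRu
      rw [← hu] at h1
      have h2 := Submodule.smul_mem (Submodule.span L b) ((u⁻¹ : Lˣ) : L) h1
      rw [smul_smul, Units.inv_mul, one_smul] at h2
      exact h2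
    · exact Submodule.span_mono hbG
  have hbL : LinearIndependent L ((↑) : b → K) :=
    LinearIndependent.restrict_scalars (by
      intro x y hxy
      simp only [Algebra.smul_def, mul_one] at hxy
      exact IsFractionRing.injective L F hxy) hb2
  have hbfin : Finite b := (G.finite_toSet.subset hbG).to_subtype
  let bas : Basis b L (Submodule.span L (Set.range ((↑) : b → K))) := Basis.span hbL
  have hrange : Set.range ((↑) : b → K) = b := Subtype.range_coe
  have heq : Submodule.span L (Set.range ((↑) : b → K)) = Subalgebra.toSubmodule B := by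
    rw [hrange, hBb]
  have e : (Submodule.span L (Set.range ((↑) : b → K))) ≃ₗ[L] B :=
    LinearEquiv.ofEq _ _ heq
  have hfree : Module.Free L B := Module.Free.of_basis (bas.map e)
  have hfinite : Module.Finite L B := Module.Finite.of_basis (bas.map e)
  refine ⟨a, ha0, B.toSubring, inferInstanceAs (Algebra L B), ?_, ?_, hfinite, hfree, ?_⟩
  · intro x hx
    have h1 : c • x ∈ B := Algebra.subset_adjoin ⟨x, hx, rfl⟩
    obtain ⟨u, hu⟩ := hcu
    have h2 : (u : L) • x ∈ B := by
      rw [hu, algebraMap_smul]
      exact h1
    have h3 := B.smul_mem h2 ((u⁻¹ : Lˣ) : L)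
    rw [smul_smul, Units.inv_mul, one_smul] at h3
    exact h3
  · intro d
    have h1 : ((algebraMap L B (algebraMap D L d) : B) : K) = algebraMap L K (algebraMap D L d) :=
      rfl
    rw [← IsScalarTower.algebraMap_apply D L K] at h1
    exact h1
  · intro S hD hT hinv x hx
    have hL : ∀ l : L, algebraMap L K l ∈ S := by
      intro l
      obtain ⟨n, d, hd⟩ := IsLocalization.Away.surj a l
      have h1 : algebraMap L K l * algebraMap D K a ^ n = algebraMap D K d := by
        rw [IsScalarTower.algebraMap_apply D L K a, ← map_pow, ← map_mul, hd,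
          ← IsScalarTower.algebraMap_apply D L K]
      have haK : algebraMap D K a ≠ 0 := by
        rw [IsScalarTower.algebraMap_apply D L K]
        exact (hunit.map (algebraMap L K)).ne_zero
      have h2 : algebraMap L K l = algebraMap D K d * ((algebraMap D K a)⁻¹) ^ n := by
        rw [← h1, mul_assoc, ← mul_pow, mul_inv_cancel₀ haK, one_pow, mul_one]
      rw [h2]
      exact S.mul_mem (hD d) (S.pow_mem hinv n)
    change x ∈ B at hx
    induction hx using Algebra.adjoin_induction with
    | mem x hx =>
      obtain ⟨t, ht, rfl⟩ := hx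
      change c • t ∈ S
      rw [Algebra.smul_def]
      exact S.mul_mem (hD c) (hT t ht)
    | algebraMap l => exact hL l
    | add x y _ _ hx hy => exact S.add_mem hx hy
    | mul x y _ _ hx hy => exact S.mul_mem hx hy

end

end Pool.Agent.Helper9.RS
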