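import Pool.Agent.Helper9.RS.KD2
import Pool.Agent.Helper9.RS.S1
import Pool.Agent.Helper45.LS.Main

/-!
# Block L1: spreading out over an arithmetic curve
-/

set_option autoImplicit false

namespace Pool.Agent.Helper9.RS

open AlgebraicGeometry CategoryTheory Limits TopologicalSpace Filter
open Pool.Agent.Helper45.LG Pool.Agent.Helper45.LS

/-- Spreading out of schemes in the geometric class without seeds. -/
theorem spr_of_false {P : Scheme.{0} → Prop} (hP : MorinClosed P) {K : Type} [Field K]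
    {l : Filter (Subring K)} [l.NeBot] (hl : ∀ x : K, ∀ᶠ B in l, x ∈ B) (hft : ∀ᶠ B in l, FT B)
    (hB : ∀ᶠ B : Subring K in l, onRings P B)
    {X : Scheme.{0}} {f : X ⟶ Spec (CommRingCat.of K)}
    (h : GeometricScheme (fun _ => False) K f) : Spr P l f := by
  induction h with
  | empty f h => exact Spr.empty hP hl hft f h
  | base => exact Spr.base hP hl hft hB
  | seed f h =>
    obtain ⟨k, _, _, X₀, g, a, hk, -, -, -, -, h1⟩ := h
    exact (h1 k).elim
  | iso f e _ ih => exact Spr.of_iso e ih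
  | glue f i j h _ _ ih1 ih2 => exact Spr.glue hP hl hft h ih1 ih2
  | closed f i j hm h _ _ ih1 ih2 => exact Spr.closed hP hl hft hm h ih1 ih2
  | opn f i j hm h _ _ ih1 ih2 => exact Spr.opn hP hl hft hm h ih1 ih2
  | clopen f i hm h1 h2 _ ih => exact Spr.clopen hP hl hft i hm h1 h2 ih
  | line R hR _ ih => exact Spr.line hP hl hft hR ih
  | quotient f U V G ρ s hG hρ _ ih => exact Spr.free hP hl hft s hρ ih

/-- the property for all large finitely generated subrings -/
theorem exists_finset_of_geometric {P : Scheme.{0} → Prop} (hP : FlatClosed P) {K : Type}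
    [Field K] (hK : Kron 0 K) {X : Scheme.{0}} {f : X ⟶ Spec (CommRingCat.of K)}
    (h : GeometricScheme (fun _ => False) K f) {B₀ : Subring K} {Y₀ : Scheme.{0}}
    (y₀ : Y₀ ⟶ Spec (CommRingCat.of B₀)) (a : X ⟶ Y₀) (hB₀ : FT B₀) (hy : IsFT y₀)
    (H : IsPullback a f y₀ (toB B₀)) :
    ∃ T : Finset K, ∀ B : Subring K, FT B → (∀ x ∈ T, x ∈ B) → ∀ h : B₀ ≤ B, P (bc y₀ h) := by
  classical
  let S : Finset K → Set (Subring K) := fun T => {B | FT B ∧ ∀ x ∈ T, x ∈ B}
  have hdir : Directed (· ≥ ·) fun T => 𝓟 (S T) := by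
    intro T T'
    refine ⟨T ∪ T', ?_, ?_⟩
    · apply principal_mono.2
      rintro B ⟨h1, h2⟩
      exact ⟨h1, fun x hx => h2 x (Finset.mem_union_left _ hx)⟩
    · apply principal_mono.2
      rintro B ⟨h1, h2⟩
      exact ⟨h1, fun x hx => h2 x (Finset.mem_union_right _ hx)⟩
  have hne : (⨅ T, 𝓟 (S T)).NeBot := by
    apply iInf_neBot_of_directed' hdir
    intro T
    rw [principal_neBot_iff]
    exact ⟨adj B₀ T, ft_adj hB₀ T, fun x hx => mem_adj B₀ hx⟩
  have hl : ∀ x : K, ∀ᶠ B in ⨅ T, 𝓟 (S T), x ∈ B := fun x => by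
    have h1 : S {x} ∈ ⨅ T, 𝓟 (S T) := mem_iInf_of_mem {x} (mem_principal_self _)
    filter_upwards [h1] with B hB
    exact hB.2 x (Finset.mem_singleton_self x)
  have hft : ∀ᶠ B in ⨅ T, 𝓟 (S T), FT B := by
    have h1 : S ∅ ∈ ⨅ T, 𝓟 (S T) := mem_iInf_of_mem ∅ (mem_principal_self _)
    filter_upwards [h1] with B hB
    exact hB.1
  have hQB : ∀ᶠ B : Subring K in ⨅ T, 𝓟 (S T), onRings P B := by
    filter_upwards [hft] with B hB
    exact hP.dimOne B hB (dim_le_of_kron hB B.subtype Subtype.val_injective hK)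
  have h1 := spr_of_false hP.toMorinClosed hl hft hQB h B₀ Y₀ y₀ a hB₀ hy H
  obtain ⟨T, hT⟩ := (mem_iInf_of_directed hdir _).1 h1
  exact ⟨T, fun B hB hBT => mem_principal.1 hT ⟨hB, hBT⟩⟩

theorem ft_of_finite {A B : Type} [CommRing A] [CommRing B] [Algebra A B]
    (hA : Algebra.FiniteType ℤ A) [Module.Finite A B] : Algebra.FiniteType ℤ B :=
  Algebra.FiniteType.trans (S := A) hA inferInstance

theorem exists_open {P : Scheme.{0} → Prop} (hP : FlatClosed P) {R : Type} [CommRing R]
    [IsDomain R] (hR : Algebra.FiniteType ℤ R) {K : Type} [Field K] [Algebra R K]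
    (hinj : Function.Injective (algebraMap R K)) (halg : Algebra.IsAlgebraic R K) (hK : Kron 0 K)
    {X : Scheme.{0}} (s : X ⟶ Spec (CommRingCat.of R)) (hs : IsFT s)
    (h : GeometricScheme (fun _ => False) K (ofibTo s (algebraMap R K))) :
    ∃ b : R, b ≠ 0 ∧ P (ofib s (algebraMap R (Localization.Away b))) := by
  classical
  let B₀ : Subring K := (algebraMap R K).range
  let ρ₀ : R →+* B₀ := (algebraMap R K).rangeRestrict
  have hB₀ : FT B₀ := finiteType_of_surj hR ρ₀ (algebraMap R K).rangeRestrict_surjective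
  have hy : IsFT (ofibTo s ρ₀) := hs.of_isPullback (isPullback_ofib s ρ₀)
  have hρ : B₀.subtype.comp ρ₀ = algebraMap R K := rfl
  obtain ⟨T, hT⟩ := exists_finset_of_geometric hP hK h (ofibTo s ρ₀) (ofibMap s B₀.subtype hρ)
    hB₀ hy (isPullback_ofibMap s B₀.subtype hρ)
  have hfs : FaithfulSMul R K := (faithfulSMul_iff_algebraMap_injective R K).2 hinj
  let _ : Algebra (FractionRing R) K := FractionRing.liftAlgebra R K
  have hsc : IsScalarTower R (FractionRing R) K := FractionRing.isScalarTower_liftAlgebra R K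
  have halg' : Algebra.IsAlgebraic (FractionRing R) K :=
    (IsFractionRing.comap_isAlgebraic_iff (A := R) (K := FractionRing R) (C := K)).1 halg
  have hN : IsNoetherianRing R := isNoetherianRing_of_ft hR
  obtain ⟨b, hb, B, _, hTB, hcompat, hfin, hfree, -⟩ :=
    exists_good_min (D := R) (F := FractionRing R) (K := K) T
  refine ⟨b, hb, ?_⟩
  have hA := finiteType_away hR b
  have hB : FT B := ft_of_finite (A := Localization.Away b) hA
  have hle : B₀ ≤ B := by
    rintro _ ⟨r, rfl⟩
    rw [← hcompat r]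
    exact Subtype.property _
  have h1 : P (bc (ofibTo s ρ₀) hle) := hT B hB hTB hle
  have hX' : IsFT (ofibTo s (algebraMap R (Localization.Away b))) :=
    hs.of_isPullback (isPullback_ofib s _)
  refine hP.transfer (Localization.Away b) B _
    (ofibTo s (algebraMap R (Localization.Away b))) (arithmetic_of_isFT hA hX') ?_
  have H1 := (isPullback_ofib (ofibTo s (algebraMap R (Localization.Away b)))
    (algebraMap (Localization.Away b) B)).paste_horiz
    (isPullback_ofib s (algebraMap R (Localization.Away b)))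
  have H2 := (IsPullback.of_hasPullback (ofibTo s ρ₀) (incl hle)).paste_horiz
    (isPullback_ofib s ρ₀)
  have h2 : Spec.map (CommRingCat.ofHom (algebraMap (Localization.Away b) B)) ≫
      Spec.map (CommRingCat.ofHom (algebraMap R (Localization.Away b))) =
      incl hle ≫ Spec.map (CommRingCat.ofHom ρ₀) := by
    rw [incl, ← Spec.map_comp, ← Spec.map_comp, ← CommRingCat.ofHom_comp,
      ← CommRingCat.ofHom_comp]
    congr 2
    ext r
    exact hcompat r
  rw [h2] at H1
  exact hP.iso _ _ (arithmetic_of_isFT hB (isFT_bcs (ofibTo s ρ₀) hy hle))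
    ⟨H2.isoIsPullback _ _ H1⟩ h1

end Pool.Agent.Helper9.RS
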