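import Pool.Agent.Helper9.RS.N
import Pool.Agent.Helper9.RS.R

/-!
# Local rings of integral surfaces over an algebraically closed field
-/

set_option autoImplicit false

namespace Pool.Agent.Helper9.RS

open AlgebraicGeometry CategoryTheory Limits Pool.Agent.Helper45.LG Pool.Agent.Helper45.LS
open IsLocalRing

section

variable {K : Type} [Field K] {S : Scheme.{0}} (f : S ⟶ Spec (CommRingCat.of K))

/-- the structure map of the sections over an open subset -/
noncomputable def toSec (U : S.Opens) : K →+* Γ(S, U) :=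
  ((Scheme.ΓSpecIso (CommRingCat.of K)).inv ≫ f.appLE ⊤ U le_top).hom

theorem dim_stalk_eq {U : S.Opens} (hU : IsAffineOpen U) (x : U) :
    ringKrullDim (S.presheaf.stalk (x : S)) = (hU.primeIdealOf x).asIdeal.height := by
  have h1 := hU.isLocalization_stalk x
  exact IsLocalization.AtPrime.ringKrullDim_eq_height (hU.primeIdealOf x).asIdeal
    (S.presheaf.stalk (x : S))

theorem toSec_finiteType [LocallyOfFiniteType f] {U : S.Opens} (hU : IsAffineOpen U) :
    (toSec f U).FiniteType := by
  have h := f.finiteType_appLE (isAffineOpen_top (Spec (CommRingCat.of K))) hU le_top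
  have h2 : (Scheme.ΓSpecIso (CommRingCat.of K)).inv.hom.FiniteType :=
    RingHom.FiniteType.of_surjective _
      (ConcreteCategory.bijective_of_isIso (Scheme.ΓSpecIso (CommRingCat.of K)).inv).2
  exact h.comp h2

theorem toSec_germ {U : S.Opens} (hU : IsAffineOpen U) (s : S) (hs : s ∈ U) :
    (S.presheaf.germ U s hs).hom.comp (toSec f U) = toStalk f s := by
  have h1 := specMap_toStalk f s
  rw [← hU.fromSpecStalk_eq_fromSpecStalk hs, IsAffineOpen.fromSpecStalk, Category.assoc,
    ← IsAffineOpen.SpecMap_appLE_fromSpec f (isAffineOpen_top (Spec (CommRingCat.of K))) hU le_top,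
    IsAffineOpen.fromSpec_top, Scheme.isoSpec_Spec_inv, ← Spec.map_comp, ← Spec.map_comp] at h1
  have h2 := Spec.map_injective h1
  have h3 := congrArg CommRingCat.Hom.hom h2
  exact h3.symm

end

section M

variable {K : Type} [Field K] [IsAlgClosed K] {S : Scheme.{0}} [IsIntegral S]
  (f : S ⟶ Spec (CommRingCat.of K)) (hf : IsFT f) (h2 : PureAt 2 f (genericPoint S))

include hf h2

theorem dim_sec_le {U : S.Opens} (hU : IsAffineOpen U) (hne : (U : Set S).Nonempty) :
    ringKrullDim Γ(S, U) ≤ 2 := by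
  have := hf.lft
  obtain ⟨e, he⟩ := (pureAt_genericPoint_iff f 2).1 h2
  let _ : Algebra K Γ(S, U) := (toSec f U).toAlgebra
  have hft : Algebra.FiniteType K Γ(S, U) := toSec_finiteType f hU
  have hmem : genericPoint S ∈ U :=
    ((genericPoint_spec S).mem_open_set_iff U.isOpen).2 (by simpa using hne)
  have hg := toSec_germ f hU _ hmem
  have hinj : Function.Injective (S.presheaf.germ U (genericPoint S) hmem).hom :=
    germ_injective_of_isIntegral _ _ _
  let φ : Γ(S, U) →ₐ[K] FractionRing (MvPolynomial (Fin 2) K) :=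
    { (e.symm : S.functionField →+* _).comp (S.presheaf.germ U (genericPoint S) hmem).hom with
      commutes' := fun c => by
        change e.symm ((S.presheaf.germ U (genericPoint S) hmem).hom (toSec f U c)) = _
        rw [RingEquiv.symm_apply_eq, he, ← hg]
        rfl }
  have hφ : Function.Injective φ := e.symm.injective.comp hinj
  exact ringKrullDim_le_of_small hft (small_of_injective φ hφ (small_mvPolynomial 2))

theorem dim_stalk_le (s : S) : ringKrullDim (S.presheaf.stalk s) ≤ 2 := by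
  obtain ⟨U, hU, hs, -⟩ := exists_isAffineOpen_mem_and_subset (x := s) (U := ⊤) trivial
  have h3 := dim_sec_le f hf h2 hU ⟨s, hs⟩
  have h4 : ringKrullDim (S.presheaf.stalk s) = (hU.primeIdealOf ⟨s, hs⟩).asIdeal.height :=
    dim_stalk_eq hU ⟨s, hs⟩
  rw [h4]
  exact (Ideal.height_le_ringKrullDim_of_ne_top Ideal.IsPrime.ne_top').trans h3

theorem dim_stalk_le_one (s : S) (h : ¬ PureAt 0 f s) :
    ringKrullDim (S.presheaf.stalk s) ≤ 1 := by
  have := hf.lft
  obtain ⟨U, hU, hs, -⟩ := exists_isAffineOpen_mem_and_subset (x := s) (U := ⊤) trivial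
  have h3 := dim_sec_le f hf h2 hU ⟨s, hs⟩
  have h4 : ringKrullDim (S.presheaf.stalk s) = (hU.primeIdealOf ⟨s, hs⟩).asIdeal.height :=
    dim_stalk_eq hU ⟨s, hs⟩
  rw [h4]
  have hJ : JacobsonSpace S := LocallyOfFiniteType.jacobsonSpace f
  have hmax : ¬ (hU.primeIdealOf ⟨s, hs⟩).asIdeal.IsMaximal := by
    intro hm
    apply h
    rw [pureAt_zero_iff f hf]
    have h5 := hU.fromSpec.isOpenEmbedding.preimage_closedPoints
    have h6 : closedPoints (Spec Γ(S, U)) (hU.primeIdealOf ⟨s, hs⟩) :=
      (PrimeSpectrum.isClosed_singleton_iff_isMaximal _).2 hm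
    have h7 : IsClosed {hU.fromSpec (hU.primeIdealOf ⟨s, hs⟩)} := h5.ge h6
    rwa [hU.fromSpec_primeIdealOf] at h7
  obtain ⟨M, hM, hle⟩ := Ideal.exists_le_maximal (hU.primeIdealOf ⟨s, hs⟩).asIdeal
    Ideal.IsPrime.ne_top'
  have hlt : (hU.primeIdealOf ⟨s, hs⟩).asIdeal < M :=
    lt_of_le_of_ne hle fun h5 => hmax (h5 ▸ hM)
  have h5 : (M.height : WithBot ℕ∞) ≤ 2 :=
    (Ideal.height_le_ringKrullDim_of_ne_top hM.ne_top).trans h3
  have h6 : M.height ≤ 1 + 1 := WithBot.coe_le_coe.1 h5
  have h7 := (Ideal.height_add_one_le_of_lt_of_isPrime hlt).trans h6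
  have h8 : (hU.primeIdealOf ⟨s, hs⟩).asIdeal.height ≤ 1 :=
    (ENat.add_le_add_iff_right (by simp)).1 h7
  exact WithBot.coe_le_coe.2 h8

theorem isDVR_stalk (s : S) (h : ¬ PureAt 0 f s) (hs : s ≠ genericPoint S)
    (hreg : IsRegularLocalRing (S.presheaf.stalk s)) :
    IsDiscreteValuationRing (S.presheaf.stalk s) := by
  have h1 := dim_stalk_le_one f hf h2 s h
  rw [← hreg.spanFinrank_maximalIdeal] at h1
  have h3 : (maximalIdeal (S.presheaf.stalk s)).spanFinrank ≤ 1 := by exact_mod_cast h1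
  have h4 : ¬ IsField (S.presheaf.stalk s) := by
    intro h5
    apply hs
    have h6 : genericPoint S ∈ Set.range (S.fromSpecStalk s) := by
      rw [Scheme.range_fromSpecStalk]
      exact (genericPoint_spec S).specializes trivial
    obtain ⟨y, hy⟩ := h6
    have h7 : y = closedPoint (S.presheaf.stalk s) := by
      let _ := h5.toField
      exact Subsingleton.elim (α := PrimeSpectrum (S.presheaf.stalk s)) _ _
    rw [← hy, h7, Scheme.fromSpecStalk_closedPoint]
  refine ((IsDiscreteValuationRing.TFAE (S.presheaf.stalk s) h4).out 0 4).2 ?_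
  obtain ⟨t, ht1, ht2⟩ := Submodule.FG.exists_span_finset_card_eq_spanFinrank
    (IsNoetherian.noetherian (maximalIdeal (S.presheaf.stalk s)))
  have ht3 : t.card ≤ 1 := by omega
  rcases Finset.card_le_one_iff_subset_singleton.1 ht3 with ⟨u, hu⟩
  rw [← ht2]
  rcases Finset.subset_singleton_iff.1 hu with h5 | h5
  · exact ⟨⟨0, by simp [h5]⟩⟩
  · exact ⟨⟨u, by simp [h5]⟩⟩

theorem two_generators (s : S) (hreg : IsRegularLocalRing (S.presheaf.stalk s)) :
    ∃ u v : S.presheaf.stalk s, maximalIdeal (S.presheaf.stalk s) = Ideal.span {u, v} := by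
  have h1 := dim_stalk_le f hf h2 s
  rw [← hreg.spanFinrank_maximalIdeal] at h1
  have h3 : (maximalIdeal (S.presheaf.stalk s)).spanFinrank ≤ 2 := by exact_mod_cast h1
  obtain ⟨t, ht1, ht2⟩ := Submodule.FG.exists_span_finset_card_eq_spanFinrank
    (IsNoetherian.noetherian (maximalIdeal (S.presheaf.stalk s)))
  have ht3 : t.card ≤ 2 := by omega
  rw [← ht2]
  rcases Nat.lt_or_ge t.card 2 with h4 | h4
  · rcases Finset.card_le_one_iff_subset_singleton.1 (Nat.lt_succ_iff.1 h4) with ⟨u, hu⟩
    rcases Finset.subset_singleton_iff.1 hu with h5 | h5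
    · exact ⟨0, 0, by simp [h5]⟩
    · exact ⟨u, u, by simp [h5]⟩
  · classical
    obtain ⟨u, v, -, h5⟩ := Finset.card_eq_two.1 (le_antisymm ht3 h4)
    exact ⟨u, v, by simp [h5]⟩

end M

end Pool.Agent.Helper9.RS
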