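import Pool.Agent.Helper9.RS.Defs2
import Pool.Agent.Helper45.LS.Main

/-!
# Block TR: `FlatClosed` classes are `TransferClosed`
-/

set_option autoImplicit false

namespace Pool.Agent.Helper9.RS

open AlgebraicGeometry CategoryTheory Limits Pool.Agent.Helper45.LG Pool.Agent.Helper45.LS

theorem transferClosed {P : Scheme.{0} → Prop} (hP : FlatClosed P) : TransferClosed P where
  toMorinClosed := hP.toMorinClosed
  dimOne := hP.dimOne
  transfer A B _ _ _ _ _ _ hA hB := by
    have hft : Algebra.FiniteType ℤ B :=
      Algebra.FiniteType.trans (S := A) (finiteType_of_arithmetic hA) inferInstance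
    refine hP.transfer A B (Spec (CommRingCat.of A)) (𝟙 _) hA ?_
    refine hP.iso _ _ (arithmetic_of_finiteType hft) ⟨?_⟩ hB
    exact (asIso (pullback.snd (𝟙 (Spec (CommRingCat.of A)))
      (Spec.map (CommRingCat.ofHom (algebraMap A B))))).symm

end Pool.Agent.Helper9.RS
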