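import Pool.Agent.Helper9.RS.Defs2
import Mathlib

/-!
# Ruled residues

A local ring with a homomorphism to `E(t)`, `E` algebraically closed, whose maximal ideal meets
`E`, has a residue field which embeds in `k₁(u)` for the residue field `k₁` of a valuation ring
of `E`.
-/

set_option autoImplicit false

namespace Pool.Agent.Helper9.RS

open AlgebraicGeometry CategoryTheory Limits Pool.Agent.Helper45.LG Pool.Agent.Helper45.LS
open IsLocalRing

/-! ### Valuation rings and restriction to a subfield -/

private theorem mem_nonunits_iff32 {F : Type} [Field F] (W : ValuationSubring F) (w : W) :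
    residue W w = 0 ↔ (w : F) ∈ W.nonunits := by
  rw [residue_eq_zero_iff, ValuationSubring.coe_mem_nonunits_iff]

/-- The inclusion of the restricted valuation ring. -/
private noncomputable def jmap32 {E F : Type} [Field E] [Field F] (i : E →+* F)
    (W : ValuationSubring F) : (W.comap i) →+* W where
  toFun x := ⟨i x, x.2⟩
  map_one' := by ext; simp
  map_mul' x y := by ext; simp
  map_zero' := by ext; simp
  map_add' x y := by ext; simp

private theorem jmap_local32 {E F : Type} [Field E] [Field F] (i : E →+* F)
    (W : ValuationSubring F) : IsLocalHom (jmap32 i W) := by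
  refine ⟨fun x hx => ?_⟩
  obtain ⟨y, hy⟩ := hx.exists_right_inv
  have hy' : i (x : E) * (y : F) = 1 := congrArg Subtype.val hy
  have hx0 : (x : E) ≠ 0 := by
    intro h
    rw [h, map_zero, zero_mul] at hy'
    exact zero_ne_one hy'
  have hix : i (x : E)⁻¹ = (y : F) := by
    rw [map_inv₀]
    exact (eq_inv_of_mul_eq_one_right hy').symm
  have hmem : (x : E)⁻¹ ∈ W.comap i := by
    rw [ValuationSubring.mem_comap, hix]
    exact y.2
  refine IsUnit.of_mul_eq_one ⟨(x : E)⁻¹, hmem⟩ ?_
  ext
  simp [hx0]

private noncomputable def resMap32 {E F : Type} [Field E] [Field F] (i : E →+* F)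
    (W : ValuationSubring F) : ResidueField (W.comap i) →+* ResidueField W :=
  haveI := jmap_local32 i W
  ResidueField.map (jmap32 i W)

private theorem resMap_residue32 {E F : Type} [Field E] [Field F] (i : E →+* F)
    (W : ValuationSubring F) (x : W.comap i) :
    resMap32 i W (residue _ x) = residue _ (jmap32 i W x) := rfl

/-- The residue field of a valuation ring of an algebraically closed field is algebraically
closed. -/
private theorem algclosed32 {E : Type} [Field E] [IsAlgClosed E] (V : ValuationSubring E) :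
    IsAlgClosed (ResidueField V) := by
  refine IsAlgClosed.of_exists_root _ fun p hp hirr => ?_
  have hl : p ∈ Polynomial.lifts (residue V) := by
    rw [Polynomial.mem_lifts]
    exact Polynomial.map_surjective _ residue_surjective p
  obtain ⟨q, hq1, hq2, hq3⟩ := Polynomial.lifts_and_natDegree_eq_and_monic hl hp
  have hdeg : (q.map (algebraMap V E)).degree ≠ 0 := by
    rw [Polynomial.degree_map_eq_of_injective (FaithfulSMul.algebraMap_injective V E)]
    intro h
    have h2 : q.natDegree = 0 := Polynomial.natDegree_eq_zero_iff_degree_le_zero.2 h.le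
    rw [h2] at hq2
    exact hirr.natDegree_pos.ne hq2
  obtain ⟨x, hx⟩ := IsAlgClosed.exists_root _ hdeg
  have hxi : IsIntegral V x := ⟨q, hq3, by
    rw [Polynomial.IsRoot.def, Polynomial.eval_map] at hx
    exact hx⟩
  obtain ⟨y, hy⟩ := IsIntegrallyClosed.isIntegral_iff.1 hxi
  refine ⟨residue V y, ?_⟩
  have hqy : q.eval y = 0 := by
    apply FaithfulSMul.algebraMap_injective V E
    rw [map_zero, ← Polynomial.eval₂_at_apply, hy, ← Polynomial.eval_map]
    exact hx
  rw [← hq1, Polynomial.eval_map, Polynomial.eval₂_at_apply, hqy, map_zero]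

/-! ### Multiplicative generation of `E(t)` -/

private theorem mulgen32 {E : Type} [Field E] [IsAlgClosed E] (P : RatFunc E → Prop)
    (hC : ∀ c : E, c ≠ 0 → P (RatFunc.C c)) (hX : ∀ a : E, P (RatFunc.X - RatFunc.C a))
    (hmul : ∀ x y, P x → P y → P (x * y)) (hinv : ∀ x, P x → P x⁻¹) (x : RatFunc E)
    (hx : x ≠ 0) : P x := by
  have hpol : ∀ f : Polynomial E, f ≠ 0 → P (algebraMap (Polynomial E) (RatFunc E) f) := by
    intro f hf
    rw [(IsAlgClosed.splits f).eq_prod_roots, map_mul, map_multiset_prod, Multiset.map_map]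
    refine hmul _ _ ?_ ?_
    · have := hC f.leadingCoeff (Polynomial.leadingCoeff_ne_zero.2 hf)
      rwa [← RatFunc.algebraMap_C] at this
    · refine Multiset.prod_induction P _ hmul ?_ ?_
      · have := hC 1 one_ne_zero
        rwa [map_one] at this
      · intro y hy
        rw [Multiset.mem_map] at hy
        obtain ⟨a, -, rfl⟩ := hy
        have := hX a
        simpa using this
  rw [← RatFunc.num_div_denom x, div_eq_mul_inv]
  refine hmul _ _ (hpol _ ?_) (hinv _ (hpol _ ?_))
  · exact RatFunc.num_ne_zero hx
  · exact RatFunc.denom_ne_zero x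

/-- The inverse of a unit of a valuation ring. -/
private theorem inv_mem32 {F : Type} [Field F] (W : ValuationSubring F) (w : W)
    (hw : residue W w ≠ 0) : ∃ w' : W, (w' : F) = (w : F)⁻¹ ∧
      residue W w' = (residue W w)⁻¹ := by
  have hu : IsUnit w := by
    by_contra hn
    exact hw ((residue_eq_zero_iff w).2 ((mem_maximalIdeal w).2 hn))
  obtain ⟨w', hw'⟩ := hu.exists_right_inv
  refine ⟨w', ?_, ?_⟩
  · exact eq_inv_of_mul_eq_one_right (congrArg Subtype.val hw')
  · refine eq_inv_of_mul_eq_one_right ?_
    rw [← map_mul, hw', map_one]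

/-- If all `t - a` are, up to a constant, units with residue in the subfield `K'`, then `K'` is
the whole residue field. -/
private theorem all_of32 {E : Type} [Field E] [IsAlgClosed E] (W : ValuationSubring (RatFunc E))
    (K' : Subfield (ResidueField W)) (hK : ∀ y, resMap32 RatFunc.C W y ∈ K')
    (h : ∀ a : E, ∃ c : E, c ≠ 0 ∧ ∃ w : W, residue W w ∈ K' ∧ residue W w ≠ 0 ∧
      RatFunc.X - RatFunc.C a = RatFunc.C c * (w : RatFunc E)) (z : ResidueField W) : z ∈ K' := by
  have key := mulgen32 (fun x => ∃ c : E, c ≠ 0 ∧ ∃ w : W, residue W w ∈ K' ∧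
    residue W w ≠ 0 ∧ x = RatFunc.C c * (w : RatFunc E)) ?_ h ?_ ?_
  · obtain ⟨w, rfl⟩ := residue_surjective z
    by_cases hz : residue W w = 0
    · rw [hz]
      exact K'.zero_mem
    have hw0 : (w : RatFunc E) ≠ 0 := by
      intro h0
      have : w = 0 := Subtype.ext h0
      rw [this, map_zero] at hz
      exact hz rfl
    obtain ⟨c, hc, w', h1, h2, h3⟩ := key (w : RatFunc E) hw0
    obtain ⟨w'', h4, h5⟩ := inv_mem32 W w' h2
    have hw'0 : (w' : RatFunc E) ≠ 0 := by
      intro h0
      rw [h0, mul_zero] at h3
      exact hw0 h3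
    have hc' : RatFunc.C c = ((w * w'' : W) : RatFunc E) := by
      push_cast
      rw [h4, h3]
      field_simp
    have hcm : c ∈ W.comap RatFunc.C := by
      rw [ValuationSubring.mem_comap, hc']
      exact (w * w'').2
    have h6 : w = jmap32 RatFunc.C W ⟨c, hcm⟩ * w' := Subtype.ext h3
    rw [h6, map_mul, ← resMap_residue32]
    exact K'.mul_mem (hK _) h1
  · intro c hc
    refine ⟨c, hc, 1, ?_, ?_, ?_⟩
    · rw [map_one]; exact K'.one_mem
    · rw [map_one]; exact one_ne_zero
    · simp
  · rintro x y ⟨c, hc, w, h1, h2, rfl⟩ ⟨d, hd, w', h1', h2', rfl⟩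
    refine ⟨c * d, mul_ne_zero hc hd, w * w', ?_, ?_, ?_⟩
    · rw [map_mul]; exact K'.mul_mem h1 h1'
    · rw [map_mul]; exact mul_ne_zero h2 h2'
    · push_cast
      rw [map_mul]
      ring
  · rintro x ⟨c, hc, w, h1, h2, rfl⟩
    obtain ⟨w', h4, h5⟩ := inv_mem32 W w h2
    refine ⟨c⁻¹, inv_ne_zero hc, w', ?_, ?_, ?_⟩
    · rw [h5]; exact K'.inv_mem h1
    · rw [h5]; exact inv_ne_zero h2
    · rw [h4, mul_inv, map_inv₀]

private theorem X_sub_ne32 {E : Type} [Field E] (a : E) :
    (RatFunc.X - RatFunc.C a : RatFunc E) ≠ 0 := by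
  have h : (RatFunc.X - RatFunc.C a : RatFunc E) =
      algebraMap (Polynomial E) (RatFunc E) (Polynomial.X - Polynomial.C a) := by simp
  rw [h]
  exact RatFunc.algebraMap_ne_zero (Polynomial.X_sub_C_ne_zero a)

private theorem val_of32 {F : Type} [Field F] (W : ValuationSubring F) (w : W)
    (hw : residue W w ≠ 0) : W.valuation (w : F) = 1 := by
  rw [← ValuationSubring.valuation_eq_one_iff]
  by_contra hn
  exact hw ((residue_eq_zero_iff w).2 ((mem_maximalIdeal w).2 hn))

private theorem unit_of32 {F : Type} [Field F] (W : ValuationSubring F) (x : F)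
    (hx : W.valuation x = 1) : ∃ w : W, (w : F) = x ∧ residue W w ≠ 0 := by
  refine ⟨⟨x, W.mem_of_valuation_le_one x hx.le⟩, rfl, ?_⟩
  rw [Ne, mem_nonunits_iff32, ValuationSubring.mem_nonunits_iff]
  exact fun h => h.ne hx

private theorem one_add32 {F : Type} [Field F] (W : ValuationSubring F) (x : F)
    (hx : W.valuation x < 1) : ∃ w : W, (w : F) = 1 + x ∧ residue W w = 1 := by
  refine ⟨1 + ⟨x, W.mem_of_valuation_le_one x hx.le⟩, rfl, ?_⟩
  rw [map_add, map_one, (mem_nonunits_iff32 W ⟨x, W.mem_of_valuation_le_one x hx.le⟩).2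
    (W.mem_nonunits_iff.2 hx), add_zero]

/-- The residue field is the residue field of the restriction, or generated by one more
element. -/
private theorem core32 {E : Type} [Field E] [IsAlgClosed E] (W : ValuationSubring (RatFunc E)) :
    Nonempty (ResidueField W →+* RatFunc (ResidueField (W.comap RatFunc.C))) := by
  have := algclosed32 (W.comap (RatFunc.C : E →+* RatFunc E))
  -- it suffices that the map of residue fields is surjective
  have hsurj : (∀ z, z ∈ (resMap32 RatFunc.C W).fieldRange) →
      Nonempty (ResidueField W →+* RatFunc (ResidueField (W.comap RatFunc.C))) := by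
    intro h
    let e : ResidueField (W.comap (RatFunc.C : E →+* RatFunc E)) ≃+* ResidueField W :=
      RingEquiv.ofBijective (resMap32 RatFunc.C W) ⟨(resMap32 RatFunc.C W).injective, fun z => by
        obtain ⟨y, hy⟩ := h z
        exact ⟨y, hy⟩⟩
    exact ⟨(RatFunc.C).comp e.symm.toRingHom⟩
  by_cases hA : ∃ a c : E, c ≠ 0 ∧ ∃ w : W,
      RatFunc.X - RatFunc.C a = RatFunc.C c * (w : RatFunc E) ∧
      residue W w ∉ (resMap32 RatFunc.C W).fieldRange
  · obtain ⟨a, c, hc, w, hw, hres⟩ := hA
    let alg : Algebra (ResidueField (W.comap (RatFunc.C : E →+* RatFunc E))) (ResidueField W) :=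
      (resMap32 RatFunc.C W).toAlgebra
    have hcC : (RatFunc.C c : RatFunc E) ≠ 0 := by
      rw [Ne, map_eq_zero]
      exact hc
    have hall := all_of32 W (IntermediateField.adjoin
      (ResidueField (W.comap (RatFunc.C : E →+* RatFunc E))) {residue W w}).toSubfield
      (fun y => IntermediateField.algebraMap_mem _ y) ?_
    · have htr : Transcendental (ResidueField (W.comap (RatFunc.C : E →+* RatFunc E)))
          (residue W w) := by
        intro halg
        apply hres
        obtain ⟨y, hy⟩ := minpoly.mem_range_of_degree_eq_one _ _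
          (IsAlgClosed.degree_eq_one_of_irreducible _ (minpoly.irreducible halg.isIntegral))
        exact ⟨y, hy⟩
      refine ⟨(RatFunc.algEquivOfTranscendental (residue W w) htr).symm.toRingHom.comp
        (RingHom.codRestrict (RingHom.id _) (IntermediateField.adjoin
        (ResidueField (W.comap (RatFunc.C : E →+* RatFunc E))) {residue W w}) hall)⟩
    · intro b
      have hwb : RatFunc.X - RatFunc.C b =
          RatFunc.C c * ((w : RatFunc E) - RatFunc.C ((b - a) / c)) := by
        rw [mul_sub, ← hw, map_div₀, mul_div_cancel₀ _ hcC, map_sub]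
        ring
      by_cases hb : (b - a) / c ∈ W.comap RatFunc.C
      · refine ⟨c, hc, w - jmap32 RatFunc.C W ⟨_, hb⟩, ?_, ?_, ?_⟩
        · rw [map_sub, ← resMap_residue32]
          exact sub_mem (IntermediateField.mem_adjoin_simple_self _ _)
            (IntermediateField.algebraMap_mem _ _)
        · rw [map_sub, ← resMap_residue32, sub_ne_zero]
          intro h
          exact hres ⟨_, h.symm⟩
        · rw [hwb]
          rfl
      · have hb0 : (b - a) / c ≠ 0 := by
          intro h
          rw [h] at hb
          exact hb (ValuationSubring.zero_mem _)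
        have hb1 : (RatFunc.C ((b - a) / c) : RatFunc E) ≠ 0 := by
          rw [Ne, map_eq_zero]
          exact hb0
        have hn : (RatFunc.C ((b - a) / c) : RatFunc E)⁻¹ ∈ W.nonunits := by
          rw [ValuationSubring.inv_mem_nonunits_iff]
          right
          rwa [ValuationSubring.mem_comap] at hb
        have hr1 : residue W (1 - w * ⟨_, W.nonunits_subset hn⟩) = 1 := by
          rw [map_sub, map_mul, map_one, (mem_nonunits_iff32 W ⟨_, W.nonunits_subset hn⟩).2 hn,
            mul_zero, sub_zero]
        refine ⟨-(c * ((b - a) / c)), neg_ne_zero.2 (mul_ne_zero hc hb0),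
          1 - w * ⟨_, W.nonunits_subset hn⟩, ?_, ?_, ?_⟩
        · rw [hr1]
          exact one_mem _
        · rw [hr1]
          exact one_ne_zero
        · rw [hwb]
          push_cast
          rw [map_neg, map_mul]
          field_simp
          ring
  push Not at hA
  by_cases hB : ∀ a : E, ∃ c : E, c ≠ 0 ∧ ∃ w : W, residue W w ≠ 0 ∧
      RatFunc.X - RatFunc.C a = RatFunc.C c * (w : RatFunc E)
  · refine hsurj (all_of32 W _ (fun y => ⟨y, rfl⟩) fun a => ?_)
    obtain ⟨c, hc, w, h1, h2⟩ := hB a
    exact ⟨c, hc, w, hA a c hc w h2, h1, h2⟩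
  push Not at hB
  obtain ⟨a, ha⟩ := hB
  have ht0 : (RatFunc.X - RatFunc.C a : RatFunc E) ≠ 0 := X_sub_ne32 a
  -- the value of `t - a` is not the value of a constant
  have hval : ∀ d : E, d ≠ 0 →
      W.valuation (RatFunc.X - RatFunc.C a) ≠ W.valuation (RatFunc.C d) := by
    intro d hd hv
    have hdC : (RatFunc.C d : RatFunc E) ≠ 0 := by
      rw [Ne, map_eq_zero]
      exact hd
    have hv1 : W.valuation ((RatFunc.X - RatFunc.C a) / RatFunc.C d) = 1 := by
      rw [map_div₀, hv, div_self]
      rw [Ne, map_eq_zero]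
      exact hdC
    obtain ⟨w, hw1, hw2⟩ := unit_of32 W _ hv1
    refine ha d hd w hw2 ?_
    rw [hw1, mul_div_cancel₀ _ hdC]
  have key := mulgen32 (fun x => ∃ c : E, c ≠ 0 ∧ ∃ n : ℤ, ∃ w : W, residue W w = 1 ∧
    x = RatFunc.C c * (RatFunc.X - RatFunc.C a) ^ n * (w : RatFunc E)) ?_ ?_ ?_ ?_
  · refine hsurj fun z => ?_
    obtain ⟨w, rfl⟩ := residue_surjective z
    by_cases hz : residue W w = 0
    · rw [hz]
      exact Subfield.zero_mem _
    have hw0 : (w : RatFunc E) ≠ 0 := by
      intro h0
      have : w = 0 := Subtype.ext h0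
      rw [this, map_zero] at hz
      exact hz rfl
    obtain ⟨c, hc, n, w', h2, h3⟩ := key (w : RatFunc E) hw0
    have h2' : residue W w' ≠ 0 := by
      rw [h2]
      exact one_ne_zero
    have hvw : W.valuation (w : RatFunc E) = 1 := val_of32 W w hz
    have hvw' : W.valuation (w' : RatFunc E) = 1 := val_of32 W w' h2'
    have hn : n = 0 := by
      by_contra hn
      rw [h3, map_mul, map_mul, hvw', mul_one, map_zpow₀] at hvw
      obtain ⟨m, rfl | rfl⟩ := n.eq_nat_or_neg
      · have hm : m ≠ 0 := by
          rintro rfl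
          exact hn rfl
        obtain ⟨d, hd⟩ := IsAlgClosed.exists_pow_nat_eq c⁻¹ (Nat.pos_of_ne_zero hm)
        have hd0 : d ≠ 0 := by
          rintro rfl
          rw [zero_pow hm] at hd
          exact inv_ne_zero hc hd.symm
        apply hval d hd0
        rw [zpow_natCast] at hvw
        have : W.valuation (RatFunc.X - RatFunc.C a) ^ m = W.valuation (RatFunc.C d) ^ m := by
          rw [← map_pow, ← map_pow, ← map_pow, hd, map_inv₀, map_inv₀, map_pow]
          exact eq_inv_of_mul_eq_one_right hvw
        exact (pow_left_inj₀ zero_le zero_le hm).1 this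
      · have hm : m ≠ 0 := by
          rintro rfl
          exact hn rfl
        obtain ⟨d, hd⟩ := IsAlgClosed.exists_pow_nat_eq c (Nat.pos_of_ne_zero hm)
        have hd0 : d ≠ 0 := by
          rintro rfl
          rw [zero_pow hm] at hd
          exact hc hd.symm
        apply hval d hd0
        rw [zpow_neg, zpow_natCast] at hvw
        have : W.valuation (RatFunc.X - RatFunc.C a) ^ m = W.valuation (RatFunc.C d) ^ m := by
          rw [← map_pow, ← map_pow, ← map_pow, hd, map_pow]
          have h7 := eq_inv_of_mul_eq_one_left hvw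
          rw [inv_inv] at h7
          exact h7.symm
        exact (pow_left_inj₀ zero_le zero_le hm).1 this
    rw [hn, zpow_zero, mul_one] at h3
    obtain ⟨w'', h4, h5⟩ := inv_mem32 W w' h2'
    have hw'0 : (w' : RatFunc E) ≠ 0 := by
      intro h0
      rw [h0, mul_zero] at h3
      exact hw0 h3
    have hc' : RatFunc.C c = ((w * w'' : W) : RatFunc E) := by
      push_cast
      rw [h4, h3]
      field_simp
    have hcm : c ∈ W.comap RatFunc.C := by
      rw [ValuationSubring.mem_comap, hc']
      exact (w * w'').2
    have h6 : w = jmap32 RatFunc.C W ⟨c, hcm⟩ * w' := Subtype.ext h3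
    rw [h6, map_mul, ← resMap_residue32, h2, mul_one]
    exact ⟨_, rfl⟩
  · intro c hc
    refine ⟨c, hc, 0, 1, map_one _, ?_⟩
    simp
  · intro b
    by_cases hab : a - b = 0
    · obtain rfl : a = b := sub_eq_zero.1 hab
      refine ⟨1, one_ne_zero, 1, 1, map_one _, ?_⟩
      simp
    have hdC : (RatFunc.C (a - b) : RatFunc E) ≠ 0 := by
      rw [Ne, map_eq_zero]
      exact hab
    rcases lt_trichotomy (W.valuation (RatFunc.X - RatFunc.C a)) (W.valuation (RatFunc.C (a - b)))
      with hlt | heq | hgt
    · have hv : W.valuation ((RatFunc.X - RatFunc.C a) / RatFunc.C (a - b)) < 1 := by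
        rw [map_div₀]
        exact (div_lt_one₀ (lt_of_le_of_lt zero_le hlt)).2 hlt
      obtain ⟨w, hw1, hw2⟩ := one_add32 W _ hv
      refine ⟨a - b, hab, 0, w, hw2, ?_⟩
      rw [hw1, zpow_zero, mul_one, mul_add, mul_one, mul_div_cancel₀ _ hdC, map_sub]
      ring
    · exact absurd heq (hval _ hab)
    · have hv : W.valuation (RatFunc.C (a - b) / (RatFunc.X - RatFunc.C a)) < 1 := by
        rw [map_div₀]
        exact (div_lt_one₀ (lt_of_le_of_lt zero_le hgt)).2 hgt
      obtain ⟨w, hw1, hw2⟩ := one_add32 W _ hv
      refine ⟨1, one_ne_zero, 1, w, hw2, ?_⟩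
      rw [hw1, zpow_one, map_one, one_mul, mul_add, mul_one, mul_div_cancel₀ _ ht0, map_sub]
      ring
  · rintro x y ⟨c, hc, n, w, h2, rfl⟩ ⟨d, hd, n', w', h2', rfl⟩
    refine ⟨c * d, mul_ne_zero hc hd, n + n', w * w', ?_, ?_⟩
    · rw [map_mul, h2, h2', one_mul]
    · push_cast
      rw [map_mul, zpow_add₀ ht0]
      ring
  · rintro x ⟨c, hc, n, w, h2, rfl⟩
    obtain ⟨w', h4, h5⟩ := inv_mem32 W w (by rw [h2]; exact one_ne_zero)
    refine ⟨c⁻¹, inv_ne_zero hc, -n, w', ?_, ?_⟩
    · rw [h5, h2, inv_one]
    · rw [h4, mul_inv, mul_inv, map_inv₀, zpow_neg]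

/-! ### The transcendence degree of the residue field -/

private theorem small_zero32 {E : Type} [Field E] [CharZero E] (hE : Small 1 ℤ E)
    (V : ValuationSubring E) (p : ℕ) [Fact p.Prime] [Algebra (ZMod p) (ResidueField V)] :
    Small 1 (ZMod p) (ResidueField V) := by
  intro a ha
  choose b hb using fun i => residue_surjective (a i)
  apply hE (fun i => ((b i : V) : E))
  rw [algebraicIndependent_iff]
  -- every relation is divisible by every power of `p`
  have hstep : ∀ f : MvPolynomial (Fin (1 + 1)) ℤ,
      MvPolynomial.aeval (fun i => ((b i : V) : E)) f = 0 →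
      ∃ g : MvPolynomial (Fin (1 + 1)) ℤ, f = MvPolynomial.C (p : ℤ) * g ∧
        MvPolynomial.aeval (fun i => ((b i : V) : E)) g = 0 := by
    intro f hf
    have h1 : MvPolynomial.aeval b f = 0 := by
      apply FaithfulSMul.algebraMap_injective V E
      rw [map_zero, ← MvPolynomial.aeval_algebraMap_apply]
      exact hf
    have h2 : MvPolynomial.aeval a (MvPolynomial.map (Int.castRingHom (ZMod p)) f) = 0 := by
      rw [MvPolynomial.aeval_def, MvPolynomial.eval₂_map]
      have h3 := congrArg (residue V) h1
      rw [map_zero, MvPolynomial.aeval_def, ← MvPolynomial.coe_eval₂Hom,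
        MvPolynomial.map_eval₂Hom, MvPolynomial.coe_eval₂Hom] at h3
      rw [← h3]
      congr 1
      · exact Subsingleton.elim _ _
      · funext i
        exact (hb i).symm
    have h4 := (algebraicIndependent_iff.1 ha) _ h2
    obtain ⟨g, hg⟩ := (MvPolynomial.C_dvd_iff_zmod p f).2 h4
    refine ⟨g, hg, ?_⟩
    rw [hg, map_mul, MvPolynomial.aeval_C, mul_eq_zero] at hf
    rcases hf with hf | hf
    · exfalso
      rw [map_natCast] at hf
      exact (Fact.out : p.Prime).ne_zero (by exact_mod_cast hf)
    · exact hf
  have hdiv : ∀ (k : ℕ) (f : MvPolynomial (Fin (1 + 1)) ℤ),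
      MvPolynomial.aeval (fun i => ((b i : V) : E)) f = 0 → ∀ m, (p : ℤ) ^ k ∣ f.coeff m := by
    intro k
    induction k with
    | zero => intro f _ m; simp
    | succ k ih =>
      intro f hf m
      obtain ⟨g, hg, hg0⟩ := hstep f hf
      rw [hg, MvPolynomial.coeff_C_mul, pow_succ, mul_comm]
      exact mul_dvd_mul_left _ (ih g hg0 m)
  intro f hf
  ext m
  rw [MvPolynomial.coeff_zero]
  refine Int.eq_zero_of_dvd_of_natAbs_lt_natAbs (hdiv (f.coeff m).natAbs f hf m) ?_
  rw [Int.natAbs_pow, Int.natAbs_natCast]
  exact Nat.lt_pow_self (Fact.out : p.Prime).one_lt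

private theorem small_pos32 {E : Type} [Field E] (p : ℕ) [Fact p.Prime] [Algebra (ZMod p) E]
    (hE : Small 2 (ZMod p) E) (V : ValuationSubring E) (e : E) (he : e ∈ V.nonunits)
    (he0 : e ≠ 0) [Algebra (ZMod p) (ResidueField V)] : Small 1 (ZMod p) (ResidueField V) := by
  intro a ha
  choose b hb using fun i => residue_surjective (a i)
  have hE0 : CharP E p := charP_of_injective_algebraMap (algebraMap (ZMod p) E).injective p
  have hV0 : CharP V p := by
    refine (CharP.charP_iff_prime_eq_zero (Fact.out : p.Prime)).2 ?_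
    apply FaithfulSMul.algebraMap_injective V E
    rw [map_zero, map_natCast]
    exact CharP.cast_eq_zero E p
  let algV : Algebra (ZMod p) V := ZMod.algebra V p
  -- evaluation at the lifts has residue the evaluation at `a`
  have hev : ∀ f : MvPolynomial (Fin (1 + 1)) (ZMod p),
      MvPolynomial.aeval (fun i => ((b i : V) : E)) f = ((MvPolynomial.aeval b f : V) : E) := by
    intro f
    have h3 : (V.subtype : V →+* E) (MvPolynomial.aeval b f) =
        MvPolynomial.aeval (fun i => ((b i : V) : E)) f := by
      rw [MvPolynomial.aeval_def, ← MvPolynomial.coe_eval₂Hom,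
        MvPolynomial.map_eval₂Hom, MvPolynomial.coe_eval₂Hom, MvPolynomial.aeval_def]
      congr 1
      exact Subsingleton.elim _ _
    exact h3.symm
  have hres : ∀ f : MvPolynomial (Fin (1 + 1)) (ZMod p),
      residue V (MvPolynomial.aeval b f) = MvPolynomial.aeval a f := by
    intro f
    rw [MvPolynomial.aeval_def, ← MvPolynomial.coe_eval₂Hom,
      MvPolynomial.map_eval₂Hom, MvPolynomial.coe_eval₂Hom, MvPolynomial.aeval_def]
    congr 1
    · exact Subsingleton.elim _ _
    · funext i
      exact hb i
  have hind : AlgebraicIndependent (ZMod p) (fun i => ((b i : V) : E)) := by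
    rw [algebraicIndependent_iff]
    intro f hf
    rw [hev] at hf
    have h1 : MvPolynomial.aeval b f = 0 := Subtype.ext hf
    apply (algebraicIndependent_iff.1 ha) f
    rw [← hres, h1, map_zero]
  -- elements of the subalgebra are zero or units of `V`
  have hA : ∀ x ∈ Algebra.adjoin (ZMod p) (Set.range fun i => ((b i : V) : E)),
      x ∈ V ∧ (x ∈ V.nonunits → x = 0) := by
    intro x hx
    rw [Algebra.adjoin_range_eq_range_aeval] at hx
    obtain ⟨f, rfl⟩ := hx
    refine ⟨?_, fun h => ?_⟩
    · change MvPolynomial.aeval (fun i => ((b i : V) : E)) f ∈ V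
      rw [hev]
      exact Subtype.coe_prop _
    · change MvPolynomial.aeval (fun i => ((b i : V) : E)) f ∈ V.nonunits at h
      change MvPolynomial.aeval (fun i => ((b i : V) : E)) f = 0
      rw [hev, ← mem_nonunits_iff32, hres] at h
      rw [(algebraicIndependent_iff.1 ha) f h, map_zero]
  have htr : Transcendental (Algebra.adjoin (ZMod p) (Set.range fun i => ((b i : V) : E))) e := by
    rw [transcendental_iff]
    have hval : ∀ g : Polynomial (Algebra.adjoin (ZMod p)
        (Set.range fun i => ((b i : V) : E))), Polynomial.aeval e g ∈ V := by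
      intro g
      rw [Polynomial.aeval_eq_sum_range]
      refine sum_mem fun i _ => ?_
      rw [Algebra.smul_def]
      exact V.mul_mem _ _ (hA _ (g.coeff i).2).1 (pow_mem (V.nonunits_subset he) i)
    have hind' : ∀ (n : ℕ) (g : Polynomial (Algebra.adjoin (ZMod p)
        (Set.range fun i => ((b i : V) : E)))), g.natDegree ≤ n → Polynomial.aeval e g = 0 →
        g = 0 := by
      intro n
      induction n with
      | zero =>
        intro g hg h0
        rw [Polynomial.eq_C_of_natDegree_le_zero hg, Polynomial.aeval_C] at h0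
        rw [Polynomial.eq_C_of_natDegree_le_zero hg,
          FaithfulSMul.algebraMap_injective _ _ (h0.trans (map_zero _).symm), map_zero]
      | succ n ih =>
        intro g hg h0
        have h1 := Polynomial.divX_mul_X_add g
        have h2 : Polynomial.aeval e g = Polynomial.aeval e g.divX * e +
            ((g.coeff 0 : _) : E) := by
          conv_lhs => rw [← h1]
          rw [map_add, map_mul, Polynomial.aeval_X, Polynomial.aeval_C]
          rfl
        rw [h0] at h2
        have h3 : ((g.coeff 0 : _) : E) = -(Polynomial.aeval e g.divX * e) := by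
          rw [eq_neg_iff_add_eq_zero, add_comm, ← h2]
        have h4 : ((g.coeff 0 : _) : E) ∈ V.nonunits := by
          rw [h3]
          refine neg_mem ?_
          have h5 : (((⟨_, hval g.divX⟩ : V) * ⟨e, V.nonunits_subset he⟩ : V) : E) ∈
              V.nonunits := by
            rw [← mem_nonunits_iff32, map_mul,
              (mem_nonunits_iff32 V ⟨e, V.nonunits_subset he⟩).2 he, mul_zero]
          exact h5
        have h6 : ((g.coeff 0 : _) : E) = 0 := (hA _ (g.coeff 0).2).2 h4
        have h7 : Polynomial.aeval e g.divX = 0 := by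
          rw [h6, add_zero] at h2
          exact (mul_eq_zero.1 h2.symm).resolve_right he0
        have h8 : g.divX = 0 := by
          apply ih _ _ h7
          rw [Polynomial.natDegree_divX_eq_natDegree_tsub_one]
          omega
        have h9 : g.coeff 0 = 0 := Subtype.ext h6
        rw [← h1, h8, h9]
        simp
    intro g hg
    exact hind' _ g le_rfl hg
  have h3 := (hind.option_iff_transcendental e).2 htr
  apply hE ((fun o : Option (Fin (1 + 1)) => o.elim e (fun i => ((b i : V) : E))) ∘
    (finSuccEquiv 2))
  exact h3.comp _ (finSuccEquiv 2).injective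

/-! ### The main statement -/

/-- A local ring with a homomorphism to `E(t)`, `E` algebraically closed of Kronecker dimension
at most two, whose maximal ideal contains a prime number and an element which is mapped to a
nonzero element of `E`, has a ruled residue field. -/
theorem ruled_of_local {E : Type} [Field E] [IsAlgClosed E] (hE : Kron 1 E) {O : Type}
    [CommRing O] [IsLocalRing O] (φ : O →+* RatFunc E) (π : O) (hπ : π ∈ maximalIdeal O) (e : E)
    (he : φ π = RatFunc.C e) (he0 : e ≠ 0) (p : ℕ) [Fact p.Prime]
    (hp : (p : O) ∈ maximalIdeal O) : Ruled p (ResidueField O) := by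
  obtain ⟨W, h, hloc⟩ := IsLocalRing.exists_factor_valuationRing φ
  let ψ : O →+* W := φ.codRestrict W.toSubring h
  have hψ : IsLocalHom ψ := hloc
  have hψn : ∀ x ∈ maximalIdeal O, φ x ∈ W.nonunits := by
    intro x hx
    have h1 : ψ x ∈ maximalIdeal W := by
      rw [mem_maximalIdeal, mem_nonunits_iff]
      intro hu
      exact (mem_maximalIdeal x).1 hx (hψ.map_nonunit x hu)
    exact (ValuationSubring.coe_mem_nonunits_iff).2 h1
  have hVn : ∀ x : E, RatFunc.C x ∈ W.nonunits → x ∈ (W.comap RatFunc.C).nonunits := by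
    intro x hx
    rw [ValuationSubring.mem_nonunits_iff_or] at hx ⊢
    rcases hx with hx | hx
    · left
      exact (map_eq_zero _).1 hx
    · right
      rw [ValuationSubring.mem_comap, map_inv₀]
      exact hx
  have he1 : e ∈ (W.comap RatFunc.C).nonunits := by
    apply hVn
    rw [← he]
    exact hψn π hπ
  have hp1 : ((p : E)) ∈ (W.comap RatFunc.C).nonunits := by
    apply hVn
    have h1 := hψn (p : O) hp
    rwa [map_natCast] at h1 ⊢
  have hp2 : (p : ResidueField (W.comap (RatFunc.C : E →+* RatFunc E))) = 0 := by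
    have h1 := (mem_nonunits_iff32 (W.comap RatFunc.C)
      (p : (W.comap (RatFunc.C : E →+* RatFunc E)))).2 (by push_cast; exact hp1)
    rwa [map_natCast] at h1
  have hchar : CharP (ResidueField (W.comap (RatFunc.C : E →+* RatFunc E))) p :=
    (CharP.charP_iff_prime_eq_zero (Fact.out : p.Prime)).2 hp2
  let alg : Algebra (ZMod p) (ResidueField (W.comap (RatFunc.C : E →+* RatFunc E))) :=
    ZMod.algebra _ p
  have hsmall : Small 1 (ZMod p) (ResidueField (W.comap (RatFunc.C : E →+* RatFunc E))) := by
    rcases hE with ⟨h0, hE⟩ | ⟨q, hq, algq, hE⟩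
    · exact small_zero32 hE _ p
    · have hqE : (q : E) = 0 := by
        have : CharP E q := charP_of_injective_algebraMap (algebraMap (ZMod q) E).injective q
        exact CharP.cast_eq_zero E q
      have hq2 : (q : ResidueField (W.comap (RatFunc.C : E →+* RatFunc E))) = 0 := by
        have h1 : (q : (W.comap (RatFunc.C : E →+* RatFunc E))) = 0 := by
          apply Subtype.ext
          push_cast
          exact hqE
        rw [← map_natCast (residue (W.comap (RatFunc.C : E →+* RatFunc E))) q, h1, map_zero]
      have hqp : q = p := by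
        have h3 := (CharP.cast_eq_zero_iff
          (ResidueField (W.comap (RatFunc.C : E →+* RatFunc E))) p q).1 hq2
        exact ((Nat.prime_dvd_prime_iff_eq (Fact.out : p.Prime) hq.out).1 h3).symm
      subst hqp
      exact small_pos32 q hE _ e he1 he0
  refine ⟨?_, ResidueField (W.comap (RatFunc.C : E →+* RatFunc E)), inferInstance, alg,
    algclosed32 _, hsmall, ?_⟩
  · rw [CharP.charP_iff_prime_eq_zero (Fact.out : p.Prime)]
    have := (residue_eq_zero_iff (p : O)).2 hp
    rwa [map_natCast] at this
  · obtain ⟨g⟩ := core32 W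
    exact ⟨g.comp (ResidueField.map ψ)⟩

end Pool.Agent.Helper9.RS
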