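import Pool.Agent.Helper9.RS.R
import Pool.Agent.Helper45.LS.Main

/-!
# Block X, first half: the points of the closed fibres
-/

set_option autoImplicit false

namespace Pool.Agent.Helper9.RS

open AlgebraicGeometry CategoryTheory Limits Pool.Agent.Helper45.LG Pool.Agent.Helper45.LS
open IsLocalRing

/-- Every point is a specialisation of a generic point. -/
theorem exists_generic {X : Scheme.{0}} (x : X) : ∃ s : X, IsGeneric s ∧ s ⤳ x := by
  have h1 : IsIrreducible (irreducibleComponent x) := isIrreducible_irreducibleComponent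
  have h2 : IsClosed (irreducibleComponent x) := isClosed_irreducibleComponent
  obtain ⟨s, hs⟩ := QuasiSober.sober h1 h2
  refine ⟨s, fun t ht => ?_, ?_⟩
  · have h3 : irreducibleComponent x ⊆ closure {t} := by
      rw [← hs.def]
      exact closure_minimal (by
        rintro _ rfl
        exact specializes_iff_mem_closure.1 ht) isClosed_closure
    have h4 : closure {t} = irreducibleComponent x := by
      have h5 : x ∈ closure ({t} : Set X) := h3 mem_irreducibleComponent
      exact (eq_irreducibleComponent (isPreirreducible_singleton.closure) h3)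
    have h6 : IsGenericPoint t (irreducibleComponent x) := h4
    exact h6.eq hs
  · exact specializes_iff_mem_closure.2 (by rw [hs.def]; exact mem_irreducibleComponent)

theorem Ruled.of_equiv {p : ℕ} {κ κ' : Type} [Field κ] [Field κ'] (e : κ ≃+* κ')
    (h : Ruled p κ) : Ruled p κ' := by
  obtain ⟨h1, k₁, _, _, h2, h3, ⟨φ⟩⟩ := h
  refine ⟨?_, k₁, _, _, h2, h3, ⟨φ.comp (e.symm : κ' →+* κ)⟩⟩
  exact charP_of_injective_ringHom (f := (e : κ →+* κ')) e.injective p

/-- The statement of `ruled_of_local`. -/
def RuledOfLocal : Prop :=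
  ∀ (E : Type) [Field E] [CharZero E] [IsAlgClosed E], Small 1 ℤ E →
    ∀ (O : Type) [CommRing O] [IsLocalRing O], (O →+* RatFunc E) → ∀ (p : ℕ) [Fact p.Prime],
    (p : O) ∈ maximalIdeal O → Ruled p (ResidueField O)

theorem natCast_residueField_eq_zero {X : Scheme.{0}} (p : ℕ) [Fact p.Prime]
    (f : X ⟶ Spec (CommRingCat.of (ZMod p))) (z : X) : ((p : ℕ) : X.residueField z) = 0 := by
  have h1 : (toRes f z) ((p : ℕ) : ZMod p) = ((p : ℕ) : X.residueField z) := map_natCast _ _
  rw [← h1, CharP.cast_eq_zero, map_zero]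

theorem isClosedImmersion_fibreFst (X : Scheme.{0}) (p : ℕ) :
    IsClosedImmersion (fibreFst X (ZMod p)) := by
  have h1 : IsClosedImmersion (Spec.map (CommRingCat.ofHom (Int.castRingHom (ZMod p)))) :=
    IsClosedImmersion.spec_of_surjective _ (ZMod.ringHom_surjective _)
  have h2 : IsClosedImmersion (specZIsTerminal.from (Spec (CommRingCat.of (ZMod p)))) := by
    rw [specZIsTerminal.hom_ext (specZIsTerminal.from (Spec (CommRingCat.of (ZMod p))))
      (Spec.map (CommRingCat.ofHom (Int.castRingHom (ZMod p))))]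
    exact h1
  exact MorphismProperty.of_isPullback (isPullback_fibre X (ZMod p)).flip h2

theorem ruled_point (hV : RuledOfLocal) {X : Scheme.{0}}
    (h : ∀ s : X, IsGeneric s → ∃ (E : Type) (_ : Field E) (_ : CharZero E), IsAlgClosed E ∧
      Small 1 ℤ E ∧ Nonempty (X.residueField s →+* RatFunc E)) (p : ℕ) [Fact p.Prime]
    (z : fibre X (ZMod p)) : Ruled p ((fibre X (ZMod p)).residueField z) := by
  have h0 := isClosedImmersion_fibreFst X p
  let i := fibreFst X (ZMod p)
  have h1 : Function.Bijective (i.residueFieldMap z).hom := by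
    refine ⟨RingHom.injective _, fun w => ?_⟩
    obtain ⟨w, rfl⟩ := (fibre X (ZMod p)).residue_surjective z w
    obtain ⟨v, rfl⟩ := i.stalkMap_surjective z w
    exact ⟨X.residue (i z) v,
      congrArg (fun φ => φ.hom v) (Scheme.residue_residueFieldMap i z)⟩
  obtain ⟨s, hs, hsz⟩ := exists_generic (i z)
  obtain ⟨E, _, _, h2, h3, ⟨φ⟩⟩ := h s hs
  have h4 : ((p : ℕ) : X.presheaf.stalk (i z)) ∈ maximalIdeal (X.presheaf.stalk (i z)) := by
    rw [← residue_eq_zero_iff, map_natCast]
    have h5 : (i.residueFieldMap z).hom ((p : ℕ) : X.residueField (i z)) = 0 := by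
      rw [map_natCast]
      exact natCast_residueField_eq_zero p (fibreTo X (ZMod p)) z
    exact h1.1 (h5.trans (map_zero _).symm)
  have h6 := hV E h3 (X.presheaf.stalk (i z)) ((φ.comp (X.residue s).hom).comp
    (X.presheaf.stalkSpecializes hsz).hom) p h4
  exact Ruled.of_equiv (RingEquiv.ofBijective (i.residueFieldMap z).hom h1) h6

end Pool.Agent.Helper9.RS
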