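import Pool.Agent.Helper9.RS.X3
import Pool.Agent.Helper9.RS.XA
import Pool.Agent.Helper9.RS.KD1

/-!
# Block X2: the points of the closed fibres over an arithmetic curve
-/

set_option autoImplicit false

namespace Pool.Agent.Helper9.RS

open AlgebraicGeometry CategoryTheory Limits Pool.Agent.Helper45.LG Pool.Agent.Helper45.LS
open IsLocalRing

/-- The statement of `ruled_of_local`. -/
def RuledOfLocalKron : Prop :=
  ∀ (E : Type) [Field E] [IsAlgClosed E], Kron 1 E → ∀ (O : Type) [CommRing O] [IsLocalRing O]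
    (φ : O →+* RatFunc E) (π : O), π ∈ maximalIdeal O → ∀ (e : E), φ π = RatFunc.C e → e ≠ 0 →
    ∀ (p : ℕ) [Fact p.Prime], (p : O) ∈ maximalIdeal O → Ruled p (ResidueField O)

/-- The base map and specialisation. -/
theorem baseToStalk_specializes {R : Type} [CommRing R] {X : Scheme.{0}}
    (s : X ⟶ Spec (CommRingCat.of R)) {x y : X} (h : x ⤳ y) (r : R) :
    (X.presheaf.stalkSpecializes h).hom (baseToStalk s y r) = baseToStalk s x r := by
  have h1 : CommRingCat.ofHom (baseToStalk s y) ≫ X.presheaf.stalkSpecializes h =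
      CommRingCat.ofHom (baseToStalk s x) := by
    apply Spec.map_injective
    rw [Spec.map_comp, specMap_baseToStalk, specMap_baseToStalk,
      Scheme.SpecMap_stalkSpecializes_fromSpecStalk_assoc]
  exact DFunLike.congr_fun (CommRingCat.hom_ext_iff.1 h1) r

/-- The residue characteristic at a nonzero prime of an arithmetic curve. -/
theorem exists_prime_of_ker {R : Type} [CommRing R] [IsDomain R] (hR : Algebra.FiniteType ℤ R)
    (hdim : ringKrullDim R ≤ 1) {κ : Type} [Field κ] (ρ : R →+* κ) {b : R} (hb : b ≠ 0)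
    (hρ : ρ b = 0) : ∃ p : ℕ, p.Prime ∧ ((p : ℕ) : κ) = 0 := by
  have h1 : Ring.KrullDimLE 1 R := Ring.krullDimLE_iff.2 (by exact_mod_cast hdim)
  rw [Ring.krullDimLE_one_iff_of_noZeroDivisors] at h1
  have h2 : (RingHom.ker ρ) ≠ ⊥ := fun h => hb (by
    have h3 : b ∈ RingHom.ker ρ := hρ
    rw [h] at h3
    exact h3)
  have h3 : (RingHom.ker ρ).IsPrime := RingHom.ker_isPrime ρ
  have h4 := h1 _ h2 h3
  let k : Type := R ⧸ RingHom.ker ρ
  let _ : Field k := Ideal.Quotient.field _
  have h5 : Algebra.FiniteType ℤ k := finiteType_of_surj hR (Ideal.Quotient.mk (RingHom.ker ρ))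
    Ideal.Quotient.mk_surjective
  rcases CharP.exists k with ⟨q, hq⟩
  rcases CharP.char_is_prime_or_zero k q with h6 | h6
  · refine ⟨q, h6, ?_⟩
    have h7 : ((q : ℕ) : k) = 0 := CharP.cast_eq_zero k q
    have h8 := congrArg (RingHom.kerLift ρ) h7
    rwa [map_natCast, map_zero] at h8
  · exfalso
    subst h6
    have h7 : CharZero k := CharP.charP_to_charZero k
    exact not_isField_of_finiteType h5

/-- The points of a closed fibre. -/
theorem ruled_closed_point (hV : RuledOfLocalKron) {R : Type} [CommRing R] [IsDomain R]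
    (hR : Algebra.FiniteType ℤ R) (hdim : ringKrullDim R ≤ 1) {X : Scheme.{0}}
    (s : X ⟶ Spec (CommRingCat.of R))
    (hdom : ∀ x : X, IsGeneric x → Function.Injective (baseToRes s x))
    (hgen : ∀ x : X, IsGeneric x → RuledAt s x) (b : R) (hb : b ≠ 0)
    (z : ofib s (Ideal.Quotient.mk (Ideal.span {b}))) :
    ∃ p : ℕ, p.Prime ∧
      Ruled p ((ofib s (Ideal.Quotient.mk (Ideal.span {b}))).residueField z) := by
  let ρ := Ideal.Quotient.mk (Ideal.span {b})
  let i := ofibFst s ρ
  have h0 : IsClosedImmersion i :=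
    MorphismProperty.of_isPullback (isPullback_ofib s ρ).flip
      (IsClosedImmersion.spec_of_surjective _ Ideal.Quotient.mk_surjective)
  have h1 := residueFieldMap_bijective_of_isClosedImmersion i h0 z
  obtain ⟨x, hx, hxz⟩ := exists_isGeneric (i z)
  obtain ⟨E, _, h2, h3, φ, hφ⟩ := hgen x hx
  have h4 : baseToRes s (i z) b = 0 := by
    apply h1.1
    rw [map_zero]
    have h5 := baseToRes_comp s i z
    have h6 : baseToRes (i ≫ s) z = (baseToRes (ofibTo s ρ) z).comp ρ := by
      have h7 : CommRingCat.ofHom (baseToRes (i ≫ s) z) =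
          CommRingCat.ofHom ((baseToRes (ofibTo s ρ) z).comp ρ) := by
        apply Spec.map_injective
        rw [specMap_baseToRes, CommRingCat.ofHom_comp, Spec.map_comp, specMap_baseToRes,
          Category.assoc, (isPullback_ofib s ρ).w]
      exact congrArg CommRingCat.Hom.hom h7
    have h8 : (i.residueFieldMap z).hom (baseToRes s (i z) b) = baseToRes (i ≫ s) z b :=
      (DFunLike.congr_fun h5 b).symm
    have h9 : ρ b = 0 := Ideal.Quotient.eq_zero_iff_mem.2 (Ideal.mem_span_singleton_self b)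
    rw [h8, h6, RingHom.comp_apply, h9, map_zero]
  obtain ⟨p, hp, hp0⟩ := exists_prime_of_ker hR hdim (baseToRes s (i z)) hb h4
  have hfact : Fact p.Prime := ⟨hp⟩
  obtain ⟨e, he⟩ := hφ b
  have h5 : ((p : ℕ) : X.presheaf.stalk (i z)) ∈ maximalIdeal (X.presheaf.stalk (i z)) := by
    rw [← residue_eq_zero_iff, map_natCast]
    exact hp0
  have h6 : baseToStalk s (i z) b ∈ maximalIdeal (X.presheaf.stalk (i z)) := by
    rw [← residue_eq_zero_iff]
    exact h4
  have h7 := hV E h3 (X.presheaf.stalk (i z)) ((φ.comp (X.residue x).hom).comp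
    (X.presheaf.stalkSpecializes hxz).hom) (baseToStalk s (i z) b) h6 e (by
      rw [← he, RingHom.comp_apply, baseToStalk_specializes]
      rfl) (by
      rintro rfl
      rw [map_zero] at he
      exact hb (hdom x hx (by rw [φ.injective (he.trans (map_zero φ).symm), map_zero]))) p h5
  exact ⟨p, hp, Ruled.of_equiv (RingEquiv.ofBijective (i.residueFieldMap z).hom h1) h7⟩

/-- The closed fibres, from `ruled_of_local` and `mem_of_ruled'`. -/
theorem mem_closed_fibre_of {P : Scheme.{0} → Prop} (hV : RuledOfLocalKron)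
    (hS : ∀ {Z : Scheme.{0}}, Arithmetic Z →
      (∀ z : Z, ∃ p : ℕ, p.Prime ∧ Ruled p (Z.residueField z)) → P Z)
    {R : Type} [CommRing R] [IsDomain R] (hR : Algebra.FiniteType ℤ R)
    (hdim : ringKrullDim R ≤ 1) {X : Scheme.{0}} (s : X ⟶ Spec (CommRingCat.of R)) (hs : IsFT s)
    (hdom : ∀ x : X, IsGeneric x → Function.Injective (baseToRes s x))
    (hgen : ∀ x : X, IsGeneric x → RuledAt s x) (b : R) (hb : b ≠ 0) :
    P (ofib s (Ideal.Quotient.mk (Ideal.span {b}))) :=
  hS (arithmetic_of_isFT (finiteType_of_surj hR (Ideal.Quotient.mk (Ideal.span {b}))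
    Ideal.Quotient.mk_surjective) (hs.of_isPullback (isPullback_ofib s _)))
    (ruled_closed_point hV hR hdim s hdom hgen b hb)

end Pool.Agent.Helper9.RS
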