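import Pool.Agent.Helper9.RS.Defs2
import Pool.Agent.Helper9.RS.R

/-!
# Generic points of the geometric generic fibre over the generic points of a dominant scheme
-/

set_option autoImplicit false

namespace Pool.Agent.Helper9.RS

open AlgebraicGeometry CategoryTheory Limits IsLocalRing
open Pool.Agent.Helper45.LG Pool.Agent.Helper45.LS

/-- Every point of a scheme specialises a generic point. -/
theorem exists_isGeneric {X : Scheme.{0}} (y : X) : ∃ y₀ : X, IsGeneric y₀ ∧ y₀ ⤳ y := by
  have h1 : IsIrreducible (irreducibleComponent y) := isIrreducible_irreducibleComponent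
  have h2 : IsClosed (irreducibleComponent y) := isClosed_irreducibleComponent
  have h3 := h1.isGenericPoint_genericPoint h2
  refine ⟨h1.genericPoint, fun t ht => ?_, h3.specializes mem_irreducibleComponent⟩
  have h4 : irreducibleComponent y ⊆ closure {t} := by
    rw [← h3.def]
    exact ht.closure_subset
  have h5 : closure {t} = irreducibleComponent y :=
    eq_irreducibleComponent isIrreducible_singleton.closure.isPreirreducible h4
  have h6 : IsGenericPoint t (irreducibleComponent y) := h5
  exact h6.eq h3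

section

variable {R : Type} [CommRing R] {X Y : Scheme.{0}} (s : X ⟶ Spec (CommRingCat.of R))

theorem specMap_baseToStalk (x : X) :
    Spec.map (CommRingCat.ofHom (baseToStalk s x)) = X.fromSpecStalk x ≫ s := by
  unfold baseToStalk
  rw [CommRingCat.ofHom_hom, Spec.map_preimage]

theorem specMap_baseToRes (x : X) :
    Spec.map (CommRingCat.ofHom (baseToRes s x)) = X.fromSpecResidueField x ≫ s := by
  unfold baseToRes
  rw [CommRingCat.ofHom_comp, Spec.map_comp, specMap_baseToStalk, CommRingCat.ofHom_hom,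
    ← Category.assoc]
  rfl

theorem baseToRes_comp (i : Y ⟶ X) (y : Y) :
    baseToRes (i ≫ s) y = (i.residueFieldMap y).hom.comp (baseToRes s (i y)) := by
  have h : CommRingCat.ofHom (baseToRes (i ≫ s) y) =
      CommRingCat.ofHom ((i.residueFieldMap y).hom.comp (baseToRes s (i y))) := by
    apply Spec.map_injective
    rw [specMap_baseToRes, CommRingCat.ofHom_comp, Spec.map_comp, specMap_baseToRes,
      CommRingCat.ofHom_hom, ← Category.assoc, ← Category.assoc,
      Scheme.Hom.SpecMap_residueFieldMap_fromSpecResidueField]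
  exact congrArg CommRingCat.Hom.hom h

theorem baseToRes_specMap {K : Type} [Field K] (f : Y ⟶ Spec (CommRingCat.of K)) (ρ : R →+* K)
    (y : Y) : baseToRes (f ≫ Spec.map (CommRingCat.ofHom ρ)) y = (toRes f y).comp ρ := by
  have h : CommRingCat.ofHom (baseToRes (f ≫ Spec.map (CommRingCat.ofHom ρ)) y) =
      CommRingCat.ofHom ((toRes f y).comp ρ) := by
    apply Spec.map_injective
    rw [specMap_baseToRes, CommRingCat.ofHom_comp, Spec.map_comp, specMap_toRes, Category.assoc]
  exact congrArg CommRingCat.Hom.hom h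

/-- A point of the base change over a point of `X`. -/
theorem exists_ofib_point {K : Type} [Field K] (ρ : R →+* K) (x : X) {Ω : Type} [Field Ω]
    (u : X.residueField x →+* Ω) (v : K →+* Ω) (huv : u.comp (baseToRes s x) = v.comp ρ) :
    ∃ y : ofib s ρ, ofibFst s ρ y = x := by
  have hw : (Spec.map (CommRingCat.ofHom u) ≫ X.fromSpecResidueField x) ≫ s =
      Spec.map (CommRingCat.ofHom v) ≫ Spec.map (CommRingCat.ofHom ρ) := by
    rw [Category.assoc, ← specMap_baseToRes, ← Spec.map_comp, ← Spec.map_comp,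
      ← CommRingCat.ofHom_comp, ← CommRingCat.ofHom_comp, huv]
  let l := (isPullback_ofib s ρ).lift _ _ hw
  have hl : l ≫ ofibFst s ρ = Spec.map (CommRingCat.ofHom u) ≫ X.fromSpecResidueField x :=
    (isPullback_ofib s ρ).lift_fst _ _ _
  let o : Spec (CommRingCat.of Ω) := closedPoint Ω
  refine ⟨l o, ?_⟩
  have h1 : (l ≫ ofibFst s ρ) o =
      (Spec.map (CommRingCat.ofHom u) ≫ X.fromSpecResidueField x) o := by
    rw [hl]
  rw [Scheme.Hom.comp_apply, Scheme.Hom.comp_apply] at h1
  rw [h1]
  exact Scheme.fromSpecResidueField_apply _ _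

end

/-- A generic point of the geometric generic fibre over a generic point of `X`. -/
theorem ruledAt_of_ruling {R : Type} [CommRing R] [IsDomain R] {X : Scheme.{0}}
    (s : X ⟶ Spec (CommRingCat.of R))
    (hdom : ∀ x : X, IsGeneric x → Function.Injective (baseToRes s x))
    (hrul : ∃ (E : Type) (_ : Field E), IsAlgClosed E ∧ Kron 1 E ∧
      ∃ φ : FractionRing (MvPolynomial (Fin 2) (AlgebraicClosure (FractionRing R))) →+* RatFunc E,
        ∀ c : AlgebraicClosure (FractionRing R), ∃ e : E, φ (algebraMap _ _ c) = RatFunc.C e)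
    (h : ∀ x : ofib s (algebraMap R (AlgebraicClosure (FractionRing R))), IsGeneric x →
      PureAt 2 (ofibTo s (algebraMap R (AlgebraicClosure (FractionRing R)))) x)
    (x : X) (hx : IsGeneric x) : RuledAt s x := by
  let Q : Type := FractionRing R
  let K : Type := AlgebraicClosure Q
  let ρ : R →+* K := algebraMap R K
  let Ω : Type := AlgebraicClosure (X.residueField x)
  let u : X.residueField x →+* Ω := algebraMap _ _
  have hinj := hdom x hx
  let q : Q →+* Ω := IsFractionRing.lift (g := u.comp (baseToRes s x)) (u.injective.comp hinj)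
  have hq : ∀ r : R, q (algebraMap R Q r) = u (baseToRes s x r) := fun r =>
    IsFractionRing.lift_algebraMap _ _
  let _ : Algebra Q Ω := q.toAlgebra
  let v : K →ₐ[Q] Ω := IsAlgClosed.lift
  have hv : ∀ r : R, v (ρ r) = u (baseToRes s x r) := fun r => by
    rw [← hq]
    exact v.commutes (algebraMap R Q r)
  obtain ⟨y, hy⟩ := exists_ofib_point s ρ x u v (RingHom.ext fun r => (hv r).symm)
  obtain ⟨y₀, hy₀, hsp⟩ := exists_isGeneric y
  have h1 : ofibFst s ρ y₀ = x := by
    apply hx
    rw [← hy]
    exact hsp.map (ofibFst s ρ).continuous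
  obtain ⟨e, he⟩ := h y₀ hy₀
  obtain ⟨E, _, hE1, hE2, φ, hφ⟩ := hrul
  subst h1
  refine ⟨E, inferInstance, hE1, hE2,
    (φ.comp (e.symm : (ofib s ρ).residueField y₀ →+* _)).comp
      ((ofibFst s ρ).residueFieldMap y₀).hom, fun r => ?_⟩
  obtain ⟨c, hc⟩ := hφ (ρ r)
  refine ⟨c, ?_⟩
  have h2 : ((ofibFst s ρ).residueFieldMap y₀).hom (baseToRes s (ofibFst s ρ y₀) r) =
      toRes (ofibTo s ρ) y₀ (ρ r) := by
    have h3 := baseToRes_comp s (ofibFst s ρ) y₀
    have h4 := baseToRes_specMap (ofibTo s ρ) ρ y₀
    rw [(isPullback_ofib s ρ).w, h4] at h3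
    exact (DFunLike.congr_fun h3 r).symm
  have h5 : e.symm (toRes (ofibTo s ρ) y₀ (ρ r)) =
      algebraMap K (FractionRing (MvPolynomial (Fin 2) K)) (ρ r) := by
    rw [RingEquiv.symm_apply_eq]
    exact (he (ρ r)).symm
  calc _ = φ (e.symm (((ofibFst s ρ).residueFieldMap y₀).hom
        (baseToRes s (ofibFst s ρ y₀) r))) := rfl
    _ = φ (e.symm (toRes (ofibTo s ρ) y₀ (ρ r))) := by rw [h2]
    _ = φ (algebraMap K (FractionRing (MvPolynomial (Fin 2) K)) (ρ r)) := by rw [h5]
    _ = RatFunc.C c := hc

end Pool.Agent.Helper9.RS
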