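import Pool.Agent.Helper9.RS.KD1
import Pool.Agent.Helper9.RS.KD2
import Pool.Agent.Helper9.RS.X3

/-!
# Ruled points of schemes over arithmetic curves
-/

set_option autoImplicit false

namespace Pool.Agent.Helper9.RS

open AlgebraicGeometry CategoryTheory Limits Pool.Agent.Helper45.LG Pool.Agent.Helper45.LS

/-- A generic point of the geometric generic fibre over a generic point of `X`. -/
theorem ruledAt_of_geometric {R : Type} [CommRing R] [IsDomain R] (hR : Algebra.FiniteType ℤ R)
    (hdim : ringKrullDim R ≤ 1) {X : Scheme.{0}}
    (s : X ⟶ Spec (CommRingCat.of R))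
    (hdom : ∀ x : X, IsGeneric x → Function.Injective (baseToRes s x))
    (h : ∀ x : ofib s (algebraMap R (AlgebraicClosure (FractionRing R))), IsGeneric x →
      PureAt 2 (ofibTo s (algebraMap R (AlgebraicClosure (FractionRing R)))) x)
    (x : X) (hx : IsGeneric x) : RuledAt s x :=
  ruledAt_of_ruling s hdom (exists_ruling (kron_algebraic (K := FractionRing R)
    (L := AlgebraicClosure (FractionRing R)) inferInstance
    (kron_of_dim (K := FractionRing R) hR hdim))) h x hx

end Pool.Agent.Helper9.RS
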