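import Pool.Agent.Helper9.RS.S
import Pool.Agent.Helper9.RS.G
import Pool.Agent.Helper9.RS.F
import Pool.Agent.Helper9.RS.Defs3
import Pool.Agent.Helper9.RS.TR
import Pool.Agent.Helper9.RS.KD1
import Pool.Agent.Helper9.RS.KD2
import Pool.Agent.Helper9.RS.L1
import Pool.Agent.Helper9.RS.V2
import Pool.Agent.Helper9.RS.X2
import Pool.Agent.Helper9.RS.X3F

/-!
# Models of rational surfaces over arithmetic curves
-/

set_option autoImplicit false

namespace Pool.Agent.Helper9.RS

open AlgebraicGeometry CategoryTheory Limits Pool.Agent.Helper45.LG Pool.Agent.Helper45.LS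

/-- the closed fibres of ruled schemes -/
theorem mem_closed_fibre {P : Scheme.{0} → Prop} (hP : TransferClosed P) {R : Type} [CommRing R]
    [IsDomain R] (hR : Algebra.FiniteType ℤ R) (hdim : ringKrullDim R ≤ 1) {X : Scheme.{0}}
    (s : X ⟶ Spec (CommRingCat.of R)) (hs : IsFT s)
    (hdom : ∀ x : X, IsGeneric x → Function.Injective (baseToRes s x))
    (hgen : ∀ x : X, IsGeneric x → RuledAt s x) (b : R) (hb : b ≠ 0) :
    P (ofib s (Ideal.Quotient.mk (Ideal.span {b}))) :=
  mem_closed_fibre_of (fun _ _ _ hE _ _ _ phi pi hpi e he he0 p _ hp =>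
    ruled_of_local hE phi pi hpi e he he0 p hp) (fun hZ h => mem_of_ruled' hP hZ h)
    hR hdim s hs hdom hgen b hb

/-- **Geometric models.** -/
theorem mem_of_geoModel {P : Scheme.{0} → Prop} (hP : FlatClosed P) {R : Type} [CommRing R]
    [IsDomain R] {X : Scheme.{0}} {s : X ⟶ Spec (CommRingCat.of R)} (h : GeoModel s) : P X := by
  have hR := h.fg
  have hdim := h.dim
  have hs : IsFT s := ⟨h.lft, h.qc, h.sep⟩
  have hX : Arithmetic X := arithmetic_of_isFT hR hs
  have hK0 : Kron 0 (FractionRing R) := kron_of_dim hR hdim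
  have hK : Kron 0 (AlgebraicClosure (FractionRing R)) := kron_algebraic inferInstance hK0
  have hinj : Function.Injective (algebraMap R (AlgebraicClosure (FractionRing R))) := by
    rw [IsScalarTower.algebraMap_eq R (FractionRing R)]
    exact (algebraMap (FractionRing R) _).injective.comp (IsFractionRing.injective R _)
  have halg : Algebra.IsAlgebraic R (AlgebraicClosure (FractionRing R)) := by
    have h1 : Algebra.IsAlgebraic R (FractionRing R) :=
      IsFractionRing.isAlgebraic_iff' R R (FractionRing R) |>.1 inferInstance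
    exact Algebra.IsAlgebraic.trans R (FractionRing R) _
  obtain ⟨b, hb, h1⟩ := exists_open hP hR hinj halg hK s hs h.geometric
  rcases h.closedFibres with h2 | ⟨hdom, hruled⟩
  · exact mem_closed_fibre_geometric hP hR hdim s hs h2 b hb h1
  have h2 := mem_closed_fibre (transferClosed hP) hR hdim s hs hdom hruled b hb
  have hC := ocls hP.toMorinClosed hX s
  have hft : (RingHom.id R).FiniteType := RingHom.FiniteType.id R
  have h3 : P (ofib s (RingHom.id R)) := hC.glue R (RingHom.id R) b hft h2 h1
  have hiso : IsIso (Spec.map (CommRingCat.ofHom (RingHom.id R))) := by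
    have h4 : CommRingCat.ofHom (RingHom.id R) = 𝟙 (CommRingCat.of R) := rfl
    rw [h4, Spec.map_id]
    infer_instance
  exact hP.iso _ _ (arithmetic_ofib hX hft) (ofib_id s hiso) h3

/-- **Models of rational surfaces.** -/
theorem geoModel_of_rational {R : Type} [CommRing R] [IsDomain R] {X : Scheme.{0}}
    {s : X ⟶ Spec (CommRingCat.of R)} (h : RationalModel s) : GeoModel s where
  fg := h.fg
  dim := h.dim
  lft := h.lft
  qc := h.qc
  sep := h.sep
  geometric := geo_of_surface _
    (IsFT.of_isPullback (isPullback_ofib s _) ⟨h.lft, h.qc, h.sep⟩) h.proper h.regular h.rational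
  closedFibres := Or.inr ⟨h.dominant, ruledAt_of_geometric h.fg h.dim s h.dominant h.rational⟩

end Pool.Agent.Helper9.RS
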