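import Pool.Agent.Helper9.RS.Defs3
import Pool.Agent.Helper45.LS.Main

/-!
# Base change of the rules by a product
-/

set_option autoImplicit false

namespace Pool.Agent.Helper9.RS

open AlgebraicGeometry CategoryTheory Limits Pool.Agent.Helper45.LG Pool.Agent.Helper45.LS
open Pool.Agent.Helper87.CC (CurveProd)

section

variable (X W : Scheme.{0})

/-- first projection -/
noncomputable def sfst : sprod X W ⟶ X := pullback.fst _ _

/-- second projection -/
noncomputable def ssnd : sprod X W ⟶ W := pullback.snd _ _

theorem isPullback_sprod : IsPullback (sfst X W) (ssnd X W) (specZIsTerminal.from X)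
    (specZIsTerminal.from W) := IsPullback.of_hasPullback _ _

variable {X} {Y : Scheme.{0}}

/-- functoriality -/
noncomputable def smap (f : Y ⟶ X) : sprod Y W ⟶ sprod X W :=
  (isPullback_sprod X W).lift (sfst Y W ≫ f) (ssnd Y W) (specZIsTerminal.hom_ext _ _)

@[reassoc (attr := simp)]
theorem smap_fst (f : Y ⟶ X) : smap W f ≫ sfst X W = sfst Y W ≫ f :=
  (isPullback_sprod X W).lift_fst _ _ _

@[reassoc (attr := simp)]
theorem smap_snd (f : Y ⟶ X) : smap W f ≫ ssnd X W = ssnd Y W :=
  (isPullback_sprod X W).lift_snd _ _ _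

theorem isPullback_smap (f : Y ⟶ X) : IsPullback (smap W f) (sfst Y W) (sfst X W) f := by
  refine IsPullback.of_right ?_ (smap_fst W f) (isPullback_sprod X W).flip
  rw [smap_snd, specZIsTerminal.hom_ext (f ≫ specZIsTerminal.from X) (specZIsTerminal.from Y)]
  exact (isPullback_sprod Y W).flip

variable {W}

theorem isFT_terminal (hX : Arithmetic X) : IsFT (specZIsTerminal.from X) := by
  obtain ⟨f, h1, h2, h3⟩ := hX
  rw [specZIsTerminal.hom_ext (specZIsTerminal.from X) f]
  exact ⟨h1, h2, h3⟩

theorem arithmetic_sprod (hX : Arithmetic X) (hW : Arithmetic W) : Arithmetic (sprod X W) := by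
  have h1 : IsFT (sfst X W) := (isFT_terminal hW).of_isPullback (isPullback_sprod X W).flip
  obtain ⟨h6, h7, h8⟩ := h1.comp (isFT_terminal hX)
  exact ⟨_, h6, h7, h8⟩

theorem isIso_smap (f : Y ⟶ X) [IsIso f] : IsIso (smap W f) :=
  MorphismProperty.of_isPullback (P := MorphismProperty.isomorphisms _)
    (isPullback_smap W f).flip (inferInstanceAs (IsIso f))

theorem closedOpen_smap {Z U : Scheme.{0}} {i : Z ⟶ X} {j : U ⟶ X} (h : ClosedOpen i j) :
    ClosedOpen (smap W i) (smap W j) :=
  closedOpen_of_isPullback (isPullback_smap W i).flip (isPullback_smap W j).flip h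

/-- fibre powers of a base change -/
theorem fibrePower_of_isPullback {X' Y' : Scheme.{0}} {f : Y ⟶ X} {g : X' ⟶ X} {f' : Y' ⟶ X'}
    {y : Y' ⟶ Y} (h : IsPullback y f' f g) (n : ℕ) :
    ∃ b : (fibrePower f' n).left ⟶ (fibrePower f n).left,
      IsPullback b (fibrePower f' n).hom (fibrePower f n).hom g := by
  induction n with
  | zero => exact ⟨y, h⟩
  | succ n ih =>
    obtain ⟨b, hb⟩ := ih
    have h1 : IsPullback (pullback.fst (fibrePower f' n).hom f')
        (pullback.snd (fibrePower f' n).hom f') (fibrePower f' n).hom f' :=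
      IsPullback.of_hasPullback _ _
    have h2 : IsPullback (pullback.fst (fibrePower f n).hom f)
        (pullback.snd (fibrePower f n).hom f) (fibrePower f n).hom f :=
      IsPullback.of_hasPullback _ _
    -- the base change of `f` along `b ≫ hom`
    have h3 : IsPullback (pullback.snd (fibrePower f' n).hom f' ≫ y)
        (pullback.fst (fibrePower f' n).hom f') f ((fibrePower f' n).hom ≫ g) :=
      h1.flip.paste_horiz h
    rw [← hb.w] at h3
    let c : pullback (fibrePower f' n).hom f' ⟶ pullback (fibrePower f n).hom f :=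
      h2.lift (pullback.fst (fibrePower f' n).hom f' ≫ b)
        (pullback.snd (fibrePower f' n).hom f' ≫ y) (by
          rw [Category.assoc]
          exact h3.w.symm)
    have hc1 : c ≫ pullback.fst (fibrePower f n).hom f =
        pullback.fst (fibrePower f' n).hom f' ≫ b := h2.lift_fst _ _ _
    have hc2 : c ≫ pullback.snd (fibrePower f n).hom f =
        pullback.snd (fibrePower f' n).hom f' ≫ y := h2.lift_snd _ _ _
    rw [← hc2] at h3
    have h4 : IsPullback c (pullback.fst (fibrePower f' n).hom f')
        (pullback.fst (fibrePower f n).hom f) b :=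
      IsPullback.of_right h3 hc1 h2.flip
    exact ⟨c, h4.paste_vert hb⟩

end

end Pool.Agent.Helper9.RS
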