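import Pool.Agent.Helper9.RS.Prod
import Pool.Agent.Helper87.CC.Ring

/-!
# Base change of the rules by a product, II
-/

set_option autoImplicit false

namespace Pool.Agent.Helper9.RS

open AlgebraicGeometry CategoryTheory Limits Pool.Agent.Helper45.LG Pool.Agent.Helper45.LS
open Pool.Agent.Helper87.CC (CurveProd)
open TensorProduct

/-- two base changes of the same map are isomorphic -/
theorem nonempty_iso_of_isPullback {A B C D D' : Scheme.{0}} {a : D ⟶ A} {b : D ⟶ B} {a' : D' ⟶ A}
    {b' : D' ⟶ B} {f : A ⟶ C} {g : B ⟶ C} (h : IsPullback a b f g) (h' : IsPullback a' b' f g) :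
    Nonempty (D ≅ D') := ⟨h.isoIsPullback _ _ h'⟩

theorem sprod_comm (X W : Scheme.{0}) : Nonempty (sprod X W ≅ sprod W X) :=
  nonempty_iso_of_isPullback (isPullback_sprod X W) (isPullback_sprod W X).flip

theorem sprod_congr {X Y : Scheme.{0}} (W : Scheme.{0}) (h : Nonempty (X ≅ Y)) :
    Nonempty (sprod X W ≅ sprod Y W) := by
  obtain ⟨e⟩ := h
  have := isIso_smap (W := W) e.hom
  exact ⟨asIso (smap W e.hom)⟩

theorem sprod_assoc (X Y Z : Scheme.{0}) :
    Nonempty (sprod (sprod X Y) Z ≅ sprod X (sprod Y Z)) := by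
  -- both are the base change of `Y × Z → Y` along `X × Y → Y`
  have h1 : IsPullback (smap Z (ssnd X Y)) (sfst (sprod X Y) Z) (sfst Y Z) (ssnd X Y) :=
    isPullback_smap Z (ssnd X Y)
  let c : sprod X (sprod Y Z) ⟶ sprod X Y :=
    (isPullback_sprod X Y).lift (sfst X (sprod Y Z)) (ssnd X (sprod Y Z) ≫ sfst Y Z)
      (specZIsTerminal.hom_ext _ _)
  have hc1 : c ≫ sfst X Y = sfst X (sprod Y Z) := (isPullback_sprod X Y).lift_fst _ _ _
  have hc2 : c ≫ ssnd X Y = ssnd X (sprod Y Z) ≫ sfst Y Z := (isPullback_sprod X Y).lift_snd _ _ _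
  have h3 : IsPullback (ssnd X (sprod Y Z)) c (sfst Y Z) (ssnd X Y) := by
    refine IsPullback.of_bot ?_ hc2.symm (isPullback_sprod X Y).flip
    rw [hc1, specZIsTerminal.hom_ext (sfst Y Z ≫ specZIsTerminal.from Y)
      (specZIsTerminal.from (sprod Y Z))]
    exact (isPullback_sprod X (sprod Y Z)).flip
  exact nonempty_iso_of_isPullback h1 h3

theorem sprod_left_comm (X Y Z : Scheme.{0}) :
    Nonempty (sprod X (sprod Y Z) ≅ sprod Y (sprod X Z)) := by
  obtain ⟨e1⟩ := sprod_assoc X Y Z
  obtain ⟨e2⟩ := sprod_congr Z (sprod_comm X Y)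
  obtain ⟨e3⟩ := sprod_assoc Y X Z
  exact ⟨e1.symm ≪≫ e2 ≪≫ e3⟩

theorem sprod_spec (R S : Type) [CommRing R] [CommRing S] :
    Nonempty (sprod (Spec (CommRingCat.of R)) (Spec (CommRingCat.of S)) ≅
      Spec (CommRingCat.of (R ⊗[ℤ] S))) := by
  have h1 : IsPullback (Spec.map (CommRingCat.ofHom (algebraMap R (R ⊗[ℤ] S))))
      (Spec.map (CommRingCat.ofHom
        (Algebra.TensorProduct.includeRight : S →ₐ[ℤ] R ⊗[ℤ] S).toRingHom))
      (Spec.map (CommRingCat.ofHom (algebraMap ℤ R)))
      (Spec.map (CommRingCat.ofHom (algebraMap ℤ S))) :=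
    isPullback_SpecMap_of_isPushout _ _ _ _ (CommRingCat.isPushout_tensorProduct ℤ R S)
  rw [specZIsTerminal.hom_ext (Spec.map (CommRingCat.ofHom (algebraMap ℤ R)))
    (specZIsTerminal.from _), specZIsTerminal.hom_ext
    (Spec.map (CommRingCat.ofHom (algebraMap ℤ S))) (specZIsTerminal.from _)] at h1
  exact nonempty_iso_of_isPullback (isPullback_sprod _ _) h1

theorem finiteType_poly : Algebra.FiniteType ℤ (Polynomial ℤ) :=
  Algebra.FiniteType.trans (S := ℤ) inferInstance inferInstance

theorem isFT_fibrePower {X Y : Scheme.{0}} {f : Y ⟶ X} (hf : IsFT f) (n : ℕ) :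
    IsFT (fibrePower f n).hom := by
  induction n with
  | zero => exact hf
  | succ n ih =>
    have h1 : IsFT (pullback.fst (fibrePower f n).hom f) :=
      hf.of_isPullback (IsPullback.of_hasPullback _ _).flip
    exact h1.comp ih

theorem arithmetic_of_comp {X Y : Scheme.{0}} {f : Y ⟶ X} (hf : IsFT f) (hX : Arithmetic X) :
    Arithmetic Y := by
  obtain ⟨g, h1, h2, h3⟩ := hX
  obtain ⟨h1', h2', h3'⟩ := hf.comp (g := g) ⟨h1, h2, h3⟩
  exact ⟨f ≫ g, h1', h2', h3'⟩

/-- **Base change of the rules.** -/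
theorem ProdClosed.prod {P : Scheme.{0} → Prop} (hP : ProdClosed P) {W : Scheme.{0}}
    (hW : Arithmetic W)
    (hWT : ∀ (T : Type) [CommRing T], CurveProd T → P (sprod (Spec (CommRingCat.of T)) W)) :
    ProdClosed (fun Y => P (sprod Y W)) where
  iso X Y hX h hX' := hP.iso _ _ (arithmetic_sprod hX hW) (sprod_congr W h) hX'
  empty X hX := by
    apply hP.empty
    exact Function.isEmpty (sfst X W)
  closed Z X U i j hX h := hP.closed _ _ _ _ _ (arithmetic_sprod hX hW) (closedOpen_smap h)
  opn Z X U i j hX h := hP.opn _ _ _ _ _ (arithmetic_sprod hX hW) (closedOpen_smap h)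
  glue Z X U i j hX h := hP.glue _ _ _ _ _ (arithmetic_sprod hX hW) (closedOpen_smap h)
  summand Z X i hX h1 h2 := hP.summand _ _ (smap W i) (arithmetic_sprod hX hW)
    (MorphismProperty.of_isPullback (isPullback_smap W i).flip h1)
    (MorphismProperty.of_isPullback (isPullback_smap W i).flip h2)
  line X hX h := by
    have h1 := hP.line _ (arithmetic_sprod hX hW) h
    refine hP.iso _ _ (arithmetic_fibre (arithmetic_sprod hX hW) finiteType_poly) ?_ h1
    have h2 := (isPullback_smap W (fibreFst X (Polynomial ℤ))).flip.paste_horiz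
      (isPullback_fibre X (Polynomial ℤ)).flip
    rw [specZIsTerminal.hom_ext (sfst X W ≫ specZIsTerminal.from X)
      (specZIsTerminal.from (sprod X W))] at h2
    exact nonempty_iso_of_isPullback (isPullback_fibre (sprod X W) (Polynomial ℤ)) h2.flip
  etale Y X f hX h1 h2 h3 h := by
    refine hP.etale _ _ (smap W f) (arithmetic_sprod hX hW)
      (MorphismProperty.of_isPullback (isPullback_smap W f).flip h1)
      (MorphismProperty.of_isPullback (isPullback_smap W f).flip h2)
      (MorphismProperty.of_isPullback (isPullback_smap W f).flip h3) fun n => ?_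
    obtain ⟨b, hb⟩ := fibrePower_of_isPullback (isPullback_smap W f).flip n
    have hf : IsFT f := ⟨inferInstance, inferInstance, inferInstance⟩
    refine hP.iso _ _ (arithmetic_sprod (arithmetic_of_comp (isFT_fibrePower hf n) hX) hW) ?_ (h n)
    exact nonempty_iso_of_isPullback (isPullback_smap W (fibrePower f n).hom).flip hb
  transfer A B _ _ _ _ _ _ X s hX h := by
    refine hP.transfer A B _ (sfst X W ≫ s) (arithmetic_sprod hX hW) ?_
    have hft : (algebraMap A B).FiniteType :=
      RingHom.finiteType_algebraMap.2 (inferInstance : Algebra.FiniteType A B)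
    refine hP.iso _ _ (arithmetic_sprod (arithmetic_ofib hX hft) hW) ?_ h
    have h2 := (isPullback_smap W (ofibFst s (algebraMap A B))).paste_vert
      (isPullback_ofib s (algebraMap A B))
    exact nonempty_iso_of_isPullback h2 (isPullback_ofib (sfst X W ≫ s) (algebraMap A B))
  curves T _ hT := hWT T hT

/-- intersections -/
theorem ProdClosed.all {ι : Type 1} {P : ι → Scheme.{0} → Prop} (h : ∀ i, ProdClosed (P i)) :
    ProdClosed (fun Y => ∀ i, P i Y) where
  iso X Y hX e hX' i := (h i).iso X Y hX e (hX' i)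
  empty X hX i := (h i).empty X hX
  closed Z X U a b hX hc h1 h2 i := (h i).closed Z X U a b hX hc (h1 i) (h2 i)
  opn Z X U a b hX hc h1 h2 i := (h i).opn Z X U a b hX hc (h1 i) (h2 i)
  glue Z X U a b hX hc h1 h2 i := (h i).glue Z X U a b hX hc (h1 i) (h2 i)
  summand Z X a hX h1 h2 h3 i := (h i).summand Z X a hX h1 h2 (h3 i)
  line X hX h1 i := (h i).line X hX (h1 i)
  etale Y X f hX h1 h2 h3 h4 i := (h i).etale Y X f hX h1 h2 h3 fun n => h4 n i
  transfer A B _ _ _ _ _ _ X s hX h1 i := (h i).transfer A B X s hX (h1 i)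
  curves T _ hT i := (h i).curves T hT

end Pool.Agent.Helper9.RS
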