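import Pool.Agent.Helper9.RS.Prod2
import Pool.Agent.Helper9.RS.Main

/-!
# Products of geometric models
-/

set_option autoImplicit false

namespace Pool.Agent.Helper9.RS

open AlgebraicGeometry CategoryTheory Limits Pool.Agent.Helper45.LG Pool.Agent.Helper45.LS
open Pool.Agent.Helper87.CC (CurveProd)
open TensorProduct NumberField

section

attribute [local instance] Polynomial.algebra

theorem nonempty_line_iso (R : Type) [CommRing R] :
    Nonempty (fibre (Spec (CommRingCat.of R)) (Polynomial ℤ) ≅
      Spec (CommRingCat.of (Polynomial R))) := by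
  have h1 := (isPullback_SpecMap_of_isPushout _ _ _ _
    (CommRingCat.isPushout_of_isPushout ℤ R (Polynomial ℤ) (Polynomial R)))
  rw [specZIsTerminal.hom_ext (Spec.map (CommRingCat.ofHom (algebraMap ℤ R)))
    (specZIsTerminal.from _), specZIsTerminal.hom_ext
    (Spec.map (CommRingCat.ofHom (algebraMap ℤ (Polynomial ℤ)))) (specZIsTerminal.from _)] at h1
  exact nonempty_iso_of_isPullback (isPullback_fibre _ _) h1

end

theorem curveProd_of_maximal {A : Type} [CommRing A] [IsDomain A] (hA : Algebra.FiniteType ℤ A)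
    (h : ∀ I : Ideal A, I ≠ ⊥ → I.IsPrime → I.IsMaximal) : CurveProd A := by
  apply CurveProd.of_dim hA
  have h1 : Ring.KrullDimLE 1 A := Ring.krullDimLE_one_iff_of_noZeroDivisors.2 h
  rw [Ring.krullDimLE_iff] at h1
  exact_mod_cast h1

theorem ProdClosed.flatClosed {P : Scheme.{0} → Prop} (hP : ProdClosed P) : FlatClosed P where
  iso := hP.iso
  empty := hP.empty
  closed := hP.closed
  opn := hP.opn
  glue := hP.glue
  summand := hP.summand
  line R _ hR h := hP.iso _ _ (arithmetic_fibre hR finiteType_poly) (nonempty_line_iso R)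
    (hP.line _ hR h)
  etale := hP.etale
  numberRing F _ _ := by
    apply hP.curves
    exact curveProd_of_maximal inferInstance fun I hI hI' => hI'.isMaximal hI
  finiteField k _ _ := by
    apply hP.curves
    have h1 : Module.Finite ℤ k := Module.Finite.of_finite
    refine curveProd_of_maximal inferInstance fun I hI hI' => ?_
    rcases Ideal.eq_bot_or_top I with h | h
    · exact absurd h hI
    · exact absurd h hI'.ne_top
  dimOne A _ hA hdim := by
    apply hP.curves
    exact CurveProd.of_dim hA hdim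
  transfer := hP.transfer

theorem sprod_int (W : Scheme.{0}) : Nonempty (sprod (Spec (CommRingCat.of ℤ)) W ≅ W) := by
  obtain ⟨e1⟩ := sprod_comm (Spec (CommRingCat.of ℤ)) W
  obtain ⟨e2⟩ := fibreInt W
  exact ⟨e1 ≪≫ e2⟩

theorem arithmetic_spec {T : Type} [CommRing T] (hT : Algebra.FiniteType ℤ T) :
    Arithmetic (Spec (CommRingCat.of T)) := arithmetic_of_finiteType hT

theorem modelProd_step {R : Type} [CommRing R] [IsDomain R] {X : Scheme.{0}}
    {s : X ⟶ Spec (CommRingCat.of R)} {W : Scheme.{0}} (hX : GeoModel s) (ihW : Arithmetic W)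
    (ih : ∀ P : Scheme.{0} → Prop, ProdClosed P → ∀ (T : Type) [CommRing T], CurveProd T →
      P (sprod (Spec (CommRingCat.of T)) W)) : Arithmetic (sprod X W) ∧
    ∀ P : Scheme.{0} → Prop, ProdClosed P → ∀ (T : Type) [CommRing T], CurveProd T →
      P (sprod (Spec (CommRingCat.of T)) (sprod X W)) := by
  have hXa : Arithmetic X := arithmetic_of_isFT hX.fg ⟨hX.lft, hX.qc, hX.sep⟩
  refine ⟨arithmetic_sprod hXa ihW, fun P hP T _ hT => ?_⟩
  have hTa : Arithmetic (Spec (CommRingCat.of T)) := arithmetic_spec hT.ft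
  have h1 : ProdClosed (fun Y => P (sprod Y (sprod (Spec (CommRingCat.of T)) W))) := by
    refine hP.prod (arithmetic_sprod hTa ihW) fun T' _ hT' => ?_
    obtain ⟨e1⟩ := sprod_assoc (Spec (CommRingCat.of T')) (Spec (CommRingCat.of T)) W
    obtain ⟨e2⟩ := sprod_congr W (sprod_spec T' T)
    exact hP.iso _ _ (arithmetic_sprod (arithmetic_spec (hT'.ten hT).ft) ihW)
      ⟨e2.symm ≪≫ e1⟩ (ih P hP _ (hT'.ten hT))
  have h2 : P (sprod X (sprod (Spec (CommRingCat.of T)) W)) :=
    mem_of_geoModel h1.flatClosed hX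
  exact hP.iso _ _ (arithmetic_sprod hXa (arithmetic_sprod hTa ihW))
    (sprod_left_comm X (Spec (CommRingCat.of T)) W) h2

theorem modelProd_aux {W : Scheme.{0}} (h : ModelProd W) : Arithmetic W ∧
    ∀ P : Scheme.{0} → Prop, ProdClosed P → ∀ (T : Type) [CommRing T], CurveProd T →
      P (sprod (Spec (CommRingCat.of T)) W) := by
  induction h with
  | curves T₀ hT₀ =>
    refine ⟨arithmetic_spec hT₀.ft, fun P hP T _ hT => ?_⟩
    obtain ⟨e⟩ := sprod_spec T T₀
    have h1 := hT.ten hT₀
    exact hP.iso _ _ (arithmetic_spec h1.ft) ⟨e.symm⟩ (hP.curves _ h1)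
  | rational s W hX _ ih => exact modelProd_step (geoModel_of_rational hX) ih.1 ih.2
  | geometric s W hX _ ih => exact modelProd_step hX ih.1 ih.2

/-- **Products of models of rational surfaces and of geometric models.** -/
theorem modelProd_main {P : Scheme.{0} → Prop} (hP : ProdClosed P) {W : Scheme.{0}}
    (hW : ModelProd W) : P W := by
  obtain ⟨h1, h2⟩ := modelProd_aux hW
  have hZ : CurveProd ℤ := CurveProd.base
  exact hP.iso _ _ (arithmetic_sprod (arithmetic_spec hZ.ft) h1) (sprod_int W) (h2 P hP ℤ hZ)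

end Pool.Agent.Helper9.RS
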