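import Pool.Agent.Helper9.RS.S3
import Pool.Agent.Helper9.RS.TM

/-!
# Block S: arithmetic schemes with ruled points
-/

set_option autoImplicit false

namespace Pool.Agent.Helper9.RS

open AlgebraicGeometry CategoryTheory Pool.Agent.Helper45.LG Pool.Agent.Helper45.LS

theorem residueFieldMap_surjective {X Y : Scheme.{0}} (i : Y ⟶ X) (hi : IsClosedImmersion i)
    (y : Y) : Function.Surjective (i.residueFieldMap y) := by
  have h1 := Scheme.residue_residueFieldMap i y
  intro w
  obtain ⟨v, rfl⟩ := Y.residue_surjective y w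
  obtain ⟨u, rfl⟩ := i.stalkMap_surjective y v
  refine ⟨X.residue (i y) u, ?_⟩
  exact ConcreteCategory.congr_hom h1 u

theorem finiteType_of_isAffineOpen {W : Scheme.{0}} (hW : Arithmetic W) {U : W.Opens}
    (hU : IsAffineOpen U) : Algebra.FiniteType ℤ Γ(W, U) := by
  obtain ⟨f, hf, -, -⟩ := hW
  refine finiteType_of_arithmetic (R := Γ(W, U)) ⟨hU.fromSpec ≫ f, inferInstance, ?_, ?_⟩
  · infer_instance
  · infer_instance

/-- the prime may depend on the point -/
theorem mem_of_ruled' {P : Scheme.{0} → Prop} (hP : TransferClosed P) {Z : Scheme.{0}}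
    (hZ : Arithmetic Z)
    (h : ∀ z : Z, ∃ p : ℕ, p.Prime ∧ Ruled p (Z.residueField z)) : P Z := by
  refine mem_of_generic hP.toMorinClosed hZ ?_
  intro W i hi hW
  have hWa : Arithmetic W := by
    obtain ⟨f, h1, h2, h3⟩ := hZ
    exact ⟨i ≫ f, inferInstance, inferInstance, inferInstance⟩
  obtain ⟨p, hp, hchar, k, hk1, halg, hac, hsm, ⟨φ⟩⟩ := h (i (genericPoint W))
  have hpf : Fact p.Prime := ⟨hp⟩
  have hbij : Function.Bijective (i.residueFieldMap (genericPoint W)).hom :=
    ⟨RingHom.injective _, residueFieldMap_surjective i hi _⟩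
  let e := RingEquiv.ofBijective _ hbij
  obtain ⟨U, hU, hηU, -⟩ := exists_isAffineOpen_mem_and_subset (X := W) (U := ⊤)
    (x := genericPoint W) trivial
  have hne : Nonempty U := ⟨⟨_, hηU⟩⟩
  have hft := finiteType_of_isAffineOpen hWa hU
  let φ' : Γ(W, U) →+* RatFunc k := φ.comp (e.symm.toRingHom.comp
    ((W.residue (genericPoint W)).hom.comp (W.germToFunctionField U).hom))
  have hφ' : Function.Injective φ' := by
    refine φ.injective.comp (e.symm.injective.comp ?_)
    have h1 : Function.Injective (W.residue (genericPoint W)).hom := by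
      let _ : Field (W.presheaf.stalk (genericPoint W)) := inferInstanceAs (Field W.functionField)
      exact RingHom.injective _
    exact h1.comp (Scheme.germToFunctionField_injective W U)
  obtain ⟨a, ha, hPa⟩ := exists_away hP hft p hsm φ' hφ'
  refine ⟨W.basicOpen a, ?_, ?_⟩
  · have h1 : W.basicOpen a ≠ ⊥ := by
      rw [Ne, basicOpen_eq_bot_iff]
      exact ha
    obtain ⟨x, hx⟩ := (TopologicalSpace.Opens.ne_bot_iff_nonempty _).1 h1
    exact ⟨⟨x, hx⟩⟩
  · have hloc := hU.isLocalization_basicOpen a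
    refine hP.iso _ _ (arithmetic_of_finiteType (finiteType_away hft a)) ⟨?_⟩ hPa
    exact (Scheme.Spec.mapIso (IsLocalization.algEquiv (Submonoid.powers a)
      (Localization.Away a) Γ(W, W.basicOpen a)).toRingEquiv.symm.toCommRingCatIso.op) ≪≫
      (hU.basicOpen a).isoSpec.symm

theorem mem_of_ruled {P : Scheme.{0} → Prop} (hP : TransferClosed P) {Z : Scheme.{0}}
    (hZ : Arithmetic Z) (p : ℕ) [Fact p.Prime] (h : ∀ z : Z, Ruled p (Z.residueField z)) :
    P Z :=
  mem_of_ruled' hP hZ fun z => ⟨p, Fact.out, h z⟩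

end Pool.Agent.Helper9.RS
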