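import Pool.Agent.Helper9.RS.S1
import Pool.Agent.Helper9.RS.Defs

/-!
# A finitely generated subring of `k₁(u)` has a nonempty open part in the class
-/

set_option autoImplicit false

namespace Pool.Agent.Helper9.RS

open AlgebraicGeometry CategoryTheory Polynomial Pool.Agent.Helper45.LG Pool.Agent.Helper45.LS

section coeffs

variable {k R : Type} [Field k] [CommRing R] [Algebra R k]

theorem exists_lift_coeff (C : Subalgebra R k) (q : k[X]) (h : ∀ n, q.coeff n ∈ C) :
    ∃ f : C[X], f.map C.val.toRingHom = q := by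
  have h1 : q ∈ Polynomial.lifts C.val.toRingHom := by
    rw [Polynomial.lifts_iff_coeff_lifts]
    intro n
    exact ⟨⟨q.coeff n, h n⟩, rfl⟩
  rw [Polynomial.mem_lifts] at h1
  exact h1

theorem exists_coeffs (T : Finset (RatFunc k)) :
    ∃ (C : Subalgebra R k) (_ : C.FG) (g : C[X]), g ≠ 0 ∧ ∀ x ∈ T, ∃ f : C[X],
      x * algebraMap k[X] (RatFunc k) (g.map C.val.toRingHom) =
        algebraMap k[X] (RatFunc k) (f.map C.val.toRingHom) := by
  classical
  set S : Finset k := T.biUnion fun x => x.num.coeffs ∪ x.denom.coeffs with hS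
  set C : Subalgebra R k := Algebra.adjoin R (S : Set k) with hC
  have hCFG : C.FG := ⟨S, rfl⟩
  have hmem : ∀ x ∈ T, ∀ n, x.num.coeff n ∈ C ∧ x.denom.coeff n ∈ C := by
    intro x hx n
    constructor
    · by_cases h0 : x.num.coeff n = 0
      · rw [h0]
        exact C.zero_mem
      · apply Algebra.subset_adjoin
        rw [Finset.mem_coe, hS, Finset.mem_biUnion]
        exact ⟨x, hx, Finset.mem_union_left _ (Polynomial.coeff_mem_coeffs h0)⟩
    · by_cases h0 : x.denom.coeff n = 0
      · rw [h0]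
        exact C.zero_mem
      · apply Algebra.subset_adjoin
        rw [Finset.mem_coe, hS, Finset.mem_biUnion]
        exact ⟨x, hx, Finset.mem_union_right _ (Polynomial.coeff_mem_coeffs h0)⟩
  have hlift : ∀ x : RatFunc k, ∃ f d : C[X], x ∈ T → f.map C.val.toRingHom = x.num ∧
      d.map C.val.toRingHom = x.denom := by
    intro x
    by_cases hx : x ∈ T
    · obtain ⟨f, hf⟩ := exists_lift_coeff C x.num fun n => (hmem x hx n).1
      obtain ⟨d, hd⟩ := exists_lift_coeff C x.denom fun n => (hmem x hx n).2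
      exact ⟨f, d, fun _ => ⟨hf, hd⟩⟩
    · exact ⟨0, 0, fun h => absurd h hx⟩
  choose f d hfd using hlift
  refine ⟨C, hCFG, ∏ x ∈ T, d x, ?_, ?_⟩
  · rw [Finset.prod_ne_zero_iff]
    intro x hx h0
    have h1 := (hfd x hx).2
    rw [h0, Polynomial.map_zero] at h1
    exact x.denom_ne_zero h1.symm
  · intro x hx
    refine ⟨f x * ∏ y ∈ T.erase x, d y, ?_⟩
    rw [← Finset.mul_prod_erase T d hx, Polynomial.map_mul, Polynomial.map_mul, (hfd x hx).1,
      (hfd x hx).2, map_mul, map_mul, ← mul_assoc]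
    congr 1
    have h2 : algebraMap k[X] (RatFunc k) x.denom ≠ 0 := by
      rw [Ne, map_eq_zero_iff _ (RatFunc.algebraMap_injective k)]
      exact x.denom_ne_zero
    nth_rewrite 1 [← RatFunc.num_div_denom x]
    rw [div_mul_cancel₀ _ h2]

end coeffs

section locSub

variable {R K : Type} [CommRing R] [Field K]

/-- elements with a power of `f b` as denominator -/
def locSub (f : R →+* K) (b : R) : Subring K where
  carrier := {x | ∃ (n : ℕ) (r : R), x * f b ^ n = f r}
  mul_mem' := by
    rintro x y ⟨n, r, hx⟩ ⟨m, s, hy⟩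
    refine ⟨n + m, r * s, ?_⟩
    rw [map_mul, ← hx, ← hy]
    ring
  one_mem' := ⟨0, 1, by rw [pow_zero, mul_one, map_one]⟩
  add_mem' := by
    rintro x y ⟨n, r, hx⟩ ⟨m, s, hy⟩
    refine ⟨n + m, r * b ^ m + s * b ^ n, ?_⟩
    rw [map_add, map_mul, map_mul, ← hx, ← hy, map_pow, map_pow]
    ring
  zero_mem' := ⟨0, 0, by rw [zero_mul, map_zero]⟩
  neg_mem' := by
    rintro x ⟨n, r, hx⟩
    exact ⟨n, -r, by rw [map_neg, ← hx, neg_mul]⟩

theorem mem_locSub {f : R →+* K} {b : R} {x : K} :
    x ∈ locSub f b ↔ ∃ (n : ℕ) (r : R), x * f b ^ n = f r := Iff.rfl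

theorem map_mem_locSub (f : R →+* K) (b r : R) : f r ∈ locSub f b :=
  ⟨0, r, by rw [pow_zero, mul_one]⟩

theorem locSub_mono (f : R →+* K) (b c : R) : locSub f b ≤ locSub f (b * c) := by
  rintro x ⟨n, r, hx⟩
  refine ⟨n, r * c ^ n, ?_⟩
  rw [map_mul f b c, mul_pow, ← mul_assoc, hx, map_mul, map_pow]

theorem mem_of_adjoin_int {A : Type} [CommRing A] {s : Set A} (hs : Algebra.adjoin ℤ s = ⊤)
    (f : A →+* K) (S : Subring K) (h : ∀ x ∈ s, f x ∈ S) (x : A) : f x ∈ S := by
  have hx : x ∈ Algebra.adjoin ℤ s := by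
    rw [hs]
    trivial
  induction hx using Algebra.adjoin_induction with
  | mem x hx => exact h x hx
  | algebraMap n =>
    have h1 : f (algebraMap ℤ A n) = (n : K) := by
      rw [eq_intCast, map_intCast]
    rw [h1]
    exact intCast_mem S n
  | add x y _ _ hx hy =>
    rw [map_add]
    exact S.add_mem hx hy
  | mul x y _ _ hx hy =>
    rw [map_mul]
    exact S.mul_mem hx hy

end locSub

end Pool.Agent.Helper9.RS
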