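import Pool.Agent.Helper9.RS.S2
import Pool.Agent.Helper9.RS.N

/-!
# A finitely generated subring of `k₁(u)` has a nonempty open part in the class (continued)
-/

set_option autoImplicit false

namespace Pool.Agent.Helper9.RS

open AlgebraicGeometry CategoryTheory Polynomial Pool.Agent.Helper45.LG Pool.Agent.Helper45.LS

/-- algebraicity from the transcendence degree -/
theorem isAlgebraic_of_small {R A F K : Type} [CommRing R] [CommRing A] [IsDomain A] [Field F]
    [Field K] [Algebra R A] [Algebra R K] [Algebra A F] [IsFractionRing A F] [Algebra F K]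
    [Algebra A K] [IsScalarTower A F K] [IsScalarTower R A K]
    (hinj : Function.Injective (algebraMap A K)) (hA : ¬ Small 1 R A) (hK : Small 2 R K) :
    Algebra.IsAlgebraic F K := by
  unfold Small at hA
  push Not at hA
  obtain ⟨a, ha⟩ := hA
  set g : A →ₐ[R] K := IsScalarTower.toAlgHom R A K with hg
  have hx : AlgebraicIndependent R (g ∘ a) := ha.map' (f := g) hinj
  refine ⟨fun y => ?_⟩
  have h1 : ¬ Transcendental (Algebra.adjoin R (Set.range (g ∘ a))) y := by
    intro h
    have h2 := (hx.option_iff_transcendental y).2 h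
    let e : Fin 3 ≃ Option (Fin 2) := finSuccEquiv 2
    exact hK _ ((algebraicIndependent_equiv e).2 h2)
  have h2 : IsAlgebraic (Algebra.adjoin R (Set.range (g ∘ a))) y := not_not.1 h1
  have hle : Algebra.adjoin R (Set.range (g ∘ a)) ≤ g.range := by
    apply Algebra.adjoin_le
    rintro _ ⟨i, rfl⟩
    exact ⟨a i, rfl⟩
  have h3 : IsAlgebraic g.range y :=
    IsAlgebraic.ringHom_of_comp_eq (Subalgebra.inclusion hle) (RingHom.id K) h2
      (Subalgebra.inclusion_injective hle) rfl
  have h4 : IsAlgebraic A y :=
    IsAlgebraic.of_ringHom_of_comp_eq (g.rangeRestrict) (RingHom.id K) h3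
      g.rangeRestrict_surjective Function.injective_id rfl
  exact h4.extendScalars (IsFractionRing.injective A F)

theorem dim_le_one_of_succ {x : WithBot ℕ∞} (h : x + 1 ≤ 2) : x ≤ 1 := by
  induction x with
  | bot => exact bot_le
  | coe x =>
    have h1 : ((x + 1 : ℕ∞) : WithBot ℕ∞) ≤ ((2 : ℕ∞) : WithBot ℕ∞) := by
      refine le_trans (le_of_eq ?_) (h.trans (le_of_eq ?_))
      · rw [WithBot.coe_add]
        rfl
      · rfl
    have h2 : x + 1 ≤ 2 := WithBot.coe_le_coe.1 h1
    have h6 : x ≠ ⊤ := by
      rintro rfl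
      rw [top_add] at h2
      exact absurd h2 (by decide)
    obtain ⟨n, rfl⟩ := ENat.ne_top_iff_exists.1 h6
    have h3 : n + 1 ≤ 2 := by exact_mod_cast h2
    have h4 : n ≤ 1 := by omega
    exact_mod_cast h4

section

variable {P : Scheme.{0} → Prop} (hP : TransferClosed P)

include hP

theorem mem_polynomial {C : Type} [CommRing C] (hC : Algebra.FiniteType ℤ C)
    (hdim : ringKrullDim C ≤ 1) : P (Spec (CommRingCat.of C[X])) :=
  hP.line C (arithmetic_of_finiteType hC) (hP.dimOne C hC hdim)

theorem mem_polynomial_away {C : Type} [CommRing C] [IsDomain C] (hC : Algebra.FiniteType ℤ C)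
    (hdim : ringKrullDim C ≤ 1) (b : C[X]) (hb : b ≠ 0) :
    P (Spec (CommRingCat.of (Localization.Away b))) := by
  have hft : Algebra.FiniteType ℤ C[X] := Algebra.FiniteType.trans hC inferInstance
  have hnoeth : IsNoetherianRing C := Algebra.FiniteType.isNoetherianRing ℤ C
  refine hP.opn _ _ _ _ _ (arithmetic_of_finiteType hft) (closedOpen_spec C[X] b)
    (mem_polynomial hP hC hdim) (hP.dimOne _ ?_ ?_)
  · exact Algebra.FiniteType.trans hft inferInstance
  · have h1 := ringKrullDim_quotient_succ_le_of_nonZeroDivisor (mem_nonZeroDivisors_of_ne_zero hb)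
    rw [Polynomial.ringKrullDim_of_isNoetherianRing] at h1
    have h2 : ringKrullDim (C[X] ⧸ Ideal.span {b}) + 1 ≤ 2 :=
      h1.trans (le_trans (add_le_add_left hdim 1) (le_of_eq one_add_one_eq_two))
    exact dim_le_one_of_succ h2

theorem exists_away {A : Type} [CommRing A] [IsDomain A] (hA : Algebra.FiniteType ℤ A) (p : ℕ)
    [Fact p.Prime] {k : Type} [Field k] [Algebra (ZMod p) k] (hk : Small 1 (ZMod p) k)
    (φ : A →+* RatFunc k) (hφ : Function.Injective φ) :
    ∃ a : A, a ≠ 0 ∧ P (Spec (CommRingCat.of (Localization.Away a))) := by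
  classical
  -- the ring `A` is an algebra over the prime field
  have hchar : CharP (RatFunc k) p := by
    have h1 : CharP k p := charP_of_injective_algebraMap' (ZMod p) p
    exact charP_of_injective_algebraMap' k p
  have hcharA : CharP A p := (RingHom.charP_iff φ hφ p).2 hchar
  let _ : Algebra (ZMod p) A := ZMod.algebra A p
  have hnoethA : IsNoetherianRing A := Algebra.FiniteType.isNoetherianRing ℤ A
  by_cases hsm : Small 1 (ZMod p) A
  · -- dimension at most one
    have hftp : Algebra.FiniteType (ZMod p) A := Algebra.FiniteType.of_restrictScalars_finiteType ℤ _ _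
    have hdim := ringKrullDim_le_of_small hftp hsm
    refine ⟨1, one_ne_zero, ?_⟩
    refine hP.iso _ _ (arithmetic_of_finiteType hA) ⟨?_⟩ (hP.dimOne A hA (by exact_mod_cast hdim))
    exact Scheme.Spec.mapIso (IsLocalization.atOne A (Localization.Away (1 : A))).toRingEquiv.symm.toCommRingCatIso.op
  · obtain ⟨s, hs⟩ := hA.out
    obtain ⟨C, hCFG, g, hg0, hT⟩ := exists_coeffs (R := ZMod p) (s.image φ)
    have hCft : Algebra.FiniteType (ZMod p) C := (Subalgebra.fg_iff_finiteType C).1 hCFG
    have hCZ : Algebra.FiniteType ℤ C := Algebra.FiniteType.trans (S := ZMod p) inferInstance hCft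
    have hCdim : ringKrullDim C ≤ 1 := by
      have h1 : Small 1 (ZMod p) C := small_of_injective C.val Subtype.val_injective hk
      exact_mod_cast ringKrullDim_le_of_small hCft h1
    have hCXZ : Algebra.FiniteType ℤ C[X] := Algebra.FiniteType.trans hCZ inferInstance
    obtain ⟨t, ht⟩ := hCXZ.out
    -- the embedding
    let ι : C[X] →+* RatFunc k := (algebraMap k[X] (RatFunc k)).comp (mapRingHom C.val.toRingHom)
    have hι : Function.Injective ι :=
      (RatFunc.algebraMap_injective k).comp (Polynomial.map_injective _ Subtype.val_injective)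
    let K := FractionRing C[X]
    let ψ : K →+* RatFunc k := IsFractionRing.lift (A := C[X]) (K := K) hι
    have hψ : ∀ r : C[X], ψ (algebraMap C[X] K r) = ι r := fun r =>
      IsFractionRing.lift_algebraMap hι r
    have hψinj : Function.Injective ψ := ψ.injective
    have hgK : algebraMap C[X] K g ≠ 0 := by
      rw [Ne, map_eq_zero_iff _ (IsFractionRing.injective C[X] K)]
      exact hg0
    -- the ring `A` inside `K`
    have hrange : ∀ a : A, φ a ∈ ψ.range := by
      intro a
      refine mem_of_adjoin_int hs φ ψ.range (fun x hx => ?_) a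
      obtain ⟨f, hf⟩ := hT (φ x) (Finset.mem_image_of_mem φ hx)
      refine ⟨algebraMap C[X] K f / algebraMap C[X] K g, ?_⟩
      rw [map_div₀, hψ, hψ, div_eq_iff]
      · exact hf.symm
      · rw [Ne, map_eq_zero_iff ι hι]
        exact hg0
    let e : K ≃+* ψ.range := RingEquiv.ofBijective ψ.rangeRestrict
      ⟨fun x y h => hψinj (congrArg Subtype.val h), ψ.rangeRestrict_surjective⟩
    let j : A →+* K := e.symm.toRingHom.comp (φ.codRestrict ψ.range hrange)
    have hj : ∀ a, ψ (j a) = φ a := by
      intro a
      have h1 : e (j a) = ⟨φ a, hrange a⟩ := e.apply_symm_apply _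
      exact congrArg Subtype.val h1
    have hjinj : Function.Injective j := by
      intro x y h
      apply hφ
      rw [← hj, ← hj, h]
    let _ : Algebra A K := j.toAlgebra
    let F := FractionRing A
    let _ : Algebra F K := (IsFractionRing.lift (A := A) (K := F) hjinj).toAlgebra
    have hAFK : IsScalarTower A F K := IsScalarTower.of_algebraMap_eq fun a =>
      (IsFractionRing.lift_algebraMap hjinj a).symm
    have hpAK : IsScalarTower (ZMod p) A K :=
      IsScalarTower.of_algebraMap_eq' (Subsingleton.elim _ _)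
    have hK2 : Small 2 (ZMod p) K := by
      let ψ' : K →ₐ[ZMod p] RatFunc k :=
        { ψ with
          commutes' := fun c => by
            have h1 : ψ.comp (algebraMap (ZMod p) K) = algebraMap (ZMod p) (RatFunc k) :=
              Subsingleton.elim _ _
            exact RingHom.congr_fun h1 c }
      exact small_of_injective ψ' hψinj (small_ratFunc hk)
    have halg : Algebra.IsAlgebraic F K := isAlgebraic_of_small (A := A) hjinj hsm hK2
    obtain ⟨a, ha0, B, hBalg, hTB, hBa, hfin, hfree, hmin⟩ := exists_good_min (D := A) (F := F)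
      (K := K) (t.image (algebraMap C[X] K) ∪ {(algebraMap C[X] K g)⁻¹})
    have hCB : ∀ r : C[X], algebraMap C[X] K r ∈ B :=
      mem_of_adjoin_int ht (algebraMap C[X] K) B fun x hx =>
        hTB _ (Finset.mem_union_left _ (Finset.mem_image_of_mem _ hx))
    have hgB : (algebraMap C[X] K g)⁻¹ ∈ B :=
      hTB _ (Finset.mem_union_right _ (Finset.mem_singleton_self _))
    have hAS : ∀ x : A, j x ∈ locSub (algebraMap C[X] K) g := by
      intro x
      refine mem_of_adjoin_int hs j _ (fun y hy => ?_) x
      obtain ⟨f, hf⟩ := hT (φ y) (Finset.mem_image_of_mem φ hy)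
      refine ⟨1, f, hψinj ?_⟩
      rw [map_mul, hj, pow_one, hψ, hψ]
      exact hf
    obtain ⟨n, r, hr⟩ := mem_locSub.1 (hAS a)
    have hja : j a ≠ 0 := by
      rw [Ne, map_eq_zero_iff j hjinj]
      exact ha0
    have hrK : algebraMap C[X] K r ≠ 0 := by
      rw [← hr]
      exact mul_ne_zero hja (pow_ne_zero _ hgK)
    have hb0 : g * r ≠ 0 := by
      refine mul_ne_zero hg0 ?_
      rintro rfl
      exact hrK (map_zero _)
    have hBS : B ≤ locSub (algebraMap C[X] K) (g * r) := by
      refine hmin _ (fun d => locSub_mono _ g r (hAS d)) (fun x hx => ?_) ?_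
      · rw [Finset.mem_union, Finset.mem_image, Finset.mem_singleton] at hx
        rcases hx with ⟨y, -, rfl⟩ | rfl
        · exact map_mem_locSub _ _ y
        · refine ⟨1, r, ?_⟩
          rw [pow_one, map_mul, ← mul_assoc, inv_mul_cancel₀ hgK, one_mul]
      · refine ⟨1, g ^ (n + 1), ?_⟩
        change (j a)⁻¹ * _ = _
        rw [pow_one, map_mul, ← hr, map_pow]
        change (j a)⁻¹ * (algebraMap C[X] K g * (j a * algebraMap C[X] K g ^ n)) =
          algebraMap C[X] K g ^ (n + 1)
        rw [mul_left_comm, ← mul_assoc (j a)⁻¹, inv_mul_cancel₀ hja, one_mul, pow_succ']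
    have hjaB : (j a)⁻¹ ∈ B := by
      have h1 : IsUnit (algebraMap (Localization.Away a) B (algebraMap A _ a)) :=
        (IsLocalization.Away.algebraMap_isUnit a).map _
      obtain ⟨u, hu⟩ := h1
      have h2 : ((u : B) : K) = j a := by
        rw [hu]
        exact hBa a
      have h3 : ((u : B) : K) * (((u⁻¹ : Bˣ) : B) : K) = 1 := by
        rw [← Subring.coe_mul, Units.mul_inv]
        rfl
      rw [h2] at h3
      rw [← eq_inv_of_mul_eq_one_right h3]
      exact ((u⁻¹ : Bˣ) : B).2
    let iB : C[X] →+* B := (algebraMap C[X] K).codRestrict B hCB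
    let _ : Algebra C[X] B := iB.toAlgebra
    have hloc : IsLocalization.Away (g * r) B := by
      refine (isLocalization_iff _ _).2 ⟨?_, ?_, ?_⟩
      · rintro ⟨_, m, rfl⟩
        have h1 : (algebraMap C[X] K (g * r))⁻¹ ∈ B := by
          rw [map_mul, ← hr, mul_inv, mul_inv]
          refine B.mul_mem hgB (B.mul_mem hjaB ?_)
          rw [← inv_pow]
          exact B.pow_mem hgB n
        have h2 : iB (g * r) * ⟨_, h1⟩ = 1 := by
          apply Subtype.ext
          change algebraMap C[X] K (g * r) * (algebraMap C[X] K (g * r))⁻¹ = 1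
          apply mul_inv_cancel₀
          rw [map_mul]
          exact mul_ne_zero hgK hrK
        have h3 : IsUnit (iB (g * r)) := IsUnit.of_mul_eq_one _ h2
        have h4 := h3.pow m
        rw [← map_pow] at h4
        exact h4
      · intro z
        obtain ⟨m, q, hq⟩ := mem_locSub.1 (hBS z.2)
        refine ⟨(q, ⟨(g * r) ^ m, m, rfl⟩), ?_⟩
        apply Subtype.ext
        change (z : K) * algebraMap C[X] K ((g * r) ^ m) = algebraMap C[X] K q
        rw [map_pow]
        exact hq
      · intro x y hxy
        refine ⟨1, ?_⟩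
        have h1 : algebraMap C[X] K x = algebraMap C[X] K y := congrArg Subtype.val hxy
        rw [IsFractionRing.injective C[X] K h1]
    have hft := finiteType_away hCXZ (g * r)

    have hPB : P (Spec (CommRingCat.of B)) := by
      refine hP.iso _ _ (arithmetic_of_finiteType hft) ⟨?_⟩ (mem_polynomial_away hP hCZ hCdim _ hb0)
      exact Scheme.Spec.mapIso (IsLocalization.algEquiv (Submonoid.powers (g * r))
        (Localization.Away (g * r)) B).toRingEquiv.symm.toCommRingCatIso.op
    exact ⟨a, ha0, hP.transfer (Localization.Away a) B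
      (arithmetic_of_finiteType (finiteType_away hA a)) hPB⟩


end

end Pool.Agent.Helper9.RS
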