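import Pool.Agent.Helper9.RS.TI
import Pool.Agent.Helper45.LS.Main

/-!
# Schemes whose local rings are domains: reduction to the integral case
-/

set_option autoImplicit false

namespace Pool.Agent.Helper9.RS

open AlgebraicGeometry CategoryTheory Limits TopologicalSpace
open Pool.Agent.Helper45.LG Pool.Agent.Helper45.LS

private theorem component_eq45 {X : Scheme.{0}} (hdom : ∀ s : X, IsDomain (X.presheaf.stalk s))
    (z : X) : ∃ ξ : X, ∀ S ∈ irreducibleComponents X, z ∈ S → S = closure {ξ} := by
  have hd := hdom z
  have hb : (⊥ : Ideal (X.presheaf.stalk z)).IsPrime := Ideal.isPrime_bot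
  let b : Spec (X.presheaf.stalk z) := ⟨⊥, hb⟩
  refine ⟨X.fromSpecStalk z b, fun S hS hz => ?_⟩
  obtain ⟨η, hη⟩ := QuasiSober.sober hS.1 (isClosed_of_mem_irreducibleComponents S hS)
  have hηz : η ⤳ z := hη.specializes hz
  have h1 : η ∈ Set.range (X.fromSpecStalk z) := by
    rw [Scheme.range_fromSpecStalk]
    exact hηz
  obtain ⟨p, hp⟩ := h1
  have h2 : b ⤳ p := (PrimeSpectrum.le_iff_specializes b p).1 bot_le
  have h3 : X.fromSpecStalk z b ⤳ η := by
    rw [← hp]
    exact h2.map (X.fromSpecStalk z).continuous
  have h4 : S ⊆ closure {X.fromSpecStalk z b} := by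
    rw [← hη.def]
    exact h3.closure_subset
  exact Set.Subset.antisymm h4 (hS.2 isIrreducible_singleton.closure h4)

private theorem isOpen_component45 {X : Scheme.{0}} [NoetherianSpace X]
    (hdom : ∀ s : X, IsDomain (X.presheaf.stalk s)) (x : X) :
    IsOpen (irreducibleComponent x) := by
  have hfin := NoetherianSpace.finite_irreducibleComponents (α := X)
  have h1 : (irreducibleComponent x)ᶜ = ⋃₀ (irreducibleComponents X \ {irreducibleComponent x}) := by
    ext y
    constructor
    · intro hy
      refine ⟨irreducibleComponent y, ⟨irreducibleComponent_mem_irreducibleComponents y, ?_⟩,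
        mem_irreducibleComponent⟩
      intro h
      apply hy
      rw [← (h : irreducibleComponent y = irreducibleComponent x)]
      exact mem_irreducibleComponent
    · rintro ⟨S, ⟨hS, hSx⟩, hyS⟩ hyx
      obtain ⟨ξ, hξ⟩ := component_eq45 hdom y
      apply hSx
      show S = irreducibleComponent x
      rw [hξ S hS hyS, hξ _ (irreducibleComponent_mem_irreducibleComponents x) hyx]
  rw [← isClosed_compl_iff, h1, Set.sUnion_eq_biUnion]
  exact hfin.sdiff.isClosed_biUnion fun W hW => isClosed_of_mem_irreducibleComponents W hW.1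

private theorem range_homOfLE45 {X : Scheme.{0}} {U V : X.Opens} (e : U ≤ V) :
    Set.range (X.homOfLE e) = V.ι ⁻¹' (U : Set X) := by
  ext y
  constructor
  · rintro ⟨x, rfl⟩
    show V.ι (X.homOfLE e x) ∈ U
    have h1 : V.ι (X.homOfLE e x) = x.1 := Scheme.homOfLE_apply e x
    rw [h1]
    exact x.2
  · intro hy
    exact ⟨⟨y.1, hy⟩, Scheme.homOfLE_apply' e y.1 hy⟩

private theorem geo_clopen45 {P : Scheme.{0} → Prop} {K : Type} [Field K] {X : Scheme.{0}}
    (f : X ⟶ Spec (CommRingCat.of K)) [NoetherianSpace X]
    (hdom : ∀ s : X, IsDomain (X.presheaf.stalk s))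
    (h : ∀ U : X.Opens, IsClosed (U : Set X) → IsIntegral U.toScheme →
      GeometricScheme P K (U.ι ≫ f)) (C : Closeds X) :
    ∀ U : X.Opens, (U : Set X) = C → GeometricScheme P K (U.ι ≫ f) := by
  induction C using WellFoundedLT.induction with
  | ind C ih =>
    intro U hU
    have hUc : IsClosed (U : Set X) := by
      rw [hU]
      exact C.2
    by_cases hE : IsEmpty U.toScheme
    · exact GeometricScheme.empty _ hE
    rw [not_isEmpty_iff] at hE
    obtain ⟨⟨x, hx⟩⟩ := hE
    let V : X.Opens := ⟨irreducibleComponent x, isOpen_component45 hdom x⟩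
    have hVc : IsClosed (V : Set X) := isClosed_irreducibleComponent
    have hVU : V ≤ U := isIrreducible_irreducibleComponent.isPreirreducible.isPreconnected
      |>.subset_isClopen ⟨hUc, U.2⟩ ⟨x, mem_irreducibleComponent, hx⟩
    have hred : IsReduced X := by
      have h1 : ∀ s : X, _root_.IsReduced (X.presheaf.stalk s) := fun s => by
        have := hdom s
        infer_instance
      exact isReduced_of_isReduced_stalk X
    have hVint : IsIntegral V.toScheme := by
      have h1 : IrreducibleSpace V.toScheme := by
        have h2 : IsIrreducible (V : Set X) := isIrreducible_irreducibleComponent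
        exact (isIrreducible_iff_irreducibleSpace (s := (V : Set X))).1 h2
      have h2 : IsReduced V.toScheme := isReduced_of_isOpenImmersion V.ι
      exact isIntegral_of_irreducibleSpace_of_isReduced _
    have hV := h V hVc hVint
    let W : X.Opens := ⟨(U : Set X) ∩ (V : Set X)ᶜ, U.2.inter hVc.isOpen_compl⟩
    have hWU : W ≤ U := fun y hy => hy.1
    have hWc : IsClosed (W : Set X) := hUc.inter V.2.isClosed_compl
    have hW : GeometricScheme P K (W.ι ≫ f) := by
      refine ih ⟨W, hWc⟩ ?_ W rfl
      refine lt_of_le_of_ne ?_ ?_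
      · intro y hy
        show y ∈ (C : Set X)
        rw [← hU]
        exact hy.1
      · intro hEq
        have h1 : x ∈ (C : Set X) := by
          rw [← hU]
          exact hx
        rw [← hEq] at h1
        exact h1.2 mem_irreducibleComponent
    refine GeometricScheme.glue (U.ι ≫ f) (X.homOfLE hVU) (X.homOfLE hWU)
      ⟨?_, inferInstance, ?_⟩ ?_ ?_
    · refine IsClosedImmersion.of_isPreimmersion _ ?_
      rw [range_homOfLE45]
      exact hVc.preimage U.ι.continuous
    · rw [range_homOfLE45, range_homOfLE45]
      ext y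
      constructor
      · intro hy hy'
        exact hy.2 hy'
      · intro hy
        exact ⟨y.2, hy⟩
    · rw [Scheme.homOfLE_ι_assoc]
      exact hV
    · rw [Scheme.homOfLE_ι_assoc]
      exact hW

/-- A scheme of finite type over a field whose local rings are domains. -/
theorem geo_of_components {P : Scheme.{0} → Prop} {K : Type} [Field K] {X : Scheme.{0}}
    (f : X ⟶ Spec (CommRingCat.of K)) (hf : IsFT f)
    (hdom : ∀ s : X, IsDomain (X.presheaf.stalk s))
    (h : ∀ U : X.Opens, IsClosed (U : Set X) → IsIntegral U.toScheme →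
      GeometricScheme P K (U.ι ≫ f)) : GeometricScheme P K f := by
  have h1 := hf.lft
  have h2 := hf.qc
  have h3 : IsLocallyNoetherian X := LocallyOfFiniteType.isLocallyNoetherian f
  have h4 : CompactSpace X := QuasiCompact.compactSpace_of_compactSpace f
  have h5 : IsNoetherian X := {}
  have h6 := geo_clopen45 f hdom h ⟨Set.univ, isClosed_univ⟩ ⊤ rfl
  refine GeometricScheme.glue f (Scheme.emptyTo X) (⊤ : X.Opens).ι
    ⟨inferInstance, inferInstance, ?_⟩ (GeometricScheme.empty _ inferInstance) h6
  rw [Scheme.Opens.range_ι, Set.range_eq_empty, Set.compl_empty]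
  rfl

end Pool.Agent.Helper9.RS
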