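import Pool.Agent.Helper9.RS.XA
import Pool.Agent.Helper9.RS.N

/-!
# Block X, second half: the generic points of flat schemes
-/

set_option autoImplicit false

namespace Pool.Agent.Helper9.RS

open AlgebraicGeometry CategoryTheory Limits Pool.Agent.Helper45.LG Pool.Agent.Helper45.LS
open IsLocalRing

/-- The generic points of a flat scheme over `ℤ` lie over the generic point. -/
theorem generic_of_flat {X : Scheme.{0}} {A : CommRingCat.{0}} [IsDomain A] (f : X ⟶ Spec A)
    (hf : Flat f) (s : X) (hs : IsGeneric s) : f s = genericPoint (Spec A) := by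
  have h1 : genericPoint (Spec A) ⤳ f s := (genericPoint_spec (Spec A)).specializes trivial
  obtain ⟨t, ht, hts⟩ := Flat.generalizingMap f h1
  rw [← hs t ht]
  exact hts

theorem specMap_field_generic {A : CommRingCat.{0}} [IsDomain A] {K : Type} [Field K]
    (φ : A ⟶ CommRingCat.of K) (hφ : Function.Injective φ.hom) (z : Spec (CommRingCat.of K)) :
    Spec.map φ z = genericPoint (Spec A) := by
  rw [genericPoint_eq_bot_of_affine]
  apply PrimeSpectrum.ext
  ext a
  constructor
  · intro ha
    by_contra h0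
    have h1 : φ.hom a ≠ 0 := fun h => h0 (hφ (h.trans (map_zero _).symm))
    have h2 : φ.hom a ∈ (z : PrimeSpectrum K).asIdeal := ha
    exact (z : PrimeSpectrum K).isPrime.ne_top
      (Ideal.eq_top_of_isUnit_mem _ h2 (isUnit_iff_ne_zero.2 h1))
  · intro ha
    have h1 : a = 0 := ha
    rw [h1]
    exact Ideal.zero_mem _

theorem exists_over {X : Scheme.{0}} (hflat : Flat (specZIsTerminal.from X)) {K : Type} [Field K]
    [CharZero K] (s : X) (hs : IsGeneric s) :
    ∃ s' : fibre X K, IsGeneric s' ∧ fibreFst X K s' = s := by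
  have hD : IsDomain (CommRingCat.of ℤ) := inferInstanceAs (IsDomain ℤ)
  have h1 := generic_of_flat (specZIsTerminal.from X) hflat s hs
  have h2 : specZIsTerminal.from (Spec (CommRingCat.of K)) (IsLocalRing.closedPoint K) =
      genericPoint (Spec (CommRingCat.of ℤ)) := by
    rw [specZIsTerminal.hom_ext (specZIsTerminal.from (Spec (CommRingCat.of K)))
      (Spec.map (CommRingCat.ofHom (Int.castRingHom K)))]
    exact specMap_field_generic (CommRingCat.ofHom (Int.castRingHom K)) Int.cast_injective _
  obtain ⟨z, hz, -⟩ := Scheme.Pullback.exists_preimage_pullback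
    (f := specZIsTerminal.from X) (g := specZIsTerminal.from (Spec (CommRingCat.of K))) s
    (IsLocalRing.closedPoint K) (h1.trans h2.symm)
  obtain ⟨s', hs', hs'z⟩ := exists_generic (X := fibre X K) z
  refine ⟨s', hs', hs _ ?_⟩
  have h3 : fibreFst X K s' ⤳ fibreFst X K z := hs'z.map (fibreFst X K).continuous
  have h4 : fibreFst X K z = s := hz
  rw [h4] at h3
  exact h3

/-- The hypothesis of `mem_fibre`. -/
theorem embeds_of_pure {X : Scheme.{0}} (hflat : Flat (specZIsTerminal.from X))
    (h2 : ∀ s : fibre X (AlgebraicClosure ℚ), IsGeneric s →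
      PureAt 2 (fibreTo X (AlgebraicClosure ℚ)) s) (s : X) (hs : IsGeneric s) :
    ∃ (E : Type) (_ : Field E) (_ : CharZero E), IsAlgClosed E ∧
      Small 1 ℤ E ∧ Nonempty (X.residueField s →+* RatFunc E) := by
  obtain ⟨s', hs', rfl⟩ := exists_over (K := AlgebraicClosure ℚ) hflat s hs
  obtain ⟨E, hE1, hE2, hE3, hE4, ⟨φ⟩⟩ := exists_big_field
  obtain ⟨e, -⟩ := h2 s' hs'
  exact ⟨E, hE1, hE2, hE3, hE4, ⟨(φ.comp (e.symm : _ →+* _)).comp
    ((fibreFst X (AlgebraicClosure ℚ)).residueFieldMap s').hom⟩⟩

end Pool.Agent.Helper9.RS
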